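import Pool.Agent.H886.SB.Real

/-!
# Birational sections over number fields with at most one complex place
-/

set_option autoImplicit false
set_option linter.unusedSectionVars false

open IsDedekindDomain NumberField Polynomial

namespace Pool.Agent.H886.SB

open Pool.Agent.TH942 Pool.Agent.TH954 Pool.Agent.TH841.NF
open Pool.Agent.Q33.SecL (GalSec Pt)
open Pool.Agent.Q33.BSec Pool.Agent.H886.Exp
open NumberField.InfinitePlace.Completion (extensionEmbedding extensionEmbeddingOfIsReal)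

section few

variable {K : Type} [Field K] [NumberField K]

/-- few poles -/
lemma few_of (X : ∀ v : HeightOneSpectrum (𝓞 K), v.adicCompletion K) (N : ℕ) (hN : 0 < N)
    (h : ∀ᶠ v in Filter.cofinite, ∀ k : ℤ, 0 < k → Valued.v (X v) ≠ WithZero.exp ((N : ℤ) * k)) :
    Few (K := K) (fun p _ φ => jc φ (X (pls φ))) := by
  obtain ⟨D, hD, hDT⟩ := exists_bound _ (Filter.eventually_cofinite.1 h)
  refine ⟨N, hN, D, hD, fun p _ φ hp z hz heq => ?_⟩
  have h1 := hDT p φ hp
  simp only [Set.mem_ofPred_eq, not_not] at h1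
  obtain ⟨e, he, hve⟩ := exists_ram φ
  change ‖jc φ (X (pls φ))‖ = (p : ℝ) ^ ((N : ℤ) * z) at heq
  set y := X (pls φ) with hy
  have hp1 : (1 : ℝ) < p := by exact_mod_cast (Fact.out : p.Prime).one_lt
  have hne : y ≠ 0 := by
    intro h0
    rw [h0, map_zero, norm_zero] at heq
    exact (zpow_pos (by linarith : (0 : ℝ) < p) _).ne heq
  have hy0 : Valued.v y ≠ 0 := (Valuation.ne_zero_iff _).2 hne
  obtain ⟨m, hm⟩ : ∃ m : ℤ, Valued.v y = WithZero.exp m :=
    ⟨WithZero.log (Valued.v y), (WithZero.exp_log hy0).symm⟩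
  have h2 := norm_jc_exp φ hve hm
  have h3 : (p : ℝ) ^ ((N : ℤ) * z * e) = (p : ℝ) ^ m := by
    rw [← h2, heq, zpow_mul, zpow_natCast]
  have h4 : (N : ℤ) * z * e = m := zpow_right_injective₀ (by linarith) hp1.ne' h3
  refine h1 (z * e) (mul_pos hz (by exact_mod_cast he)) ?_
  rw [hm, ← h4, mul_assoc]

end few

section bir

variable {K : Type} [Field K] [NumberField K] {F Ω B : Type} [Field F] [Field Ω] [Field B]
  [Algebra K F] [Algebra F Ω] [Algebra K Ω] [Algebra K B] [IsScalarTower K F Ω]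
  [IsAlgClosure F Ω] [IsAlgClosure K B]

/-- the conclusion from the values -/
theorem bir_end (s : GalSection K F Ω B) (f : F) (hf : Transcendental K f)
    (hF : Algebra.IsAlgebraic (IntermediateField.adjoin K {f}) F)
    (pl : ∀ v : HeightOneSpectrum (𝓞 K), Plc K Ω (AlgebraicClosure (v.adicCompletion K)))
    (hpl : ∀ v : HeightOneSpectrum (𝓞 K), Cmp (L := v.adicCompletion K) s (pl v))
    (X : ∀ v : HeightOneSpectrum (𝓞 K), v.adicCompletion K)
    (hX : ∀ v, (pl v).val (algebraMap F Ω f) (algebraMap _ _ (X v)))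
    (h : ∃ ξ : K, ∀ (p : ℕ) [Fact p.Prime] (φ : K →+* PadicAlgCl p), jc φ (X (pls φ)) = φ ξ) :
    ∃ ξ : K, (∀ v, X v = algebraMap K (v.adicCompletion K) ξ) ∧
      ∃ O : ValuationSubring F, s.ArisesFrom O ∧ O.valuation (f - algebraMap K F ξ) < 1 ∧
        ∀ O' : ValuationSubring F, s.ArisesFrom O' → O' = O := by
  obtain ⟨ξ, hξ⟩ := h
  have hXξ : ∀ v, X v = algebraMap K (v.adicCompletion K) ξ := by
    intro v
    obtain ⟨p, hp, φ, rfl⟩ := exists_pls v
    apply (jc φ).injective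
    rw [jc_coe]
    exact hξ p φ
  have hΩ2 : Algebra.IsAlgebraic F Ω := IsAlgClosure.isAlgebraic
  refine ⟨ξ, hXξ, arises_of_val_zero ⟨f, hf, hF⟩ s pl (fun v => geoPlc_of_cmp s (hpl v))
    (f - algebraMap K F ξ) ?_ ?_⟩
  · intro h
    apply hf
    rw [sub_eq_zero.1 h]
    exact isAlgebraic_algebraMap ξ
  · intro v
    have h1 := (hX v).sub (Plc.val_alg (pl := pl v) ξ)
    rw [hXξ v, ← IsScalarTower.algebraMap_apply, sub_self] at h1
    rw [map_sub, ← IsScalarTower.algebraMap_apply]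
    exact h1

/-- roots of quadratic equations -/
lemma exists_isRoot [IsAlgClosed Ω] (f : F) (e δ : K) : ∃ y : Ω, IsRoot (F := F) f e δ y := by
  obtain ⟨y, hy⟩ := IsAlgClosed.exists_root (C 1 * X ^ 2 +
      C (-(algebraMap F Ω f + algebraMap K Ω e)) * X + C (algebraMap K Ω δ) : Polynomial Ω) (by
    rw [degree_quadratic one_ne_zero]
    decide)
  refine ⟨y, ?_⟩
  unfold IsRoot
  have h1 : (C 1 * X ^ 2 + C (-(algebraMap F Ω f + algebraMap K Ω e)) * X +
      C (algebraMap K Ω δ) : Polynomial Ω).eval y = 0 := hy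
  simp only [eval_add, eval_mul, eval_C, eval_pow, eval_X] at h1
  linear_combination h1

lemma exists_pow_root [IsAlgClosed Ω] {y : Ω} (hy : y ≠ 0) (N : ℕ) (hN : 0 < N) :
    ∃ w : Ω, w ≠ 0 ∧ w ^ N = y := by
  obtain ⟨w, hw⟩ := IsAlgClosed.exists_pow_nat_eq y hN
  refine ⟨w, ?_, hw⟩
  rintro rfl
  rw [zero_pow hN.ne'] at hw
  exact hy hw.symm

/-- **Birational sections over totally real fields.** -/
theorem bir_zero (hK : ∀ v : InfinitePlace K, v.IsReal) (s : GalSection K F Ω B) (f : F)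
    (hf : Transcendental K f)
    (hF : Algebra.IsAlgebraic (IntermediateField.adjoin K {f}) F)
    (pl : ∀ v : HeightOneSpectrum (𝓞 K), Plc K Ω (AlgebraicClosure (v.adicCompletion K)))
    (hpl : ∀ v : HeightOneSpectrum (𝓞 K), Cmp (L := v.adicCompletion K) s (pl v))
    (X : ∀ v : HeightOneSpectrum (𝓞 K), v.adicCompletion K)
    (hX : ∀ v, (pl v).val (algebraMap F Ω f) (algebraMap _ _ (X v))) (N : ℕ) (hN : 0 < N)
    (hfew : ∀ᶠ v in Filter.cofinite, ∀ k : ℤ, 0 < k →
      Valued.v (X v) ≠ WithZero.exp ((N : ℤ) * k))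
    (pr : ∀ v : InfinitePlace K, Plc K Ω (AlgebraicClosure v.Completion))
    (hpr : ∀ v : InfinitePlace K, Cmp (L := v.Completion) s (pr v))
    (r : ∀ v : InfinitePlace K, v.Completion)
    (hr : ∀ v, (pr v).val (algebraMap F Ω f) (algebraMap _ _ (r v))) :
    ∃ ξ : K, (∀ v, X v = algebraMap K (v.adicCompletion K) ξ) ∧
      ∃ O : ValuationSubring F, s.ArisesFrom O ∧ O.valuation (f - algebraMap K F ξ) < 1 ∧
        ∀ O' : ValuationSubring F, s.ArisesFrom O' → O' = O := by
  have hΩ1 : IsAlgClosed Ω := IsAlgClosure.isAlgClosed F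
  have hΩ2 : Algebra.IsAlgebraic F Ω := IsAlgClosure.isAlgebraic
  have hB1 : IsAlgClosed B := IsAlgClosure.isAlgClosed K
  have hB2 : Algebra.IsAlgebraic K B := IsAlgClosure.isAlgebraic
  -- the constant
  obtain ⟨n, hn⟩ : ∃ n : ℕ, ∀ v : InfinitePlace K,
      (extensionEmbeddingOfIsReal (hK v) (r v)) ^ 2 < 4 * n := by
    obtain ⟨n, hn⟩ := exists_nat_gt (∑ v : InfinitePlace K,
      (extensionEmbeddingOfIsReal (hK v) (r v)) ^ 2)
    refine ⟨n, fun v => ?_⟩
    have h1 : (extensionEmbeddingOfIsReal (hK v) (r v)) ^ 2 ≤ ∑ v : InfinitePlace K,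
      (extensionEmbeddingOfIsReal (hK v) (r v)) ^ 2 :=
      Finset.single_le_sum (f := fun v : InfinitePlace K =>
        (extensionEmbeddingOfIsReal (hK v) (r v)) ^ 2) (fun v _ => sq_nonneg _) (Finset.mem_univ v)
    have h2 : (0 : ℝ) ≤ n := n.cast_nonneg
    linarith
  obtain ⟨v0⟩ : Nonempty (InfinitePlace K) := inferInstance
  have hn0 : (n : K) ≠ 0 := by
    have h1 := hn v0
    have h2 : n ≠ 0 := by
      rintro rfl
      have h3 := sq_nonneg (extensionEmbeddingOfIsReal (hK v0) (r v0))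
      rw [Nat.cast_zero, mul_zero] at h1
      linarith
    exact_mod_cast h2
  obtain ⟨y, hy⟩ := exists_isRoot (Ω := Ω) f (0 : K) (n : K)
  have hy0 := hy.ne_zero hn0
  refine bir_end s f hf hF pl hpl X hX (main_zero (toSec s) f 0 n hn0 y hy
    (fun N hN => exists_pow_root hy0 N hN)
    (fun p _ φ => toPt φ (pl (pls φ))) (fun p _ φ => givenBy_of_cmp s φ _ (hpl _))
    (fun p _ φ => jc φ (X (pls φ))) (fun p _ φ => ?_) (few_of X N hN hfew) (fun v => ?_))
  · have h1 := toPt_val (hX (pls φ))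
    rwa [bx_alg] at h1
  · refine moves_of_disc s (hK v) (pr v) (hpr v) hy (r v) (hr v) ?_
    rw [map_zero, add_zero, map_natCast]
    exact hn v

/-- **Birational sections over number fields with an exceptional archimedean place.** -/
theorem bir_one (v0 : InfinitePlace K) (hK : ∀ v : InfinitePlace K, v ≠ v0 → v.IsReal)
    (s : GalSection K F Ω B) (f : F) (hf : Transcendental K f)
    (hF : Algebra.IsAlgebraic (IntermediateField.adjoin K {f}) F)
    (pl : ∀ v : HeightOneSpectrum (𝓞 K), Plc K Ω (AlgebraicClosure (v.adicCompletion K)))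
    (hpl : ∀ v : HeightOneSpectrum (𝓞 K), Cmp (L := v.adicCompletion K) s (pl v))
    (X : ∀ v : HeightOneSpectrum (𝓞 K), v.adicCompletion K)
    (hX : ∀ v, (pl v).val (algebraMap F Ω f) (algebraMap _ _ (X v)))
    (hX0 : ∀ v, X v ≠ 0) (N : ℕ) (hN : 0 < N)
    (hfew : ∀ᶠ v in Filter.cofinite, ∀ k : ℤ, 0 < k →
      Valued.v (X v) ≠ WithZero.exp ((N : ℤ) * k)) (N' : ℕ) (hN' : 0 < N')
    (hfew' : ∀ᶠ v in Filter.cofinite, ∀ k : ℤ, 0 < k →
      Valued.v (X v)⁻¹ ≠ WithZero.exp ((N' : ℤ) * k))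
    (pr : ∀ v : InfinitePlace K, v ≠ v0 → Plc K Ω (AlgebraicClosure v.Completion))
    (hpr : ∀ (v : InfinitePlace K) (hv : v ≠ v0), Cmp (L := v.Completion) s (pr v hv))
    (r : ∀ v : InfinitePlace K, v ≠ v0 → v.Completion)
    (hr : ∀ (v : InfinitePlace K) (hv : v ≠ v0),
      (pr v hv).val (algebraMap F Ω f) (algebraMap _ _ (r v hv)))
    (hr0 : ∀ (v : InfinitePlace K) (hv : v ≠ v0), r v hv ≠ 0) :
    ∃ ξ : K, (∀ v, X v = algebraMap K (v.adicCompletion K) ξ) ∧
      ∃ O : ValuationSubring F, s.ArisesFrom O ∧ O.valuation (f - algebraMap K F ξ) < 1 ∧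
        ∀ O' : ValuationSubring F, s.ArisesFrom O' → O' = O := by
  classical
  have hΩ1 : IsAlgClosed Ω := IsAlgClosure.isAlgClosed F
  have hΩ2 : Algebra.IsAlgebraic F Ω := IsAlgClosure.isAlgebraic
  have hB1 : IsAlgClosed B := IsAlgClosure.isAlgClosed K
  have hB2 : Algebra.IsAlgebraic K B := IsAlgClosure.isAlgebraic
  -- the constant, by weak approximation
  obtain ⟨α, hα0, hα⟩ : ∃ α : K, α ≠ 0 ∧ ∀ (v : InfinitePlace K) (hv : v ≠ v0),
      ‖algebraMap K v.Completion α + r v hv‖ < ‖r v hv‖ / 2 := by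
    let a : InfiniteAdeleRing K := fun v => if hv : v ≠ v0 then -(r v hv) else 1
    let U : Set (InfiniteAdeleRing K) := {x | ∀ v, ‖x v - a v‖ < ‖a v‖ / 2}
    have hU : IsOpen U := by
      have h1 : U = ⋂ v, {x : InfiniteAdeleRing K | ‖x v - a v‖ < ‖a v‖ / 2} := by
        ext x
        simp [U]
      rw [h1]
      refine isOpen_iInter_of_finite fun v => ?_
      refine isOpen_lt ?_ continuous_const
      exact ((continuous_apply v).sub continuous_const).norm
    have hne : ∀ v, a v ≠ 0 := by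
      intro v
      by_cases hv : v ≠ v0
      · have h1 : a v = -(r v hv) := dif_pos hv
        rw [h1]
        exact neg_ne_zero.2 (hr0 v hv)
      · have h1 : a v = 1 := dif_neg hv
        rw [h1]
        exact one_ne_zero
    have haU : a ∈ U := by
      intro v
      rw [sub_self, norm_zero]
      exact half_pos (norm_pos_iff.2 (hne v))
    obtain ⟨α, hα⟩ := (InfiniteAdeleRing.denseRange_algebraMap K).exists_mem_open hU ⟨a, haU⟩
    refine ⟨α, ?_, fun v hv => ?_⟩
    · rintro rfl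
      have h1 := hα v0
      rw [map_zero] at h1
      have h2 : ‖(0 : v0.Completion) - a v0‖ < ‖a v0‖ / 2 := h1
      rw [zero_sub, norm_neg] at h2
      have h3 := norm_pos_iff.2 (hne v0)
      linarith
    · have h1 := hα v
      have h2 : a v = -(r v hv) := dif_pos hv
      rw [h2, sub_neg_eq_add, norm_neg] at h1
      exact h1
  have hδ : (2 * α ^ 2 : K) ≠ 0 := mul_ne_zero two_ne_zero (pow_ne_zero _ hα0)
  obtain ⟨y, hy⟩ := exists_isRoot (Ω := Ω) f (3 * α) (2 * α ^ 2)
  have hy0 := hy.ne_zero hδ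
  have hf0 : f ≠ 0 := by
    rintro rfl
    exact hf isAlgebraic_zero
  obtain ⟨hy2, hy1, -⟩ := second_root hα0 hy hf0
  have hfew1 : Few (K := K) (fun p _ φ => (jc φ (X (pls φ)))⁻¹) := by
    have h1 := few_of (K := K) (fun v => (X v)⁻¹) N' hN' hfew'
    obtain ⟨N', hN', D, hD, H⟩ := h1
    refine ⟨N', hN', D, hD, fun p _ φ hp z hz => ?_⟩
    have h2 := H p φ hp z hz
    change ‖jc φ ((X (pls φ))⁻¹)‖ ≠ _ at h2
    rwa [map_inv₀] at h2
  refine bir_end s f hf hF pl hpl X hX (main_one (toSec s) f hf hF α hα0 y hy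
    (fun N hN => exists_pow_root hy0 N hN)
    (fun N hN => exists_pow_root (div_ne_zero hy1 hy2) N hN)
    (fun p _ φ => toPt φ (pl (pls φ))) (fun p _ φ => givenBy_of_cmp s φ _ (hpl _))
    (fun p _ φ => jc φ (X (pls φ))) (fun p _ φ => ?_)
    (fun p _ φ => (_root_.map_ne_zero _).2 (hX0 _)) (few_of X N hN hfew) hfew1 v0
    (fun v hv => ?_))
  · have h1 := toPt_val (hX (pls φ))
    rwa [bx_alg] at h1
  · refine moves_of_disc s (hK v hv) (pr v hv) (hpr v hv) hy (r v hv) (hr v hv) ?_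
    rw [map_mul, map_mul, map_pow, map_ofNat, map_ofNat]
    have h1 := hα v hv
    have hiso := InfinitePlace.Completion.isometry_extensionEmbeddingOfIsReal (hK v hv)
    have hnorm : ∀ z : v.Completion, ‖extensionEmbeddingOfIsReal (hK v hv) z‖ = ‖z‖ := by
      intro z
      have h2 := hiso.norm_map_of_map_zero (map_zero _) z
      exact h2
    rw [← hnorm, ← hnorm, map_add] at h1
    have h3 : extensionEmbeddingOfIsReal (hK v hv) (algebraMap K v.Completion α) =
        InfinitePlace.embedding_of_isReal (hK v hv) α :=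
      InfinitePlace.Completion.extensionEmbeddingOfIsReal_coe (hK v hv) _
    rw [h3, Real.norm_eq_abs, Real.norm_eq_abs] at h1
    set R := extensionEmbeddingOfIsReal (hK v hv) (r v hv)
    set A := InfinitePlace.embedding_of_isReal (hK v hv) α
    have h5 : (A + R) ^ 2 < R ^ 2 / 4 := by
      have h6 : |A + R| ^ 2 < (|R| / 2) ^ 2 := by
        exact pow_lt_pow_left₀ h1 (abs_nonneg _) two_ne_zero
      rw [sq_abs, div_pow, sq_abs] at h6
      linarith
    nlinarith [sq_nonneg (2 * (A + R) - R), sq_nonneg R]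

end bir

end Pool.Agent.H886.SB
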