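import Pool.Agent.H886.SB.Main
import Pool.Graph.R_pool_sql_team_seeded_3997aac3.Q33.BSec.Gen

/-!
# Units on étale coverings
-/

set_option autoImplicit false
set_option linter.unusedSectionVars false

namespace Pool.Agent.H886.SB

open Polynomial
open Pool.Agent.W620.SC (mem_unramified inertia_root unramified)
open Pool.Agent.Q33.SecL (GalSec Pt)

section units

variable {K F Ω : Type} [Field K] [CharZero K] [Field F] [Field Ω] [Algebra K F]
  [Algebra F Ω] [Algebra K Ω] [IsScalarTower K F Ω]

/-- `y` is a unit on the coverings of the curve with the local rings `C` -/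
def UnitOver (C : Set (ValuationSubring F)) (y : Ω) : Prop :=
  ∀ W : ValuationSubring Ω, W.comap (algebraMap F Ω) ∈ C → y ∈ W ∧ y⁻¹ ∈ W

/-- roots of units on coverings -/
lemma root_cov [IsAlgClosed Ω] (C : Set (ValuationSubring F))
    (hC : ∀ O ∈ C, ∀ c : K, algebraMap K F c ∈ O) (y : unramified F Ω C)
    (hy0 : y ≠ 0) (hy : UnitOver C (y : Ω)) {N : ℕ} (hN : 0 < N) :
    ∃ w : unramified F Ω C, w ≠ 0 ∧ w ^ N = y := by
  obtain ⟨w, hw⟩ := IsAlgClosed.exists_pow_nat_eq (y : Ω) hN
  have hy0' : (y : Ω) ≠ 0 := fun h => hy0 (Subtype.ext h)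
  have hw0 : w ≠ 0 := by
    rintro rfl
    rw [zero_pow hN.ne'] at hw
    exact hy0' hw.symm
  have hwM : w ∈ unramified F Ω C := by
    rw [mem_unramified]
    intro W hW σ hσ
    have hWK : ∀ c : K, algebraMap K Ω c ∈ W := by
      intro c
      rw [IsScalarTower.algebraMap_apply K F Ω]
      exact hC _ hW c
    obtain ⟨h1, h2⟩ := hy W hW
    refine inertia_root hWK hσ hN (t := 1) ?_ (map_one _) one_ne_zero hw0 ?_ ?_
    · rw [hw]
      exact (mem_unramified.1 y.2) W hW σ hσ
    · rw [one_pow, div_one, hw]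
      exact h1
    · rw [one_pow, one_div, hw]
      exact h2
  exact ⟨⟨w, hwM⟩, fun h => hw0 (congrArg Subtype.val h), Subtype.ext hw⟩

end units

end Pool.Agent.H886.SB
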