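import Pool.Agent.H886.SB.RealPt

/-!
# Every birational section has a point over each real completion
-/

set_option autoImplicit false
set_option linter.unusedSectionVars false

namespace Pool.Agent.H886.SB

open NumberField ArchimedeanClass
open Pool.Agent.TH942 Pool.Agent.TH954
open Pool.Agent.Q33.BSec
open NumberField.InfinitePlace.Completion (extensionEmbedding extensionEmbeddingOfIsReal)

section theta

variable {K : Type} [Field K] {v : InfinitePlace K}

/-- decomposition in real and imaginary parts -/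
lemma theta_surj (hv : v.IsReal) (θ : AlgebraicClosure v.Completion →+* ℂ)
    (hθ : ∀ y : v.Completion, θ (algebraMap _ _ y) = (extensionEmbeddingOfIsReal hv y : ℂ)) :
    Function.Surjective θ := by
  have hreal : ∀ r : ℝ, ∃ a, θ a = r := by
    intro r
    obtain ⟨y, hy⟩ := InfinitePlace.Completion.surjective_extensionEmbeddingOfIsReal hv r
    exact ⟨algebraMap _ _ y, by rw [hθ, hy]⟩
  obtain ⟨i, hi⟩ := IsAlgClosed.exists_pow_nat_eq (-1 : AlgebraicClosure v.Completion) two_pos
  have h1 : (θ i) ^ 2 = Complex.I ^ 2 := by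
    rw [← map_pow, hi, map_neg, map_one, Complex.I_sq]
  have hI : ∃ i', θ i' = Complex.I := by
    rcases sq_eq_sq_iff_eq_or_eq_neg.1 h1 with h | h
    · exact ⟨i, h⟩
    · exact ⟨-i, by rw [map_neg, h, neg_neg]⟩
  intro z
  obtain ⟨a, ha⟩ := hreal z.re
  obtain ⟨b, hb⟩ := hreal z.im
  obtain ⟨i', hi'⟩ := hI
  exact ⟨a + b * i', by rw [map_add, map_mul, ha, hb, hi', Complex.re_add_im]⟩

/-- the automorphisms of the algebraic closure of a real completion -/
lemma theta_aut (hv : v.IsReal) (θ : AlgebraicClosure v.Completion →+* ℂ)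
    (hθ : ∀ y : v.Completion, θ (algebraMap _ _ y) = (extensionEmbeddingOfIsReal hv y : ℂ))
    (σ : AlgebraicClosure v.Completion ≃ₐ[v.Completion] AlgebraicClosure v.Completion) :
    (∀ c, θ (σ c) = θ c) ∨ ∀ c, θ (σ c) = (starRingEnd ℂ) (θ c) := by
  obtain ⟨i, hi⟩ := theta_surj hv θ hθ Complex.I
  have hdec : ∀ c, ∃ a b : v.Completion, c = algebraMap _ _ a + algebraMap _ _ b * i := by
    intro c
    obtain ⟨a, ha⟩ := InfinitePlace.Completion.surjective_extensionEmbeddingOfIsReal hv (θ c).re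
    obtain ⟨b, hb⟩ := InfinitePlace.Completion.surjective_extensionEmbeddingOfIsReal hv (θ c).im
    refine ⟨a, b, θ.injective ?_⟩
    rw [map_add, map_mul, hθ, hθ, ha, hb, hi, Complex.re_add_im]
  have h1 : (θ (σ i)) ^ 2 = Complex.I ^ 2 := by
    rw [← map_pow, ← map_pow]
    have h2 : i ^ 2 = -1 := by
      apply θ.injective
      rw [map_pow, hi, Complex.I_sq, map_neg, map_one]
    rw [h2, map_neg, map_neg, map_one, map_one, Complex.I_sq]
  rcases sq_eq_sq_iff_eq_or_eq_neg.1 h1 with h | h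
  · left
    intro c
    obtain ⟨a, b, rfl⟩ := hdec c
    rw [map_add, map_mul, σ.commutes, σ.commutes, map_add, map_mul, h, map_add, map_mul, hi]
  · right
    intro c
    obtain ⟨a, b, rfl⟩ := hdec c
    rw [map_add, map_mul, σ.commutes, σ.commutes, map_add, map_mul, h, map_add, map_mul, hi, hθ,
      hθ, map_add, map_mul, Complex.conj_ofReal, Complex.conj_ofReal, Complex.conj_I]

end theta

section point

variable {K F Ω B : Type} [Field K] [NumberField K] [Field F] [Field Ω] [Field B] [Algebra K F]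
  [Algebra F Ω] [Algebra K Ω] [Algebra K B] [IsScalarTower K F Ω] [IsAlgClosed Ω]
  [IsAlgClosure K B]

/-- the involution -/
theorem exists_inv (s : GalSection K F Ω B) (ι : B →+* ℂ) (τ : B ≃ₐ[K] B)
    (hτ : ∀ z, ι (τ z) = (starRingEnd ℂ) (ι z)) :
    ∃ t : Inv Ω, (∀ x, t.T x = s.s τ x) ∧ ∃ i : B, t.I = s.j i ∧ ι i = Complex.I := by
  have hB1 : IsAlgClosed B := IsAlgClosure.isAlgClosed K
  have h2 : τ * τ = 1 := by
    ext z
    apply ι.injective
    change ι (τ (τ z)) = ι z
    rw [hτ, hτ, Complex.conj_conj]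
  obtain ⟨i, hi⟩ : ∃ i : B, ι i = Complex.I := by
    obtain ⟨i, hi⟩ := IsAlgClosed.exists_pow_nat_eq (-1 : B) two_pos
    have h1 : (ι i) ^ 2 = Complex.I ^ 2 := by
      rw [← map_pow, hi, map_neg, map_one, Complex.I_sq]
    rcases sq_eq_sq_iff_eq_or_eq_neg.1 h1 with h | h
    · exact ⟨i, h⟩
    · exact ⟨-i, by rw [map_neg, h, neg_neg]⟩
  have hi2 : i ^ 2 = -1 := by
    apply ι.injective
    rw [map_pow, hi, Complex.I_sq, map_neg, map_one]
  have hti : τ i = -i := by
    apply ι.injective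
    rw [hτ, hi, Complex.conj_I, map_neg, hi]
  refine ⟨⟨(s.s τ : Ω ≃+* Ω), fun x => ?_, s.j i, ?_, ?_⟩, fun x => rfl, i, rfl, hi⟩
  · change (s.s τ * s.s τ) x = x
    rw [← map_mul, h2, map_one]
    rfl
  · rw [← map_pow, hi2, map_neg, map_one]
  · change s.s τ (s.j i) = -(s.j i)
    rw [s.sec, hti, map_neg]

/-- the standard part of the real algebraic numbers -/
theorem std_alg [CharZero Ω] (s : GalSection K F Ω B) (ι : B →+* ℂ) (τ : B ≃ₐ[K] B)
    (hτ : ∀ z, ι (τ z) = (starRingEnd ℂ) (ι z)) (t : Inv Ω) (ht : ∀ x, t.T x = s.s τ x)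
    (b : B) (x : t.fx) (hx : (x : Ω) = s.j b) (r : ℝ) (hr : ι b = r) :
    0 ≤ mk x ∧ stdPart x = r := by
  have hB1 : IsAlgClosed B := IsAlgClosure.isAlgClosed K
  -- nonnegative elements
  have key : ∀ (b : B) (x : t.fx) (r : ℝ), (x : Ω) = s.j b → ι b = r → 0 ≤ r → 0 ≤ x := by
    intro b x r hx hr h0
    rw [t.nonneg_iff]
    obtain ⟨w, hw⟩ := IsAlgClosed.exists_pow_nat_eq b two_pos
    have h1 : (ι w) ^ 2 = ((Real.sqrt r : ℝ) : ℂ) ^ 2 := by
      rw [← map_pow, hw, hr, ← Complex.ofReal_pow, Real.sq_sqrt h0]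
    have h2 : (starRingEnd ℂ) (ι w) = ι w := by
      rcases sq_eq_sq_iff_eq_or_eq_neg.1 h1 with h | h
      · rw [h, Complex.conj_ofReal]
      · rw [h, map_neg, Complex.conj_ofReal]
    have h3 : τ w = w := by
      apply ι.injective
      rw [hτ, h2]
    refine ⟨⟨s.j w, ?_⟩, Subtype.ext ?_⟩
    · rw [t.mem, ht, s.sec, h3]
    · change (x : Ω) = s.j w * s.j w
      rw [hx, ← hw, map_pow, pow_two]
  have hq : ∀ q : ℚ, (q : ℝ) ≤ r → (q : t.fx) ≤ x := by
    intro q hq
    rw [← sub_nonneg]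
    refine key (b - q) (x - q) (r - q) ?_ ?_ (sub_nonneg.2 hq)
    · rw [map_sub, map_ratCast, ← hx]
      change (x : Ω) - ((q : t.fx) : Ω) = _
      rw [SubfieldClass.coe_ratCast]
    · rw [map_sub, map_ratCast, hr]
      push_cast
      rfl
  have hq' : ∀ q : ℚ, r ≤ (q : ℝ) → x ≤ (q : t.fx) := by
    intro q hq
    rw [← sub_nonneg]
    refine key (q - b) (q - x) (q - r) ?_ ?_ (sub_nonneg.2 hq)
    · rw [map_sub, map_ratCast, ← hx]
      change ((q : t.fx) : Ω) - (x : Ω) = _
      rw [SubfieldClass.coe_ratCast]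
    · rw [map_sub, map_ratCast, hr]
      push_cast
      rfl
  have hm : 0 ≤ mk x := by
    obtain ⟨n, hn⟩ := exists_nat_gt |r|
    have h1 : |x| ≤ |((n : ℕ) : t.fx)| := by
      rw [Nat.abs_cast, abs_le]
      constructor
      · have h2 := hq (-(n : ℚ)) (by
          push_cast
          linarith [neg_abs_le r])
        push_cast at h2
        exact h2
      · have h2 := hq' (n : ℚ) (by
          push_cast
          linarith [le_abs_self r])
        push_cast at h2
        exact h2
    exact (mk_natCast_nonneg n).trans (mk_le_mk_of_abs h1)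
  refine ⟨hm, le_antisymm ?_ ?_⟩
  · by_contra h
    push Not at h
    obtain ⟨q, h1, h2⟩ := exists_rat_btwn h
    have h3 := stdPart_monotoneOn (K := t.fx) hm (mk_ratCast_nonneg q) (hq' q h1.le)
    rw [stdPart_ratCast] at h3
    linarith
  · by_contra h
    push Not at h
    obtain ⟨q, h1, h2⟩ := exists_rat_btwn h
    have h3 := stdPart_monotoneOn (K := t.fx) (mk_ratCast_nonneg q) hm (hq q h2.le)
    rw [stdPart_ratCast] at h3
    linarith

/-- **Real points.** Every birational section is given by a point over each real completion. -/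
theorem exists_real_point (s : GalSection K F Ω B) {v : InfinitePlace K} (hv : v.IsReal) :
    ∃ pl : Plc K Ω (AlgebraicClosure v.Completion), Cmp (L := v.Completion) s pl := by
  have hcΩ : CharZero Ω := charZero_of_injective_algebraMap (algebraMap K Ω).injective
  have hB1 : IsAlgClosed B := IsAlgClosure.isAlgClosed K
  have hB2 : Algebra.IsAlgebraic K B := IsAlgClosure.isAlgebraic
  obtain ⟨θ, σ, hθ, hσ⟩ := exists_theta v hv
  let ι₀ : B →ₐ[K] AlgebraicClosure v.Completion := IsAlgClosed.lift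
  obtain ⟨τ, hτ₀⟩ := exists_res ι₀ σ
  set ι : B →+* ℂ := θ.comp (ι₀ : B →+* AlgebraicClosure v.Completion) with hι
  have hτ : ∀ z, ι (τ z) = (starRingEnd ℂ) (ι z) := by
    intro z
    change θ (ι₀ (τ z)) = _
    rw [hτ₀, hσ]
    rfl
  obtain ⟨t, ht, i, hti, hi⟩ := exists_inv s ι τ hτ
  -- the values of algebraic elements
  have hval : ∀ b : B, ∃ h : s.j b ∈ wRing t.crd, wPlace t.crd ⟨s.j b, h⟩ = ι b := by
    intro b
    have hi0 : i ≠ 0 := by
      rintro rfl
      rw [map_zero] at hi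
      exact Complex.I_ne_zero hi.symm
    have e1 : ((t.crd.re (s.j b) : t.fx) : Ω) = s.j ((b + τ b) / 2) := by
      change (s.j b + t.T (s.j b)) / 2 = _
      rw [ht, s.sec, map_div₀, map_add, map_ofNat]
    have e2 : ((t.crd.im (s.j b) : t.fx) : Ω) = s.j ((b - τ b) / (2 * i)) := by
      change (s.j b - t.T (s.j b)) / (2 * t.I) = _
      rw [ht, s.sec, hti, map_div₀, map_sub, map_mul, map_ofNat]
    obtain ⟨h1, h2⟩ := std_alg s ι τ hτ t ht _ _ e1 (ι b).re (by
      rw [map_div₀, map_add, hτ, map_ofNat, Complex.add_conj]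
      push_cast
      field_simp)
    obtain ⟨h3, h4⟩ := std_alg s ι τ hτ t ht _ _ e2 (ι b).im (by
      rw [map_div₀, map_sub, hτ, map_mul, map_ofNat, hi, Complex.sub_conj]
      push_cast
      field_simp)
    refine ⟨⟨h1, h3⟩, ?_⟩
    change (stdPart (t.crd.re (s.j b)) : ℂ) + (stdPart (t.crd.im (s.j b)) : ℂ) * Complex.I = ι b
    rw [h2, h4, Complex.re_add_im]
  let e : AlgebraicClosure v.Completion ≃+* ℂ :=
    RingEquiv.ofBijective θ ⟨θ.injective, theta_surj hv θ hθ⟩
  have he : ∀ c, e c = θ c := fun _ => rfl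
  let pl : Plc K Ω (AlgebraicClosure v.Completion) :=
    { W := wRing t.crd
      ρ := (e.symm : ℂ →+* AlgebraicClosure v.Completion).comp (wPlace t.crd)
      loc := by
        intro x hx
        refine wPlace_loc t.crd x fun h => hx ?_
        change e.symm (wPlace t.crd x) = 0
        rw [h, map_zero]
      comm := by
        intro c
        obtain ⟨h1, h2⟩ := hval (algebraMap K B c)
        have e1 : s.j (algebraMap K B c) = algebraMap K Ω c := s.j.commutes c
        refine ⟨by rw [← e1]; exact h1, ?_⟩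
        change e.symm (wPlace t.crd ⟨algebraMap K Ω c, _⟩) = _
        rw [RingEquiv.symm_apply_eq, he]
        have e2 : (⟨algebraMap K Ω c, by rw [← e1]; exact h1⟩ : wRing t.crd) =
          ⟨s.j (algebraMap K B c), h1⟩ := Subtype.ext e1.symm
        rw [e2, h2]
        change θ (ι₀ (algebraMap K B c)) = _
        rw [ι₀.commutes] }
  have hpl : ∀ x c, pl.val x c ↔ ∃ h : x ∈ wRing t.crd, wPlace t.crd ⟨x, h⟩ = θ c := by
    intro x c
    constructor
    · rintro ⟨h1, h2⟩
      refine ⟨h1, ?_⟩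
      have h3 : e.symm (wPlace t.crd ⟨x, h1⟩) = c := h2
      rw [← h3, ← he, RingEquiv.apply_symm_apply]
    · rintro ⟨h1, h2⟩
      refine ⟨h1, ?_⟩
      change e.symm (wPlace t.crd ⟨x, h1⟩) = c
      rw [h2, ← he, RingEquiv.symm_apply_apply]
  have hj : ∀ b c, pl.val (s.j b) c ↔ ι b = θ c := by
    intro b c
    rw [hpl]
    obtain ⟨h1, h2⟩ := hval b
    constructor
    · rintro ⟨h3, h4⟩
      rw [← h2, ← h4]
    · intro h3
      exact ⟨h1, by rw [h2, h3]⟩
  have hι2 : ∀ b, ι b = θ (ι₀ b) := fun _ => rfl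
  refine ⟨pl, fun σ' g hg x c hx => ?_⟩
  rcases theta_aut hv θ hθ σ' with h | h
  · have hg1 : g = 1 := by
      ext z
      apply ι.injective
      have h1 := (hj _ _).1 (hg z (ι₀ z) ((hj z _).2 (hι2 z)))
      rw [h1, h, ← hι2]
      rfl
    rw [hg1, map_one]
    have h2 : σ' c = c := θ.injective (h c)
    rw [h2]
    exact hx
  · have hg1 : g = τ := by
      ext z
      apply ι.injective
      have h1 := (hj _ _).1 (hg z (ι₀ z) ((hj z _).2 (hι2 z)))
      rw [h1, h, ← hι2, hτ]
    rw [hg1, hpl]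
    obtain ⟨⟨h1, h2⟩, h3⟩ := (hpl x c).1 hx
    have e1 := t.re_T x
    have e2 := t.im_T x
    rw [ht] at e1 e2
    have h3' : (stdPart (t.crd.re x) : ℂ) + (stdPart (t.crd.im x) : ℂ) * Complex.I = θ c := h3
    refine ⟨⟨?_, ?_⟩, ?_⟩
    · rw [e1]
      exact h1
    · rw [e2, mk_neg]
      exact h2
    · change (stdPart (t.crd.re (s.s τ x)) : ℂ) + (stdPart (t.crd.im (s.s τ x)) : ℂ) * Complex.I
        = θ (σ' c)
      rw [h, ← h3', e1, e2, stdPart_neg, map_add, map_mul, Complex.conj_ofReal,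
        Complex.conj_ofReal, Complex.conj_I]
      push_cast
      ring

end point

end Pool.Agent.H886.SB
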