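import Pool.Agent.H886.SB.Bir
import Pool.Agent.H886.SB.RealEx
import Pool.Graph.R_pool_sql_team_seeded_63374d34.N890.KO.All

/-!
# Birational sections: existence of the local points
-/

set_option autoImplicit false
set_option linter.unusedSectionVars false

open IsDedekindDomain NumberField

namespace Pool.Agent.H886.SB

open Pool.Agent.TH942 Pool.Agent.TH954
open Pool.Agent.Q33.BSec Pool.Agent.H886.Exp

section val

variable {K F M B : Type} [Field K] [Field F] [Field M] [Field B] [Algebra K F] [Algebra F M]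
  [Algebra K M] [Algebra K B] [IsScalarTower K F M] [IsAlgClosure K B]

/-- the values at compatible places are rational -/
lemma val_rational (s : GalSection K F M B) {L : Type} [Field L] [CharZero L] [Algebra K L]
    (pl : Plc K M (AlgebraicClosure L)) (hpl : Cmp (L := L) s pl) {f : F}
    (hf : algebraMap F M f ∈ pl.W) :
    ∃ x : L, pl.val (algebraMap F M f) (algebraMap L (AlgebraicClosure L) x) := by
  have hB2 : Algebra.IsAlgebraic K B := IsAlgClosure.isAlgebraic
  obtain ⟨c, hc⟩ := Plc.val_of_mem hf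
  have h1 : c ∈ Set.range (algebraMap L (AlgebraicClosure L)) := by
    rw [InfiniteGalois.mem_range_algebraMap_iff_fixed]
    intro σ
    obtain ⟨τ, hτ⟩ := exists_res (pl.iot s.j) σ
    have h2 := hpl σ τ (fun z c' hc' => by
      have e1 : pl.val (s.j z) (pl.iot s.j z) := pl.iot_spec s.j z
      have e2 : pl.val (s.j (τ z)) (pl.iot s.j (τ z)) := pl.iot_spec s.j (τ z)
      rw [← e1.unique hc', ← hτ]
      exact e2) _ c hc
    rw [AlgEquiv.commutes] at h2
    exact h2.unique hc
  obtain ⟨x, rfl⟩ := h1
  exact ⟨x, hc⟩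

end val

section ex

variable {K : Type} [Field K] [NumberField K] {F Ω B : Type} [Field F] [Field Ω] [Field B]
  [Algebra K F] [Algebra F Ω] [Algebra K Ω] [Algebra K B] [IsScalarTower K F Ω]
  [IsAlgClosure F Ω] [IsAlgClosure K B]

/-- **Koenigsmann's theorem.** -/
theorem exists_fin_point (s : GalSection K F Ω B) (v : HeightOneSpectrum (𝓞 K)) :
    ∃ pl : Plc K Ω (AlgebraicClosure (v.adicCompletion K)),
      Cmp (L := v.adicCompletion K) s pl :=
  Pool.Agent.N890.KO.koenigsmann K v K F Ω B s

/-- all local points -/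
theorem all_points (s : GalSection K F Ω B) (f : F)
    (h1 : ∀ (v : HeightOneSpectrum (𝓞 K)) (P : Plc K Ω (AlgebraicClosure (v.adicCompletion K))),
      Cmp (L := v.adicCompletion K) s P → algebraMap F Ω f ∈ P.W)
    (H : ∀ (pl : ∀ v : HeightOneSpectrum (𝓞 K), Plc K Ω (AlgebraicClosure (v.adicCompletion K)))
      (_ : ∀ v : HeightOneSpectrum (𝓞 K), Cmp (L := v.adicCompletion K) s (pl v))
      (X : ∀ v : HeightOneSpectrum (𝓞 K), v.adicCompletion K)
      (_ : ∀ v, (pl v).val (algebraMap F Ω f) (algebraMap _ _ (X v))),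
      ∃ ξ : K, (∀ v, X v = algebraMap K (v.adicCompletion K) ξ) ∧
        ∃ O : ValuationSubring F, s.ArisesFrom O ∧ O.valuation (f - algebraMap K F ξ) < 1 ∧
          ∀ O' : ValuationSubring F, s.ArisesFrom O' → O' = O) :
    ∃ ξ : K, (∀ (v : HeightOneSpectrum (𝓞 K))
        (P : Plc K Ω (AlgebraicClosure (v.adicCompletion K))),
        Cmp (L := v.adicCompletion K) s P →
        P.val (algebraMap F Ω f) (algebraMap (v.adicCompletion K) _ (algebraMap K _ ξ))) ∧
      ∃ O : ValuationSubring F, O.valuation (f - algebraMap K F ξ) < 1 ∧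
        ∀ O' : ValuationSubring F, s.ArisesFrom O' ↔ O' = O := by
  classical
  have hcv : ∀ v : HeightOneSpectrum (𝓞 K), CharZero (v.adicCompletion K) := fun v =>
    charZero_of_injective_algebraMap (algebraMap K (v.adicCompletion K)).injective
  have key : ∀ (pl : ∀ v : HeightOneSpectrum (𝓞 K), Plc K Ω (AlgebraicClosure
      (v.adicCompletion K)))
      (_ : ∀ v : HeightOneSpectrum (𝓞 K), Cmp (L := v.adicCompletion K) s (pl v)),
      ∃ ξ : K, (∀ v, (pl v).val (algebraMap F Ω f) (algebraMap (v.adicCompletion K) _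
        (algebraMap K _ ξ))) ∧
        ∃ O : ValuationSubring F, s.ArisesFrom O ∧ O.valuation (f - algebraMap K F ξ) < 1 ∧
          ∀ O' : ValuationSubring F, s.ArisesFrom O' → O' = O := by
    intro pl hpl
    choose X hX using fun v => val_rational s (pl v) (hpl v) (h1 v (pl v) (hpl v))
    obtain ⟨ξ, hξ, hO⟩ := H pl hpl X hX
    refine ⟨ξ, fun v => ?_, hO⟩
    rw [← hξ v]
    exact hX v
  choose pl hpl using fun v => exists_fin_point s v
  obtain ⟨ξ, hξ, O, hO1, hO2, hO3⟩ := key pl hpl
  refine ⟨ξ, fun v0 P hP => ?_, O, hO2, fun O' => ⟨hO3 O', ?_⟩⟩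
  · obtain ⟨ξ', hξ', O', hO1', hO2', hO3'⟩ := key (Function.update pl v0 P) (by
      intro v
      by_cases hv : v = v0
      · subst hv
        rw [Function.update_self]
        exact hP
      · rw [Function.update_of_ne hv]
        exact hpl v)
    have h2 := hξ' v0
    rw [Function.update_self] at h2
    have h3 : O' = O := hO3 O' hO1'
    subst h3
    have h4 : ξ = ξ' := by
      by_contra hne
      have h5 : algebraMap K F (ξ - ξ') = (f - algebraMap K F ξ') - (f - algebraMap K F ξ) := by
        rw [map_sub]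
        ring
      have h6 : O'.valuation (algebraMap K F (ξ - ξ')) < 1 := by
        rw [h5]
        exact lt_of_le_of_lt (Valuation.map_sub _ _ _) (max_lt hO2' hO2)
      have h7 : algebraMap K F (ξ - ξ')⁻¹ ∈ O' := hO1.2.1 _
      have h8 : O'.valuation (algebraMap K F (ξ - ξ')⁻¹) ≤ 1 :=
        (O'.valuation_le_one_iff _).2 h7
      have h9 : O'.valuation (algebraMap K F (ξ - ξ')) * O'.valuation
          (algebraMap K F (ξ - ξ')⁻¹) = 1 := by
        rw [← map_mul, ← map_mul, mul_inv_cancel₀ (sub_ne_zero.2 hne), map_one, map_one]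
      have h10 := mul_lt_one_of_lt_of_le h6 h8
      exact h10.ne h9
    rw [h4]
    exact h2
  · rintro rfl
    exact hO1

end ex

end Pool.Agent.H886.SB
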