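import Pool.Agent.H886.SB.Ex
import Pool.Agent.H886.Exp.TwoGen

/-!
# Birational sections over number fields with at most two archimedean places
-/

set_option autoImplicit false
set_option linter.unusedSectionVars false

open IsDedekindDomain NumberField

namespace Pool.Agent.H886.SB

open Pool.Agent.TH942 Pool.Agent.TH954
open Pool.Agent.Q33.BSec Pool.Agent.H886.Exp

section ex

variable {K : Type} [Field K] [NumberField K] {F Ω B : Type} [Field F] [Field Ω] [Field B]
  [Algebra K F] [Algebra F Ω] [Algebra K Ω] [Algebra K B] [IsScalarTower K F Ω]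
  [IsAlgClosure F Ω] [IsAlgClosure K B]

/-- all local points -/
theorem all_points_n {ι : Type} (s : GalSection K F Ω B) (f : ι → F)
    (h1 : ∀ (i : ι) (v : HeightOneSpectrum (𝓞 K))
      (P : Plc K Ω (AlgebraicClosure (v.adicCompletion K))),
      Cmp (L := v.adicCompletion K) s P → algebraMap F Ω (f i) ∈ P.W)
    (H : ∀ (pl : ∀ v : HeightOneSpectrum (𝓞 K), Plc K Ω (AlgebraicClosure (v.adicCompletion K)))
      (_ : ∀ v : HeightOneSpectrum (𝓞 K), Cmp (L := v.adicCompletion K) s (pl v))
      (X : ∀ v : HeightOneSpectrum (𝓞 K), ι → v.adicCompletion K)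
      (_ : ∀ v i, (pl v).val (algebraMap F Ω (f i)) (algebraMap _ _ (X v i))),
      ∃ ξ : ι → K, (∀ v i, X v i = algebraMap K (v.adicCompletion K) (ξ i)) ∧
        ∃ O : ValuationSubring F, s.ArisesFrom O ∧
          (∀ i, O.valuation (f i - algebraMap K F (ξ i)) < 1) ∧
          ∀ O' : ValuationSubring F, s.ArisesFrom O' → O' = O) :
    ∃ ξ : ι → K, (∀ (i : ι) (v : HeightOneSpectrum (𝓞 K))
        (P : Plc K Ω (AlgebraicClosure (v.adicCompletion K))),
        Cmp (L := v.adicCompletion K) s P →
        P.val (algebraMap F Ω (f i)) (algebraMap (v.adicCompletion K) _ (algebraMap K _ (ξ i)))) ∧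
      ∃ O : ValuationSubring F, (∀ i, O.valuation (f i - algebraMap K F (ξ i)) < 1) ∧
        ∀ O' : ValuationSubring F, s.ArisesFrom O' ↔ O' = O := by
  classical
  have hcv : ∀ v : HeightOneSpectrum (𝓞 K), CharZero (v.adicCompletion K) := fun v =>
    charZero_of_injective_algebraMap (algebraMap K (v.adicCompletion K)).injective
  have key : ∀ (pl : ∀ v : HeightOneSpectrum (𝓞 K), Plc K Ω (AlgebraicClosure
      (v.adicCompletion K)))
      (_ : ∀ v : HeightOneSpectrum (𝓞 K), Cmp (L := v.adicCompletion K) s (pl v)),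
      ∃ ξ : ι → K, (∀ v i, (pl v).val (algebraMap F Ω (f i)) (algebraMap (v.adicCompletion K) _
        (algebraMap K _ (ξ i)))) ∧
        ∃ O : ValuationSubring F, s.ArisesFrom O ∧
          (∀ i, O.valuation (f i - algebraMap K F (ξ i)) < 1) ∧
          ∀ O' : ValuationSubring F, s.ArisesFrom O' → O' = O := by
    intro pl hpl
    choose X hX using fun v i => val_rational s (pl v) (hpl v) (h1 i v (pl v) (hpl v))
    obtain ⟨ξ, hξ, hO⟩ := H pl hpl X hX
    refine ⟨ξ, fun v i => ?_, hO⟩
    rw [← hξ v]
    exact hX v i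
  choose pl hpl using fun v => exists_fin_point s v
  obtain ⟨ξ, hξ, O, hO1, hO2, hO3⟩ := key pl hpl
  refine ⟨ξ, fun i v0 P hP => ?_, O, hO2, fun O' => ⟨hO3 O', ?_⟩⟩
  · obtain ⟨ξ', hξ', O', hO1', hO2', hO3'⟩ := key (Function.update pl v0 P) (by
      intro v
      by_cases hv : v = v0
      · subst hv
        rw [Function.update_self]
        exact hP
      · rw [Function.update_of_ne hv]
        exact hpl v)
    have h2 := hξ' v0 i
    rw [Function.update_self] at h2
    have h3 : O' = O := hO3 O' hO1'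
    subst h3
    have h4 : ξ i = ξ' i := by
      by_contra hne
      have h5 : algebraMap K F (ξ i - ξ' i) =
          (f i - algebraMap K F (ξ' i)) - (f i - algebraMap K F (ξ i)) := by
        rw [map_sub]
        ring
      have h6 : O'.valuation (algebraMap K F (ξ i - ξ' i)) < 1 := by
        rw [h5]
        exact lt_of_le_of_lt (Valuation.map_sub _ _ _) (max_lt (hO2' i) (hO2 i))
      have h7 : algebraMap K F (ξ i - ξ' i)⁻¹ ∈ O' := hO1.2.1 _
      have h8 : O'.valuation (algebraMap K F (ξ i - ξ' i)⁻¹) ≤ 1 :=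
        (O'.valuation_le_one_iff _).2 h7
      have h9 : O'.valuation (algebraMap K F (ξ i - ξ' i)) * O'.valuation
          (algebraMap K F (ξ i - ξ' i)⁻¹) = 1 := by
        rw [← map_mul, ← map_mul, mul_inv_cancel₀ (sub_ne_zero.2 hne), map_one, map_one]
      have h10 := mul_lt_one_of_lt_of_le h6 h8
      exact h10.ne h9
    rw [h4]
    exact h2
  · rintro rfl
    exact hO1

end ex

end Pool.Agent.H886.SB
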