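import Pool.Agent.H886.SB.Loc

/-!
# Units on coverings: the main theorem
-/

set_option autoImplicit false
set_option linter.unusedSectionVars false

open IsDedekindDomain NumberField

namespace Pool.Agent.H886.SB

open Pool.Agent.TH942 Pool.Agent.TH954 Pool.Agent.TH841.NF Pool.Agent.W518.TC
open Pool.Agent.Q33.SecL (GalSec Pt Dat)
open Pool.Agent.Q33.BSec Pool.Agent.H886.Exp
open Pool.Agent.W620.SC (root_mem mem_of_fixed)

section conj

variable {K F M B : Type} [Field K] [NumberField K] [Field F] [Field M] [Field B] [Algebra F M]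
  [Algebra K M] [Algebra K B] [IsAlgClosed B] [Algebra.IsAlgebraic K B]
  [Algebra.IsAlgebraic F M] {s : GalSec K F M B} {E : IntermediateField K B}
    {P : ∀ (p : ℕ) [Fact p.Prime] (φ : K →+* PadicAlgCl p), Pt K M φ}

/-- the values at the conjugate points -/
lemma HasVal.conjE {y : M} {c : E}
    {Y : ∀ (p : ℕ) [Fact p.Prime], (E →+* PadicAlgCl p) → PadicAlgCl p} (h : HasVal s E P y Y)
    (τ : B ≃ₐ[K] B) (ρ : E →+* E) (hρ : ∀ z : E, (ρ z : B) = τ z)
    (hρK : ∀ c : K, ρ (algebraMap K E c) = algebraMap K E c)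
    (hyy : y * s.s τ y = s.j (c : B)) {p : ℕ} [Fact p.Prime]
    (Φ : E →+* PadicAlgCl p) : Y p Φ * Y p (Φ.comp ρ) = Φ c := by
  obtain ⟨g0, hg0⟩ := exists_adm s E (P p (Φ.comp (algebraMap K E))) Φ rfl
  have h1 := h p _ Φ rfl g0 hg0
  have h2 := h p (Φ.comp (algebraMap K E)) (Φ.comp ρ) (by
    ext c
    change Φ (ρ (algebraMap K E c)) = _
    rw [hρK]
    rfl) (g0 * τ) (hg0.comp τ ρ hρ)
  have h3 : s.s g0 y * s.s (g0 * τ) y = s.j (g0 (c : B)) := by
    rw [map_mul]
    change s.s g0 y * s.s g0 (s.s τ y) = _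
    rw [← map_mul, hyy, s.sec]
  have h4 := h1.mul h2
  rw [h3] at h4
  rw [← hg0 c]
  exact h4.unique ((P p (Φ.comp (algebraMap K E))).val_emb s.j _)

end conj

section main

variable {K : Type} [Field K] [NumberField K] {F M B : Type} [Field F] [Field M] [Field B]
  [Algebra K F] [Algebra F M] [Algebra.IsAlgebraic F M] [Algebra K M] [IsScalarTower K F M]
  [Algebra K B] [IsAlgClosure K B] {ι : Type}

/-- two multiplicatively independent elements -/
def TwoInd (K : Type) {M : Type} [Field K] [Field M] [Algebra K M] {ι : Type} (y : ι → M) : Prop :=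
  ∃ i j, ∀ a b : ℤ, (a ≠ 0 ∨ b ≠ 0) → Transcendental K (y i ^ a * y j ^ b)

/-- the rank of the group of (relative) units -/
def RankLe (s : GalSection K F M B) (E : IntermediateField K B) (y : ι → M) (r : ℕ) : Prop :=
  Nat.card (InfinitePlace E) ≤ r + 1 ∨
    ∃ (E₀ : IntermediateField K B) (τ : B ≃ₐ[K] B), E₀ ≤ E ∧ τ ∈ E₀.fixingSubgroup ∧
      (∀ z ∈ E, τ z ∈ E) ∧ (∀ i, ∃ c : B, y i * s.s τ (y i) = s.j c) ∧
      Nat.card (InfinitePlace E) ≤ Nat.card (InfinitePlace E₀) + r

variable {R : Subring F} {s : GalSection K F M B}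
    {pl : ∀ v : HeightOneSpectrum (𝓞 K), Plc K M (AlgebraicClosure (v.adicCompletion K))}

lemma mem_fix_conj {E : IntermediateField K B} {τ : B ≃ₐ[K] B} (hτ : ∀ z ∈ E, τ z ∈ E)
    {σ : B ≃ₐ[K] B} (hσ : σ ∈ E.fixingSubgroup) : τ⁻¹ * σ * τ ∈ E.fixingSubgroup := by
  rw [IntermediateField.mem_fixingSubgroup_iff]
  intro z hz
  change τ.symm (σ (τ z)) = z
  rw [AlgEquiv.symm_apply_eq]
  exact (IntermediateField.mem_fixingSubgroup_iff _ _).1 hσ _ (hτ z hz)

/-- **Units on coverings have global values.** -/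
theorem uni_main [Fintype ι] (h : AdPt R s pl)
    (hF : ∃ t : F, Transcendental K t ∧ Algebra.IsAlgebraic (IntermediateField.adjoin K {t}) F)
    (E : IntermediateField K B) [FiniteDimensional K E] (y : ι → M) (hy0 : ∀ i, y i ≠ 0)
    (hy : ∀ i, IntOver R (y i)) (hy' : ∀ i, IntOver R (y i)⁻¹)
    (hfx : ∀ i, ∀ σ ∈ E.fixingSubgroup, s.s σ (y i) = y i)
    (hroot : ∀ i, ∀ N : ℕ, 0 < N → ∃ w : M, w ≠ 0 ∧ w ^ N = y i) (r : ℕ)
    (hr : RankLe s E y r) (h01 : r = 0 ∨ (r = 1 ∧ TwoInd K y)) :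
    ∃ η : ι → E, (∀ i, η i ≠ 0) ∧
      (∀ v (g : B ≃ₐ[K] B) i, (pl v).val (s.s g (y i) - s.j (g (η i : B))) 0) ∧
      ∀ i (N : ℕ), 0 < N → ∃ w : M, w ^ N = y i / s.j (η i : B) ∧
        ∀ g ∈ E.fixingSubgroup, s.s g w = w := by
  classical
  have hB1 : IsAlgClosed B := IsAlgClosure.isAlgClosed K
  have hB2 : Algebra.IsAlgebraic K B := IsAlgClosure.isAlgebraic
  have hNo : Normal K B := IsAlgClosure.normal K B
  have hG' : IsGalois K B := ⟨⟩
  have : NumberField E := NumberField.of_module_finite K E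
  choose Y hY hD using fun i => h.unit_dat E (y i) (hy0 i) (hy i) (hy' i) (hfx i) (hroot i)
  have key : ∃ η : ι → E, ∀ (p : ℕ) [Fact p.Prime] (Φ : E →+* PadicAlgCl p) (i : ι),
      Y i p Φ = Φ (η i) := by
    rcases hr with hr | ⟨E₀, τ, hle, hτ, hτE, hc, hr⟩
    · have hV : ∀ i (p : ℕ) [Fact p.Prime] (Φ : E →+* PadicAlgCl p), Y i p Φ ^ 1 =
          Φ (1 : E) * (Y i p Φ * (Y i p (Φ.comp (RingHom.id E))) ^ (0 : ℤ)) := by
        intro i p _ Φ
        rw [map_one, one_mul, zpow_zero, mul_one, pow_one]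
      rw [Nat.card_eq_fintype_card] at hr
      rcases h01 with rfl | ⟨rfl, hind⟩
      · obtain ⟨W, hW, hU⟩ := units_zero (RingHom.id E) hr
        exact uni_core (toSec s) E y hy0 _ Y hY hD (RingHom.id E) 0 (fun _ => 1)
          (fun _ => one_ne_zero) one_pos hV isIntegral_one
          (by rw [inv_one]; exact isIntegral_one) one_ne_zero W hW hU hF (Or.inl rfl)
      · obtain ⟨ε, hi, hi', hε0, W, hW, hU⟩ := exists_eps hr
        exact uni_core (toSec s) E y hy0 _ Y hY hD (RingHom.id E) 0 (fun _ => 1)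
          (fun _ => one_ne_zero) one_pos hV hi hi' hε0 W hW (fun η h1 h2 => by
            obtain ⟨ζ, hζ, n, hn⟩ := hU η h1 h2
            exact ⟨ζ, hζ, n, by rw [zpow_zero, mul_one, hn]⟩) hF (Or.inr hind)
    · -- the relative case
      have hE₀ : FiniteDimensional K E₀ :=
        Module.Finite.of_injective (IntermediateField.inclusion hle).toLinearMap
          (IntermediateField.inclusion hle).injective
      have : NumberField E₀ := NumberField.of_module_finite K E₀
      let algE : Algebra E₀ E := (IntermediateField.inclusion hle).toRingHom.toAlgebra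
      rw [Nat.card_eq_fintype_card, Nat.card_eq_fintype_card] at hr
      set ρ := rho E τ hτE with hρ
      have hρ0 : ∀ c : E₀, ρ (algebraMap E₀ E c) = algebraMap E₀ E c := by
        intro c
        apply Subtype.ext
        rw [hρ, rho_coe]
        exact (IntermediateField.mem_fixingSubgroup_iff _ _).1 hτ _ c.2
      -- the constants are in `E`
      have hc' : ∀ i, ∃ c : E, y i * s.s τ (y i) = s.j (c : B) := by
        intro i
        obtain ⟨c, hc⟩ := hc i
        refine ⟨⟨c, ?_⟩, hc⟩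
        apply mem_of_fixed
        intro σ hσ
        have h1 : s.s σ (s.s τ (y i)) = s.s τ (y i) := by
          have h2 := hfx i _ (mem_fix_conj hτE hσ)
          have h3 : σ * τ = τ * (τ⁻¹ * σ * τ) := by group
          have h4 : s.s (σ * τ) (y i) = s.s σ (s.s τ (y i)) := by
            rw [map_mul]
            rfl
          rw [← h4, h3, map_mul]
          change s.s τ (s.s (τ⁻¹ * σ * τ) (y i)) = _
          rw [h2]
        have h2 := congrArg (s.s σ) hc
        rw [map_mul, hfx i σ hσ, h1, hc, s.sec] at h2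
        exact (s.j.toRingHom.injective h2).symm
      choose c hc using hc'
      have hrel : ∀ i (p : ℕ) [Fact p.Prime] (Φ : E →+* PadicAlgCl p),
          Y i p Φ * Y i p (Φ.comp ρ) = Φ (c i) := fun i p _ Φ =>
        (hY i).conjE τ ρ (fun _ => rfl) (fun c => rho_alg τ _ c) (hc i) Φ
      have hc0 : ∀ i, c i ≠ 0 := by
        intro i h0
        have h1 := hc i
        rw [h0] at h1
        have h2 : s.j ((0 : E) : B) = 0 := map_zero s.j
        rw [h2] at h1
        exact mul_ne_zero (hy0 i) ((map_ne_zero _).2 (hy0 i)) h1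
      have hV : ∀ i (p : ℕ) [Fact p.Prime] (Φ : E →+* PadicAlgCl p), Y i p Φ ^ 2 =
          Φ (c i) * (Y i p Φ * (Y i p (Φ.comp ρ)) ^ (-1 : ℤ)) := by
        intro i p _ Φ
        have h3 := (hD i).ne p (Φ.comp ρ)
        rw [RingHom.comp_id, map_zero, sub_zero] at h3
        rw [← hrel i p Φ, zpow_neg_one]
        field_simp
      rcases h01 with rfl | ⟨rfl, hind⟩
      · obtain ⟨W, hW, hU⟩ := rel_units_zero (K := E₀) ρ hρ0 hr
        exact uni_core (toSec s) E y hy0 _ Y hY hD ρ (-1) c hc0 two_pos hV isIntegral_one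
          (by rw [inv_one]; exact isIntegral_one) one_ne_zero W hW hU hF (Or.inl rfl)
      · obtain ⟨ε, hi, hi', hε0, W, hW, hU⟩ := rel_units (K := E₀) ρ hρ0 hr
        exact uni_core (toSec s) E y hy0 _ Y hY hD ρ (-1) c hc0 two_pos hV hi hi' hε0 W hW hU hF
          (Or.inr hind)
  obtain ⟨η, hη⟩ := key
  have hη0 : ∀ i, η i ≠ 0 := by
    intro i h0
    obtain ⟨Φ⟩ : Nonempty (E →+* PadicAlgCl 2) := inferInstance
    have h3 := (hD i).ne 2 Φ
    rw [RingHom.comp_id, map_zero, sub_zero, hη, h0, map_zero] at h3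
    exact h3 rfl
  refine ⟨η, hη0, ?_, ?_⟩
  · intro v g i
    obtain ⟨p, hp, φ, rfl⟩ := exists_pls v
    set P := toPt φ (pl (pls φ)) with hP
    let Φ : E →+* PadicAlgCl p :=
      ((P.emb s.j : B →+* PadicAlgCl p).comp (g : B →+* B)).comp (algebraMap E B)
    have hΦ : Φ.comp (algebraMap K E) = φ := by
      ext c
      change P.emb s.j (g (algebraMap K B c)) = φ c
      rw [g.commutes, P.emb_alg]
    have h1 := hY i p φ Φ hΦ g (fun z => rfl)
    have h2 : P.Val (s.j (g (η i : B))) (Φ (η i)) := P.val_emb s.j _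
    rw [hη] at h1
    have h3 := Pt.Val.sub h1 h2
    rw [sub_self] at h3
    obtain ⟨c, hc, hc'⟩ := toPt_val' h3
    have h4 : c = 0 := (bx φ).injective (by rw [hc', map_zero])
    rw [h4] at hc
    exact hc
  · intro i N hN
    exact abelian_gen (toSec s) E (y i) (hfx i) (hroot i) _
      (fun p _ φ => givenBy_of_cmp s φ _ (h.cmp _)) (hY i) (η i) (hη0 i)
      (fun p _ Φ => hη p Φ i) N hN

end main

end Pool.Agent.H886.SB
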