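import Pool.Agent.H886.Exp.Two

/-!
# Kummer classes of units on coverings
-/

set_option autoImplicit false
set_option linter.unusedSectionVars false

namespace Pool.Agent.H886.SB

open NumberField IntermediateField Pool.Agent.Q33.SecL
open Pool.Agent.W620.SC (exists_fixed_multiple root_mem mem_of_fixed)

section kummer

variable {K F M B : Type} [Field K] [CharZero K] [Field F] [Field M] [Field B] [Algebra F M]
  [Algebra K M] [Algebra K B] [IsAlgClosed B] [Algebra.IsAlgebraic K B]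
  [Algebra.IsAlgebraic F M]

/-- **Kummer classes** of elements fixed by the section over the field `E`. -/
lemma kummer_gen (s : GalSec K F M B) (E : IntermediateField K B) (y : M)
    (hy : ∀ σ ∈ E.fixingSubgroup, s.s σ y = y) {N : ℕ} (hN : 0 < N) (w : M)
    (hw : w ^ N = y) (hw0 : w ≠ 0) :
    ∃ a : E, a ≠ 0 ∧ ∃ g : M, g ≠ 0 ∧ y = s.j a * g ^ N ∧
      ∀ σ ∈ E.fixingSubgroup, s.s σ g = g := by
  have hA : IsAlgClosure K B := ⟨inferInstance, inferInstance⟩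
  have hNo : Normal K B := IsAlgClosure.normal K B
  have hG : IsGalois K B := ⟨⟩
  let sr : (B ≃ₐ[K] B) →* RingAut M := (MulSemiringAction.toRingAut (M ≃ₐ[F] M) M).comp s.s
  have hfx : ∀ σ ∈ E.fixingSubgroup, s.s σ (w ^ N) = w ^ N := by
    intro σ hσ
    rw [hw, hy σ hσ]
  obtain ⟨E', hE', hEw⟩ := s.fixes w
  obtain ⟨β, hβ0, hβ⟩ := exists_fixed_multiple sr (s.j : B →+* M) (fun σ a => s.sec σ a)
    E.fixingSubgroup w hw0 (by
      intro σ hσ
      have h1 : (s.s σ w / w) ^ N = (s.j : B →+* M) 1 := by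
        rw [div_pow, ← map_pow, hfx σ hσ, map_one, div_self (pow_ne_zero _ hw0)]
      obtain ⟨ζ, hζ⟩ := root_mem (s.j : B →+* M) hN h1
      refine ⟨ζ, ?_⟩
      rw [hζ, div_mul_cancel₀ _ hw0]
      rfl) E' (fun σ hσ => hEw σ hσ)
  have hβ' : ∀ σ ∈ E.fixingSubgroup, s.s σ (s.j β * w) = s.j β * w := fun σ hσ => hβ σ hσ
  have hβK : β ^ N ∈ E := by
    apply mem_of_fixed
    intro σ hσ
    have h1 := hβ' σ hσ
    have h2 : s.s σ ((s.j β * w) ^ N) = (s.j β * w) ^ N := by rw [map_pow, h1]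
    rw [mul_pow, map_mul, hfx σ hσ] at h2
    have h3 := mul_right_cancel₀ (pow_ne_zero N hw0) h2
    rw [← map_pow, s.sec] at h3
    exact s.j.toRingHom.injective h3
  have hj0 : s.j β ≠ 0 := (map_ne_zero s.j).2 hβ0
  refine ⟨(⟨β ^ N, hβK⟩ : E)⁻¹, ?_, s.j β * w, mul_ne_zero hj0 hw0, ?_, hβ'⟩
  · rw [Ne, inv_eq_zero]
    intro h
    exact pow_ne_zero N hβ0 (congrArg Subtype.val h)
  · rw [← hw]
    change w ^ N = s.j ((β ^ N)⁻¹) * (s.j β * w) ^ N
    rw [map_inv₀, map_pow, mul_pow, ← mul_assoc, inv_mul_cancel₀ (pow_ne_zero N hj0), one_mul]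

/-- the automorphisms of `B` that turn the given point into one over the embedding `Φ` of `E` -/
def Adm (s : GalSec K F M B) (E : IntermediateField K B) {p : ℕ} [Fact p.Prime]
    {φ : K →+* PadicAlgCl p} (P : Pt K M φ) (Φ : E →+* PadicAlgCl p) (g0 : B ≃ₐ[K] B) : Prop :=
  ∀ z : E, P.emb s.j (g0 (z : B)) = Φ z

variable {s : GalSec K F M B} {E : IntermediateField K B} {p : ℕ} [Fact p.Prime]
    {φ : K →+* PadicAlgCl p} {P : Pt K M φ}

lemma exists_adm (s : GalSec K F M B) (E : IntermediateField K B) {p : ℕ} [Fact p.Prime]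
    {φ : K →+* PadicAlgCl p} (P : Pt K M φ) (Φ : E →+* PadicAlgCl p)
    (hΦ : Φ.comp (algebraMap K E) = φ) : ∃ g0, Adm s E P Φ g0 := by
  obtain ⟨κ', hκ'⟩ : ∃ κ' : B →+* PadicAlgCl p, ∀ z : E, κ' z = Φ z := by
    let alg1 : Algebra E (PadicAlgCl p) := Φ.toAlgebra
    have : Algebra.IsAlgebraic E B := Algebra.IsAlgebraic.tower_top (K := K) E
    let Ψ : B →ₐ[E] PadicAlgCl p := IsAlgClosed.lift
    exact ⟨Ψ, fun z => Ψ.commutes z⟩
  obtain ⟨g0, hg0⟩ := exists_compat (P.emb s.j) κ' (by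
    ext c
    change P.emb s.j (algebraMap K B c) = κ' (algebraMap K B c)
    rw [P.emb_alg, ← hΦ]
    exact (hκ' (algebraMap K E c)).symm)
  exact ⟨g0, fun z => by rw [hg0, hκ']⟩

/-- two such automorphisms differ by an automorphism fixing `E` -/
lemma Adm.diff {Φ : E →+* PadicAlgCl p} {g0 g1 : B ≃ₐ[K] B} (h0 : Adm s E P Φ g0)
    (h1 : Adm s E P Φ g1) : g0⁻¹ * g1 ∈ E.fixingSubgroup := by
  rw [IntermediateField.mem_fixingSubgroup_iff]
  intro z hz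
  change g0.symm (g1 z) = z
  rw [AlgEquiv.symm_apply_eq]
  apply (P.emb s.j).injective
  have e0 := h0 ⟨z, hz⟩
  have e1 := h1 ⟨z, hz⟩
  exact e1.trans e0.symm

lemma Adm.apply_eq {Φ : E →+* PadicAlgCl p} {g0 g1 : B ≃ₐ[K] B} (h0 : Adm s E P Φ g0)
    (h1 : Adm s E P Φ g1) {y : M} (hy : ∀ σ ∈ E.fixingSubgroup, s.s σ y = y) :
    s.s g1 y = s.s g0 y := by
  have h2 : g1 = g0 * (g0⁻¹ * g1) := by group
  rw [h2, map_mul]
  change s.s g0 (s.s (g0⁻¹ * g1) y) = s.s g0 y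
  rw [hy _ (h0.diff h1)]

/-- composition -/
lemma Adm.comp {Φ : E →+* PadicAlgCl p} {g0 : B ≃ₐ[K] B} (h0 : Adm s E P Φ g0) (τ : B ≃ₐ[K] B)
    (ρ : E →+* E) (hρ : ∀ z : E, (ρ z : B) = τ z) : Adm s E P (Φ.comp ρ) (g0 * τ) := by
  intro z
  change P.emb s.j (g0 (τ z)) = Φ (ρ z)
  rw [← hρ, h0]

/-- **Values of Kummer classes.** -/
lemma values_gen [NumberField E] {N : ℕ} (hN : 0 < N) (a : E) (ha : a ≠ 0) (y g : M)
    (hg : y = s.j a * g ^ N) (hfix : ∀ σ ∈ E.fixingSubgroup, s.s σ g = g)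
    {Φ : E →+* PadicAlgCl p} (hΦ : Φ.comp (algebraMap K E) = φ) (hP : s.GivenBy P)
    {g0 : B ≃ₐ[K] B} (h0 : Adm s E P Φ g0) {c : PadicAlgCl p} (hc : P.Val (s.s g0 y) c) :
    ∃ u ∈ LL Φ, c = Φ a * u ^ N := by
  set κ := P.emb s.j with hκ
  have hval : ∀ z : B, P.Val (s.j z) (κ z) := fun z => P.val_emb s.j z
  have h1 : s.s g0 y = s.j (g0 a) * (s.s g0 g) ^ N := by
    rw [hg, map_mul, map_pow, s.sec]
  set g' := s.s g0 g with hg'
  have ha0 : s.j (g0 a) ≠ 0 := by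
    rw [Ne, map_eq_zero, map_eq_zero]
    exact fun h => ha (Subtype.ext h)
  have hmem : g' ∈ P.W := by
    apply mem_of_pow_mem' P.W hN
    have h2 : g' ^ N = (s.s g0 y) * s.j ((g0 a)⁻¹) := by
      rw [h1, map_inv₀]
      field_simp
    rw [h2]
    exact mul_mem hc.1 (hval _).1
  obtain ⟨u, hu⟩ := P.val_of_mem hmem
  refine ⟨u, ?_, ?_⟩
  · apply mem_LL_of_fixed
    intro σ hσ
    obtain ⟨h, hh⟩ := exists_compat κ ((σ : PadicAlgCl p →+* PadicAlgCl p).comp κ) (by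
      ext c
      change κ (algebraMap K B c) = σ (κ (algebraMap K B c))
      rw [hκ, P.emb_alg, ← hΦ]
      exact (hσ _).symm)
    have h3 := hP σ h (fun c => by rw [← hΦ]; exact hσ _) (by
      intro z c hz
      rw [← (hval z).unique hz]
      have := hval (h z)
      rw [hh] at this
      exact this) g' u hu
    have h4 : s.s h g' = g' := by
      have h5 : g0⁻¹ * h * g0 ∈ E.fixingSubgroup := by
        rw [IntermediateField.mem_fixingSubgroup_iff]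
        intro z hz
        change g0.symm (h (g0 z)) = z
        rw [AlgEquiv.symm_apply_eq]
        apply κ.injective
        rw [hh]
        change σ (κ (g0 z)) = κ (g0 z)
        have e0 := h0 ⟨z, hz⟩
        change κ (g0 z) = _ at e0
        rw [e0, hσ]
      have h6 := hfix _ h5
      have h7 : h * g0 = g0 * (g0⁻¹ * h * g0) := by group
      rw [hg']
      change (s.s h * s.s g0) g = s.s g0 g
      rw [← map_mul, h7, map_mul]
      change s.s g0 (s.s (g0⁻¹ * h * g0) g) = s.s g0 g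
      rw [h6]
    rw [h4] at h3
    exact h3.unique hu
  · have h3 : P.Val (s.j (g0 a) * g' ^ N) (κ (g0 a) * u ^ N) := (hval _).mul (hu.pow N)
    rw [← h1] at h3
    rw [hc.unique h3]
    have e0 := h0 a
    change κ (g0 a) = _ at e0
    rw [e0]

end kummer

section value

variable {K F M B : Type} [Field K] [NumberField K] [Field F] [Field M] [Field B] [Algebra F M]
  [Algebra K M] [Algebra K B] [IsAlgClosed B] [Algebra.IsAlgebraic K B]
  [Algebra.IsAlgebraic F M]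

/-- `Y` gives the values of `y` at the points over the embeddings of `E` -/
def HasVal (s : GalSec K F M B) (E : IntermediateField K B)
    (P : ∀ (p : ℕ) [Fact p.Prime] (φ : K →+* PadicAlgCl p), Pt K M φ) (y : M)
    (Y : ∀ (p : ℕ) [Fact p.Prime], (E →+* PadicAlgCl p) → PadicAlgCl p) : Prop :=
  ∀ (p : ℕ) [Fact p.Prime] (φ : K →+* PadicAlgCl p) (Φ : E →+* PadicAlgCl p),
    Φ.comp (algebraMap K E) = φ → ∀ g0 : B ≃ₐ[K] B, Adm s E (P p φ) Φ g0 →
      (P p φ).Val (s.s g0 y) (Y p Φ)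

variable {s : GalSec K F M B} {E : IntermediateField K B}
    {P : ∀ (p : ℕ) [Fact p.Prime] (φ : K →+* PadicAlgCl p), Pt K M φ}

lemma exists_hasVal (y : M) (hy : ∀ σ ∈ E.fixingSubgroup, s.s σ y = y)
    (hW : ∀ (p : ℕ) [Fact p.Prime] (φ : K →+* PadicAlgCl p) (g : B ≃ₐ[K] B),
      s.s g y ∈ (P p φ).W) :
    ∃ Y : ∀ (p : ℕ) [Fact p.Prime], (E →+* PadicAlgCl p) → PadicAlgCl p, HasVal s E P y Y := by
  classical
  choose g0 hg0 using fun (p : ℕ) [Fact p.Prime] (Φ : E →+* PadicAlgCl p) =>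
    exists_adm s E (P p (Φ.comp (algebraMap K E))) Φ rfl
  refine ⟨fun p _ Φ => (P p (Φ.comp (algebraMap K E))).ρ ⟨s.s (g0 p Φ) y, hW p _ _⟩, ?_⟩
  intro p _ φ Φ hΦ g1 h1
  subst hΦ
  rw [(hg0 p Φ).apply_eq h1 hy]
  exact ⟨hW p _ _, rfl⟩

/-- the adelic number given by a unit -/
lemma HasVal.dat [NumberField E] {y : M}
    {Y : ∀ (p : ℕ) [Fact p.Prime], (E →+* PadicAlgCl p) → PadicAlgCl p} (h : HasVal s E P y Y)
    (hP : ∀ (p : ℕ) [Fact p.Prime] (φ : K →+* PadicAlgCl p), s.GivenBy (P p φ))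
    (hy : ∀ σ ∈ E.fixingSubgroup, s.s σ y = y)
    (hroot : ∀ N : ℕ, 0 < N → ∃ w : M, w ≠ 0 ∧ w ^ N = y)
    (hne : ∀ (p : ℕ) [Fact p.Prime] (Φ : E →+* PadicAlgCl p), Y p Φ ≠ 0)
    (hunit : ∃ D : ℕ, 0 < D ∧ ∀ (p : ℕ) [Fact p.Prime] (Φ : E →+* PadicAlgCl p), ¬ p ∣ D →
      ‖Y p Φ‖ = 1) : Dat Y E (RingHom.id E) 0 := by
  refine ⟨?_, ?_, ?_⟩
  · intro p _ Φ
    rw [RingHom.comp_id, map_zero, sub_zero]
    exact hne p Φ
  · intro N hN
    obtain ⟨w, hw0, hw⟩ := hroot N hN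
    obtain ⟨a, ha, g, -, hg, hfix⟩ := kummer_gen s E y hy hN w hw hw0
    refine ⟨a, fun p _ Φ => ?_⟩
    rw [RingHom.comp_id, map_zero, sub_zero]
    obtain ⟨g0, hg0⟩ := exists_adm s E (P p (Φ.comp (algebraMap K E))) Φ rfl
    exact values_gen hN a ha y g hg hfix rfl (hP p _) hg0 (h p _ Φ rfl g0 hg0)
  · obtain ⟨D, hD, h1⟩ := hunit
    refine ⟨D, hD, fun p _ Φ hp => ?_⟩
    rw [RingHom.comp_id, map_zero, sub_zero]
    exact h1 p Φ hp

/-- the orders of the values are divisible by `N` almost everywhere -/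
lemma HasVal.sparse [NumberField E] {y : M}
    {Y : ∀ (p : ℕ) [Fact p.Prime], (E →+* PadicAlgCl p) → PadicAlgCl p} (h : HasVal s E P y Y)
    (hP : ∀ (p : ℕ) [Fact p.Prime] (φ : K →+* PadicAlgCl p), s.GivenBy (P p φ))
    (hy : ∀ σ ∈ E.fixingSubgroup, s.s σ y = y)
    (hroot : ∀ N : ℕ, 0 < N → ∃ w : M, w ≠ 0 ∧ w ^ N = y)
    (hne : ∀ (p : ℕ) [Fact p.Prime] (Φ : E →+* PadicAlgCl p), Y p Φ ≠ 0) (N : ℕ) (hN : 0 < N) :
    ∃ D : ℕ, 0 < D ∧ ∀ (p : ℕ) [Fact p.Prime] (Φ : E →+* PadicAlgCl p), ¬ p ∣ D →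
      ∃ z : ℤ, ‖Y p Φ‖ = (p : ℝ) ^ ((N : ℤ) * z) := by
  set d := Module.finrank ℚ E with hd
  have hN' : 0 < N * d.factorial := Nat.mul_pos hN (Nat.factorial_pos d)
  obtain ⟨w, hw0, hw⟩ := hroot (N * d.factorial) hN'
  obtain ⟨a, ha, g, -, hg, hfix⟩ := kummer_gen s E y hy hN' w hw hw0
  have : Algebra.IsAlgebraic ℚ E := inferInstance
  obtain ⟨D1, hD1, h1⟩ := units_ae ({a} : Finset E) (by
    intro e he
    rw [Finset.mem_singleton] at he
    rw [he]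
    exact ha)
  refine ⟨D1, hD1, fun p _ Φ hp => ?_⟩
  obtain ⟨g0, hg0⟩ := exists_adm s E (P p (Φ.comp (algebraMap K E))) Φ rfl
  obtain ⟨u, hu, hu'⟩ :=
    values_gen hN' a ha y g hg hfix rfl (hP p _) hg0 (h p _ Φ rfl g0 hg0)
  have hu0 : u ≠ 0 := by
    rintro rfl
    rw [zero_pow hN'.ne', mul_zero] at hu'
    exact hne p Φ hu'
  obtain ⟨z, hz⟩ := norm_pow_mem (LL Φ) (LL_finite Φ) hu hu0 (LL_finrank Φ)
  refine ⟨z, ?_⟩
  rw [hu', norm_mul, norm_pow, h1 p hp Φ a (Finset.mem_singleton_self _), one_mul,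
    mul_comm N, pow_mul, hz, mul_comm (N : ℤ), zpow_mul, zpow_natCast]

/-- the values at the conjugate points -/
lemma HasVal.conj {y y' : M} {δ : K}
    {Y : ∀ (p : ℕ) [Fact p.Prime], (E →+* PadicAlgCl p) → PadicAlgCl p} (h : HasVal s E P y Y)
    (τ : B ≃ₐ[K] B) (ρ : E →+* E) (hρ : ∀ z : E, (ρ z : B) = τ z)
    (hρK : ∀ c : K, ρ (algebraMap K E c) = algebraMap K E c) (hτ : s.s τ y = y')
    (hyy : y * y' = algebraMap K M δ) (hFK : ∀ g : B ≃ₐ[K] B, s.s g (algebraMap K M δ) =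
      algebraMap K M δ) {p : ℕ} [Fact p.Prime]
    (Φ : E →+* PadicAlgCl p) : Y p Φ * Y p (Φ.comp ρ) = Φ (algebraMap K E δ) := by
  obtain ⟨g0, hg0⟩ := exists_adm s E (P p (Φ.comp (algebraMap K E))) Φ rfl
  have h1 := h p _ Φ rfl g0 hg0
  have h2 := h p (Φ.comp (algebraMap K E)) (Φ.comp ρ) (by
    ext c
    change Φ (ρ (algebraMap K E c)) = _
    rw [hρK]
    rfl) (g0 * τ) (hg0.comp τ ρ hρ)
  have h3 : s.s g0 y * s.s (g0 * τ) y = algebraMap K M δ := by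
    rw [map_mul]
    change s.s g0 y * s.s g0 (s.s τ y) = _
    rw [hτ, ← map_mul, hyy, hFK]
  have h4 := h1.mul h2
  rw [h3] at h4
  exact h4.unique ((P p (Φ.comp (algebraMap K E))).comm δ)

end value

end Pool.Agent.H886.SB
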