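import Pool.Agent.H886.SB.Rel
import Pool.Agent.H886.SB.Kum

/-!
# Adelic numbers with values in the closure of a group of relative units
-/

set_option autoImplicit false
set_option linter.unusedSectionVars false

namespace Pool.Agent.H886.SB

open NumberField IsDedekindDomain Pool.Agent.W518.TC Pool.Agent.Q33.SecL
open Pool.Agent.H886.Exp

section fin

variable {L : Type} [Field L] [NumberField L] {ι : Type} [Fintype ι]
    {Mf : ∀ (p : ℕ) [Fact p.Prime], IntermediateField ℚ_[p] (PadicAlgCl p)} {ε : L}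
    {Z : ι → Finset L}
    {Y : ι → ∀ (p : ℕ) [Fact p.Prime], (L →+* PadicAlgCl p) → PadicAlgCl p}

/-- the case of a unit of finite order -/
theorem core_fin (h : Dta Mf ε Z Y) {t : ℕ} (ht : 0 < t) (hεt : ε ^ t = 1) :
    ∃ y : ι → L, (∀ i, y i ≠ 0) ∧ ∀ (p : ℕ) [Fact p.Prime] (μ : L →+* PadicAlgCl p) (i : ι),
      Y i p μ = μ (y i) := by
  classical
  let σ := (∀ i, {P : L // P ∈ Z i}) × (ι → Fin t)
  have key : ∀ k : ℕ, ∃ s : σ, ∀ (p : ℕ) [Fact p.Prime] (μ : L →+* PadicAlgCl p) (i : ι),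
      ∃ w ∈ Mf p, ‖w‖ = 1 ∧ Y i p μ = μ (s.1 i * ε ^ (s.2 i : ℕ)) * w ^ k.factorial := by
    intro k
    obtain ⟨P, hP, n, hn⟩ := h.hY k
    have ht0 : (0 : ℤ) < t := by exact_mod_cast ht
    refine ⟨(fun i => ⟨P i, hP i⟩, fun i => ⟨(n i % t).toNat, by
      have h1 := Int.emod_lt_of_pos (n i) ht0
      have h2 := Int.emod_nonneg (n i) ht0.ne'
      omega⟩), fun p _ μ i => ?_⟩
    obtain ⟨w, hw, hw1, hw2⟩ := hn p μ i
    refine ⟨w, hw, hw1, ?_⟩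
    rw [hw2]
    congr 3
    have h2 := Int.emod_nonneg (n i) ht0.ne'
    have h3 : ((n i % t).toNat : ℤ) = n i % t := Int.toNat_of_nonneg h2
    rw [← zpow_natCast, h3]
    conv_lhs => rw [← Int.emod_add_mul_ediv (n i) t, zpow_add₀ h.h0, zpow_mul, zpow_natCast, hεt,
      one_zpow, mul_one]
  obtain ⟨s, hs⟩ := pigeon key
  have hs0 : ∀ i, (s.1 i : L) * ε ^ (s.2 i : ℕ) ≠ 0 := fun i =>
    mul_ne_zero (h.hZ i _ (s.1 i).2) (pow_ne_zero _ h.h0)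
  refine ⟨fun i => s.1 i * ε ^ (s.2 i : ℕ), hs0, fun p _ μ i => ?_⟩
  have hy00 : μ (s.1 i * ε ^ (s.2 i : ℕ)) ≠ 0 := (map_ne_zero μ).2 (hs0 i)
  have hY0 : Y i p μ ≠ 0 := by
    obtain ⟨k, -, hk⟩ := hs 0
    obtain ⟨w, -, hw1, hw⟩ := hk p μ i
    rw [hw]
    refine mul_ne_zero hy00 (pow_ne_zero _ ?_)
    rintro rfl
    simp at hw1
  have h1 : Y i p μ / μ (s.1 i * ε ^ (s.2 i : ℕ)) = 1 := by
    refine eq_one_of_powers (Mf p) (h.hMf p) (div_ne_zero hY0 hy00) fun B => ?_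
    obtain ⟨k, hk, hk'⟩ := hs B
    obtain ⟨w, hw, -, hw'⟩ := hk' p μ i
    exact ⟨k, hk, w, hw, by rw [hw', mul_div_cancel_left₀ _ hy00]⟩
  exact (div_eq_one_iff_eq hy00).1 h1

/-- combinations of an adelic number and its conjugate -/
theorem dta_of (hMf : ∀ (p : ℕ) [Fact p.Prime], FiniteDimensional ℚ_[p] (Mf p))
    (hMμ : ∀ (p : ℕ) [Fact p.Prime] (μ : L →+* PadicAlgCl p) (x : L), μ x ∈ Mf p)
    (hY : ∀ i, Adl Mf (Y i)) (ρ : L →+* L) (b : ℤ) (κ : ι → L) (hκ : ∀ i, κ i ≠ 0)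
    (V : ι → ∀ (p : ℕ) [Fact p.Prime], (L →+* PadicAlgCl p) → PadicAlgCl p)
    (hV : ∀ i (p : ℕ) [Fact p.Prime] (μ : L →+* PadicAlgCl p),
      V i p μ = μ (κ i) * (Y i p μ * (Y i p (μ.comp ρ)) ^ b))
    (hi : IsIntegral ℤ ε) (hi' : IsIntegral ℤ ε⁻¹) (h0 : ε ≠ 0) (W : Finset L)
    (hW : ∀ ζ ∈ W, ζ ≠ 0) (hU : ∀ η : L, η ≠ 0 → (∀ v, ord v η = 0) →
      ∃ ζ ∈ W, ∃ n : ℤ, η * (ρ η) ^ b = ζ * ε ^ n) :
    ∃ Z : ι → Finset L, Dta Mf ε Z V := by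
  classical
  choose γ hγ0 hγ using fun i => (hY i).units hMf hMμ
  have hργ : ∀ i, ρ (γ i) ≠ 0 := fun i => (map_ne_zero ρ).2 (hγ0 i)
  refine ⟨fun i => W.image (fun ζ => κ i * (γ i * (ρ (γ i)) ^ b) * ζ), hMf, hMμ, hi, hi', h0, ?_, ?_⟩
  · intro i P hP
    obtain ⟨ζ, hζ, rfl⟩ := Finset.mem_image.1 hP
    exact mul_ne_zero (mul_ne_zero (hκ i) (mul_ne_zero (hγ0 i) (zpow_ne_zero _ (hργ i)))) (hW ζ hζ)
  · intro k
    choose η hη0 hηv hη using fun i => hγ i k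
    choose ζ hζ n hn using fun i => hU (η i) (hη0 i) (hηv i)
    refine ⟨fun i => κ i * (γ i * (ρ (γ i)) ^ b) * ζ i,
      fun i => Finset.mem_image_of_mem _ (hζ i), n, fun p _ μ i => ?_⟩
    obtain ⟨w, hw, hw1, hw2⟩ := hη i p μ
    obtain ⟨w', hw', hw1', hw2'⟩ := hη i p (μ.comp ρ)
    refine ⟨w * w' ^ b, mul_mem hw (zpow_mem hw' _), ?_, ?_⟩
    · rw [norm_mul, norm_zpow, hw1, hw1', one_zpow, mul_one]
    · have e1 : κ i * (γ i * (ρ (γ i)) ^ b) * ζ i * ε ^ n i =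
          κ i * ((γ i * η i) * (ρ (γ i * η i)) ^ b) := by
        rw [mul_assoc, ← hn i, map_mul, mul_zpow]
        ring
      rw [hV, hw2, hw2', e1, mul_pow, mul_zpow]
      have e3 : μ (κ i * ((γ i * η i) * (ρ (γ i * η i)) ^ b)) =
          μ (κ i) * (μ (γ i * η i) * (μ (ρ (γ i * η i))) ^ b) := by
        simp only [map_mul, map_zpow₀]
      rw [e3]
      change _ * (_ * (μ (ρ (γ i * η i)) ^ b * _)) = _
      have e2 : (w' ^ k.factorial) ^ b = (w' ^ b) ^ k.factorial := by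
        rw [← zpow_natCast, ← zpow_natCast, ← zpow_mul, ← zpow_mul, mul_comm]
      rw [e2]
      ring

end fin

section one

variable {E : Type} [Field E] [NumberField E]
  {Y : ∀ (p : ℕ) [Fact p.Prime], (E →+* PadicAlgCl p) → PadicAlgCl p}

/-- an adelic number with global Kummer classes and a global power is global -/
theorem pow_global (h : Dat Y E (RingHom.id E) 0) {m : ℕ} (hm : 0 < m) (z : E)
    (hz : ∀ (p : ℕ) [Fact p.Prime] (Φ : E →+* PadicAlgCl p), Y p Φ ^ m = Φ z) :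
    ∃ η : E, ∀ (p : ℕ) [Fact p.Prime] (Φ : E →+* PadicAlgCl p), Y p Φ = Φ η := by
  have hi : IsIntegral ℚ z := Algebra.IsIntegral.isIntegral z
  refine adelic_point h (Polynomial.expand ℚ m (minpoly ℚ z))
    ((Polynomial.expand_ne_zero hm).2 (minpoly.ne_zero hi)) fun p _ Φ => ?_
  rw [Polynomial.expand_aeval, hz]
  have e1 : Φ.comp (algebraMap ℚ E) = algebraMap ℚ (PadicAlgCl p) := Subsingleton.elim _ _
  have h1 := congrArg Φ (minpoly.aeval ℚ z)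
  rw [map_zero, Polynomial.aeval_def, Polynomial.hom_eval₂, e1] at h1
  exact h1

/-- **Rank zero.** -/
theorem global_zero (h : Dat Y E (RingHom.id E) 0) (ρ : E →+* E) (b : ℤ) (κ : E) (hκ : κ ≠ 0)
    {m : ℕ} (hm : 0 < m)
    (hV : ∀ (p : ℕ) [Fact p.Prime] (Φ : E →+* PadicAlgCl p),
      Y p Φ ^ m = Φ κ * (Y p Φ * (Y p (Φ.comp ρ)) ^ b)) (W : Finset E)
    (hW : ∀ ζ ∈ W, ζ ≠ 0) (hU : ∀ η : E, η ≠ 0 → (∀ v, ord v η = 0) →
      ∃ ζ ∈ W, ∃ n : ℤ, η * (ρ η) ^ b = ζ * (1 : E) ^ n) :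
    ∃ η : E, ∀ (p : ℕ) [Fact p.Prime] (Φ : E →+* PadicAlgCl p), Y p Φ = Φ η := by
  obtain ⟨Z, hZ⟩ := dta_of (ι := Unit) (fun p _ => MM_finite) (fun p _ μ x => LL_le_MM μ (mem_LL μ x))
    (fun _ => adl_of_dat h) ρ b (fun _ => κ) (fun _ => hκ)
    (fun _ p _ Φ => Y p Φ ^ m) (fun _ p _ Φ => hV p Φ) isIntegral_one
    (by rw [inv_one]; exact isIntegral_one) one_ne_zero W hW hU
  obtain ⟨z, -, hz⟩ := core_fin hZ one_pos (one_pow 1)
  exact pow_global h hm (z ()) fun p _ Φ => hz p Φ ()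

/-- **Rank at most one.** -/
theorem global_one {ι : Type} [Fintype ι]
    {Y : ι → ∀ (p : ℕ) [Fact p.Prime], (E →+* PadicAlgCl p) → PadicAlgCl p}
    (h : ∀ i, Dat (Y i) E (RingHom.id E) 0) (ρ : E →+* E) (b : ℤ) (κ : ι → E) (hκ : ∀ i, κ i ≠ 0)
    {m : ℕ} (hm : 0 < m)
    (hV : ∀ i (p : ℕ) [Fact p.Prime] (Φ : E →+* PadicAlgCl p),
      Y i p Φ ^ m = Φ (κ i) * (Y i p Φ * (Y i p (Φ.comp ρ)) ^ b)) {ε : E}
    (hi : IsIntegral ℤ ε) (hi' : IsIntegral ℤ ε⁻¹) (h0 : ε ≠ 0) (W : Finset E)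
    (hW : ∀ ζ ∈ W, ζ ≠ 0) (hU : ∀ η : E, η ≠ 0 → (∀ v, ord v η = 0) →
      ∃ ζ ∈ W, ∃ n : ℤ, η * (ρ η) ^ b = ζ * ε ^ n)
    {M : Type} [Field M] [Algebra E M] (y : ι → M) (hy0 : ∀ i, y i ≠ 0) (i0 j0 : ι)
    (hind : ∀ a b : ℤ, (a ≠ 0 ∨ b ≠ 0) → Transcendental E ((y i0 ^ m) ^ a * (y j0 ^ m) ^ b))
    (hM : Algebra.IsAlgebraic (IntermediateField.adjoin E {y i0 ^ m}) M)
    (Q : ∀ (p : ℕ) [Fact p.Prime] (Φ : E →+* PadicAlgCl p), Pt E M Φ)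
    (hQ : ∀ i (p : ℕ) [Fact p.Prime] (Φ : E →+* PadicAlgCl p), (Q p Φ).Val (y i) (Y i p Φ)) :
    ∃ η : ι → E, ∀ (p : ℕ) [Fact p.Prime] (Φ : E →+* PadicAlgCl p) (i : ι), Y i p Φ = Φ (η i) := by
  classical
  obtain ⟨Z, hZ⟩ := dta_of (fun p _ => MM_finite) (fun p _ μ x => LL_le_MM μ (mem_LL μ x))
    (fun i => adl_of_dat (h i)) ρ b κ hκ
    (fun i p _ Φ => Y i p Φ ^ m) (fun i p _ Φ => hV i p Φ) hi hi' h0 W hW hU
  let x : ι → M := fun i => y i ^ m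
  let I : Ideal (MvPolynomial ι E) := RingHom.ker (MvPolynomial.aeval x : _ →ₐ[E] M)
  obtain ⟨S, hS⟩ : I.FG := IsNoetherian.noetherian I
  have hSI : ∀ G ∈ S, MvPolynomial.aeval x G = 0 := fun G hG => by
    have h1 : G ∈ I := by
      rw [← hS]
      exact Ideal.subset_span hG
    exact h1
  obtain ⟨z, -, hz⟩ := core hZ S (fun G hG p _ μ => by
      have h1 := val_aeval (P := Q p μ) (x := x) (c := fun i => Y i p μ ^ m)
        (fun i => (hQ i p μ).pow m) G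
      rw [hSI G hG] at h1
      exact h1.unique val_zero) (by
    intro P hP w hw
    obtain ⟨G, hG, hG'⟩ := no_coset (K := E) (x := x) (fun i => pow_ne_zero _ (hy0 i)) i0 j0 hind hM
      P hP w hw
    by_contra hc
    push Not at hc
    apply hG'
    let E' : MvPolynomial ι E →ₐ[E] RatFunc E :=
      MvPolynomial.aeval (fun i => algebraMap E (RatFunc E) (P i) * RatFunc.X ^ w i)
    have h1 : I ≤ RingHom.ker E' := by
      rw [← hS]
      exact Ideal.span_le.2 fun g hg => hc g hg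
    exact h1 hG)
  choose η hη using fun i => pow_global (h i) hm (z i) fun p _ Φ => hz p Φ i
  exact ⟨η, fun p _ Φ i => hη i p Φ⟩

end one

end Pool.Agent.H886.SB
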