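import Pool.Agent.H886.SB.Uni
import Pool.Agent.H886.SB.Cov
import Pool.Agent.H886.SB.Ex

/-!
# Adelic points and the values of units on coverings
-/

set_option autoImplicit false
set_option linter.unusedSectionVars false

open IsDedekindDomain NumberField Polynomial

namespace Pool.Agent.H886.SB

open Pool.Agent.TH942 Pool.Agent.TH954 Pool.Agent.TH841.NF
open Pool.Agent.Q33.SecL (GalSec Pt Dat)
open Pool.Agent.Q33.BSec Pool.Agent.H886.Exp

section comp

variable {K M : Type} [Field K] [Field M] [Algebra K M] {p : ℕ} [Fact p.Prime]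
    {φ : K →+* PadicAlgCl p}

/-- the composite of a point with the `p`-adic valuation -/
noncomputable def cmpRing (P : Pt K M φ) : ValuationSubring M where
  carrier := {z | ∃ h : z ∈ P.W, ‖P.ρ ⟨z, h⟩‖ ≤ 1}
  mul_mem' := by
    rintro a b ⟨ha, ha'⟩ ⟨hb, hb'⟩
    refine ⟨mul_mem ha hb, ?_⟩
    have h1 : P.ρ ⟨a * b, mul_mem ha hb⟩ = P.ρ ⟨a, ha⟩ * P.ρ ⟨b, hb⟩ := by
      rw [← map_mul]
      rfl
    rw [h1, norm_mul]
    exact mul_le_one₀ ha' (norm_nonneg _) hb'
  one_mem' := by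
    refine ⟨one_mem _, ?_⟩
    have h1 : P.ρ ⟨(1 : M), one_mem _⟩ = 1 := map_one P.ρ
    rw [h1, norm_one]
  add_mem' := by
    rintro a b ⟨ha, ha'⟩ ⟨hb, hb'⟩
    refine ⟨add_mem ha hb, ?_⟩
    have h1 : P.ρ ⟨a + b, add_mem ha hb⟩ = P.ρ ⟨a, ha⟩ + P.ρ ⟨b, hb⟩ := by
      rw [← map_add]
      rfl
    rw [h1]
    exact (IsUltrametricDist.norm_add_le_max _ _).trans (max_le ha' hb')
  zero_mem' := by
    refine ⟨zero_mem _, ?_⟩
    have h1 : P.ρ ⟨(0 : M), zero_mem _⟩ = 0 := map_zero P.ρ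
    rw [h1, norm_zero]
    exact zero_le_one
  neg_mem' := by
    rintro a ⟨ha, ha'⟩
    refine ⟨neg_mem ha, ?_⟩
    have h1 : P.ρ ⟨-a, neg_mem ha⟩ = -P.ρ ⟨a, ha⟩ := by
      rw [← map_neg]
      rfl
    rw [h1, norm_neg]
    exact ha'
  mem_or_inv_mem' := by
    intro z
    by_cases hz : z ∈ P.W
    · by_cases h1 : ‖P.ρ ⟨z, hz⟩‖ ≤ 1
      · exact Or.inl ⟨hz, h1⟩
      · right
        have h2 : P.ρ ⟨z, hz⟩ ≠ 0 := by
          intro h0
          rw [h0, norm_zero] at h1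
          exact h1 zero_le_one
        have h3 : z⁻¹ ∈ P.W := P.loc ⟨z, hz⟩ h2
        refine ⟨h3, ?_⟩
        have hz0 : z ≠ 0 := by
          rintro rfl
          exact h2 (map_zero P.ρ)
        have h4 : P.ρ ⟨z, hz⟩ * P.ρ ⟨z⁻¹, h3⟩ = 1 := by
          rw [← map_mul, ← map_one P.ρ]
          congr 1
          exact Subtype.ext (mul_inv_cancel₀ hz0)
        have h5 := congrArg norm h4
        rw [norm_mul, norm_one] at h5
        by_contra h6
        have h7 := one_lt_mul_of_lt_of_le (not_le.1 h6) (not_le.1 h1).le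
        rw [mul_comm, h5] at h7
        exact lt_irrefl _ h7
    · right
      have h3 : z⁻¹ ∈ P.W := (P.W.mem_or_inv_mem z).resolve_left hz
      refine ⟨h3, ?_⟩
      have h4 : P.ρ ⟨z⁻¹, h3⟩ = 0 := by
        by_contra h0
        apply hz
        have := P.loc ⟨z⁻¹, h3⟩ h0
        change (z⁻¹)⁻¹ ∈ P.W at this
        rwa [inv_inv] at this
      rw [h4, norm_zero]
      exact zero_le_one

lemma mem_cmpRing {P : Pt K M φ} {z : M} {c : PadicAlgCl p} (h : P.Val z c) (hc : ‖c‖ ≤ 1) :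
    z ∈ cmpRing P := by
  obtain ⟨h1, rfl⟩ := h
  exact ⟨h1, hc⟩

lemma norm_of_mem {P : Pt K M φ} {z : M} {c : PadicAlgCl p} (h : P.Val z c)
    (hz : z ∈ cmpRing P) : ‖c‖ ≤ 1 := by
  obtain ⟨h1, rfl⟩ := h
  obtain ⟨h2, h3⟩ := hz
  exact h3

end comp

section int

variable {F M : Type} [Field F] [Field M] [Algebra F M]

/-- `z` is integral over the subring `R` of `F` -/
def IntOver (R : Subring F) (z : M) : Prop :=
  ((algebraMap F M).comp R.subtype).IsIntegralElem z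

/-- valuation rings are integrally closed -/
lemma mem_of_integral {A : Type} [CommRing A] (i : A →+* M) (W : ValuationSubring M) (q : A[X])
    (hq : q.Monic) (hW : ∀ k, i (q.coeff k) ∈ W) {z : M} (hz : eval₂ i z q = 0) : z ∈ W := by
  have h1 : q.map i ∈ Polynomial.lifts (algebraMap W M) := by
    rw [Polynomial.lifts_iff_coeff_lifts]
    intro k
    rw [coeff_map]
    exact ⟨⟨_, hW k⟩, rfl⟩
  obtain ⟨q', hq', -, hm⟩ := Polynomial.lifts_and_natDegree_eq_and_monic h1 (hq.map i)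
  have h2 : IsIntegral W z := by
    refine ⟨q', hm, ?_⟩
    rw [← Polynomial.eval_map, hq', Polynomial.eval_map]
    exact hz
  obtain ⟨y, hy⟩ := IsIntegrallyClosed.isIntegral_iff.1 h2
  rw [← hy]
  exact y.2

end int

section loc

variable {K : Type} [Field K] [NumberField K] {F M B : Type} [Field F] [Field M] [Field B]
  [Algebra K F] [Algebra F M] [Algebra.IsAlgebraic F M] [Algebra K M] [IsScalarTower K F M]
  [Algebra K B] [IsAlgClosure K B]

/-- `pl` is an adelic point of the curve with the ring `R` of regular functions -/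
structure AdPt (R : Subring F) (s : GalSection K F M B)
    (pl : ∀ v : HeightOneSpectrum (𝓞 K), Plc K M (AlgebraicClosure (v.adicCompletion K))) :
    Prop where
  cmp : ∀ v : HeightOneSpectrum (𝓞 K), Cmp (L := v.adicCompletion K) s (pl v)
  mem : ∀ f ∈ R, ∀ v, algebraMap F M f ∈ (pl v).W
  int : ∀ f ∈ R, ∀ᶠ v in Filter.cofinite, ∀ x : v.adicCompletion K,
    (pl v).val (algebraMap F M f) (algebraMap _ _ x) → Valued.v x ≤ 1

variable {R : Subring F} {s : GalSection K F M B}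
    {pl : ∀ v : HeightOneSpectrum (𝓞 K), Plc K M (AlgebraicClosure (v.adicCompletion K))}

lemma AdPt.ae_mem (h : AdPt R s pl) {f : F} (hf : f ∈ R) : ∃ D : ℕ, 0 < D ∧
    ∀ (p : ℕ) [Fact p.Prime] (φ : K →+* PadicAlgCl p), ¬ p ∣ D →
      algebraMap F M f ∈ cmpRing (toPt φ (pl (pls φ))) := by
  obtain ⟨D, hD, hDT⟩ := exists_bound _ (Filter.eventually_cofinite.1 (h.int f hf))
  refine ⟨D, hD, fun p _ φ hp => ?_⟩
  have h1 := hDT p φ hp
  simp only [Set.mem_ofPred_eq, not_not] at h1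
  have hcv : CharZero ((pls φ).adicCompletion K) :=
    charZero_of_injective_algebraMap (algebraMap K ((pls φ).adicCompletion K)).injective
  obtain ⟨x, hx⟩ := val_rational s (pl (pls φ)) (h.cmp _) (h.mem f hf (pls φ))
  have h2 := toPt_val hx
  rw [bx_alg] at h2
  exact mem_cmpRing h2 (norm_jc_le φ (h1 x hx))

lemma AdPt.ae_int (h : AdPt R s pl) {q : R[X]} (hq : q.Monic) : ∃ D : ℕ, 0 < D ∧
    ∀ (p : ℕ) [Fact p.Prime] (φ : K →+* PadicAlgCl p), ¬ p ∣ D → ∀ z : M,
      eval₂ ((algebraMap F M).comp R.subtype) z q = 0 → z ∈ cmpRing (toPt φ (pl (pls φ))) := by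
  choose D hD h1 using fun f : R => h.ae_mem f.2
  refine ⟨∏ k ∈ Finset.range (q.natDegree + 1), D (q.coeff k),
    Finset.prod_pos fun k _ => hD _, fun p _ φ hp z hz => ?_⟩
  refine mem_of_integral _ _ q hq (fun k => ?_) hz
  by_cases hk : k ∈ Finset.range (q.natDegree + 1)
  · exact h1 (q.coeff k) p φ fun hd => hp (hd.trans (Finset.dvd_prod_of_mem _ hk))
  · rw [Finset.mem_range, not_lt] at hk
    rw [Polynomial.coeff_eq_zero_of_natDegree_lt (by omega), map_zero]
    exact zero_mem _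

lemma AdPt.mem_of_int (h : AdPt R s pl) {q : R[X]} (hq : q.Monic) (v : HeightOneSpectrum (𝓞 K))
    {z : M} (hz : eval₂ ((algebraMap F M).comp R.subtype) z q = 0) : z ∈ (pl v).W :=
  mem_of_integral _ _ q hq (fun k => h.mem _ (q.coeff k).2 v) hz

/-- the conjugates are roots of the same polynomial -/
lemma root_conj (g : M ≃ₐ[F] M) {q : R[X]} {z : M}
    (hz : eval₂ ((algebraMap F M).comp R.subtype) z q = 0) :
    eval₂ ((algebraMap F M).comp R.subtype) (g z) q = 0 := by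
  have h1 := congrArg g hz
  rw [map_zero] at h1
  rw [← h1]
  have h2 : ((g : M →+* M).comp ((algebraMap F M).comp R.subtype)) =
      (algebraMap F M).comp R.subtype := by
    ext c
    exact g.commutes _
  have h3 := Polynomial.hom_eval₂ q ((algebraMap F M).comp R.subtype) (g : M →+* M) z
  rw [h2] at h3
  exact h3.symm

/-- **The adelic number given by a unit on a covering.** -/
theorem AdPt.unit_dat (h : AdPt R s pl) (E : IntermediateField K B) [NumberField E] (y : M)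
    (hy0 : y ≠ 0) (hy : IntOver R y) (hy' : IntOver R y⁻¹)
    (hfx : ∀ σ ∈ E.fixingSubgroup, s.s σ y = y)
    (hroot : ∀ N : ℕ, 0 < N → ∃ w : M, w ≠ 0 ∧ w ^ N = y) :
    ∃ Y : ∀ (p : ℕ) [Fact p.Prime], (E →+* PadicAlgCl p) → PadicAlgCl p,
      HasVal (toSec s) E (fun p _ φ => toPt φ (pl (pls φ))) y Y ∧ Dat Y E (RingHom.id E) 0 := by
  have hB1 : IsAlgClosed B := IsAlgClosure.isAlgClosed K
  have hB2 : Algebra.IsAlgebraic K B := IsAlgClosure.isAlgebraic
  obtain ⟨q, hq, hqy⟩ := hy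
  obtain ⟨q', hq', hqy'⟩ := hy'
  have hinv : ∀ g : B ≃ₐ[K] B, (s.s g y)⁻¹ = s.s g y⁻¹ := fun g => (map_inv₀ _ _).symm
  obtain ⟨Y, hY⟩ := exists_hasVal (s := toSec s) (E := E)
    (P := fun p _ φ => toPt φ (pl (pls φ))) y hfx
    (fun p _ φ g => h.mem_of_int hq (pls φ) (root_conj (s.s g) hqy))
  have hval : ∀ (p : ℕ) [Fact p.Prime] (Φ : E →+* PadicAlgCl p), ∃ g : B ≃ₐ[K] B,
      (toPt (Φ.comp (algebraMap K E)) (pl (pls (Φ.comp (algebraMap K E))))).Val (s.s g y)
        (Y p Φ) ∧ ∃ c, (toPt (Φ.comp (algebraMap K E))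
          (pl (pls (Φ.comp (algebraMap K E))))).Val (s.s g y⁻¹) c ∧ Y p Φ * c = 1 := by
    intro p _ Φ
    obtain ⟨g, hg⟩ := exists_adm (toSec s) E
      (toPt (Φ.comp (algebraMap K E)) (pl (pls (Φ.comp (algebraMap K E))))) Φ rfl
    have h1 := hY p _ Φ rfl g hg
    have h2 : s.s g y⁻¹ ∈ (pl (pls (Φ.comp (algebraMap K E)))).W :=
      h.mem_of_int hq' _ (root_conj (s.s g) hqy')
    obtain ⟨c, hc⟩ := Pt.val_of_mem (P := toPt (Φ.comp (algebraMap K E))
      (pl (pls (Φ.comp (algebraMap K E))))) h2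
    refine ⟨g, h1, c, hc, ?_⟩
    have h3 := Pt.Val.mul h1 hc
    have h4 : (toSec s).s g y * s.s g y⁻¹ = 1 := by
      rw [← hinv]
      exact mul_inv_cancel₀ ((_root_.map_ne_zero _).2 hy0)
    rw [h4] at h3
    exact h3.unique ⟨one_mem _, map_one _⟩
  obtain ⟨D, hD, h1⟩ := h.ae_int hq
  obtain ⟨D', hD', h2⟩ := h.ae_int hq'
  refine ⟨Y, hY, hY.dat (fun p _ φ => givenBy_of_cmp s φ _ (h.cmp _)) hfx hroot ?_
    ⟨D * D', Nat.mul_pos hD hD', ?_⟩⟩
  · intro p _ Φ h0
    obtain ⟨g, -, c, -, h3⟩ := hval p Φ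
    rw [h0, zero_mul] at h3
    exact zero_ne_one h3
  · intro p _ Φ hp
    obtain ⟨g, h3, c, h4, h5⟩ := hval p Φ
    have h6 := norm_of_mem h3 (h1 p _ (fun hd => hp (hd.mul_right _)) _ (root_conj (s.s g) hqy))
    have h7 := norm_of_mem h4 (h2 p _ (fun hd => hp (hd.mul_left _)) _ (root_conj (s.s g) hqy'))
    have h8 := congrArg norm h5
    rw [norm_mul, norm_one] at h8
    refine le_antisymm h6 ?_
    rw [← h8]
    exact mul_le_of_le_one_right (norm_nonneg _) h7

end loc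

end Pool.Agent.H886.SB
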