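import Pool.Agent.H886.SB.Pell

/-!
# The main theorems at the level of embeddings
-/

set_option autoImplicit false
set_option linter.unusedSectionVars false

namespace Pool.Agent.H886.SB

open NumberField IsDedekindDomain Pool.Agent.W518.TC Pool.Agent.Q33.SecL
open Pool.Agent.H886.Exp

section descend

/-- an element of a Galois extension with the same value at all embeddings over a given one -/
lemma descend_galois {K E : Type} [Field K] [NumberField K] [Field E] [NumberField E] [Algebra K E]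
    [IsGalois K E] (X : ∀ (p : ℕ) [Fact p.Prime], (K →+* PadicAlgCl p) → PadicAlgCl p) (β : E)
    (h : ∀ (p : ℕ) [Fact p.Prime] (Φ : E →+* PadicAlgCl p), X p (Φ.comp (algebraMap K E)) = Φ β) :
    ∃ ξ : K, ∀ (p : ℕ) [Fact p.Prime] (φ : K →+* PadicAlgCl p), X p φ = φ ξ := by
  have hfd : FiniteDimensional K E := Module.Finite.of_restrictScalars_finite ℚ K E
  have h1 : β ∈ (⊥ : IntermediateField K E) := by
    rw [IsGalois.mem_bot_iff_fixed]
    intro g
    obtain ⟨Φ⟩ : Nonempty (E →+* PadicAlgCl 2) := inferInstance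
    apply Φ.injective
    have h2 := h 2 Φ
    have h3 := h 2 (Φ.comp (g : E →+* E))
    have h4 : (Φ.comp (g : E →+* E)).comp (algebraMap K E) = Φ.comp (algebraMap K E) := by
      ext c
      change Φ (g (algebraMap K E c)) = Φ (algebraMap K E c)
      rw [g.commutes]
    rw [h4, h2] at h3
    exact h3.symm
  obtain ⟨ξ, rfl⟩ := IntermediateField.mem_bot.1 h1
  refine ⟨ξ, fun p _ φ => ?_⟩
  obtain ⟨Φ, rfl⟩ := nonempty_fib (algebraMap K E) φ
  rw [h]
  rfl

end descend

section zero

variable {K F M B : Type} [Field K] [NumberField K] [Field F] [Field M] [Field B] [Algebra K F]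
  [Algebra F M] [Algebra K M] [IsScalarTower K F M] [Algebra K B] [IsAlgClosed B]
  [Algebra.IsAlgebraic K B] [Algebra.IsAlgebraic F M]

/-- the relation between the values at conjugate places, and the group of units -/
lemma conj_rel {s : GalSec K F M B} {f : F} {e δ : K} {y : M} {E : IntermediateField K B}
    [NumberField E] (h : IsRoot f e δ y) (hδ : δ ≠ 0)
    (hE : ∀ g : B ≃ₐ[K] B, g ∈ E.fixingSubgroup ↔ s.s g y = y)
    {P : ∀ (p : ℕ) [Fact p.Prime] (φ : K →+* PadicAlgCl p), Pt K M φ}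
    {Y : ∀ (p : ℕ) [Fact p.Prime], (E →+* PadicAlgCl p) → PadicAlgCl p} (hY : HasVal s E P y Y)
    {τ : B ≃ₐ[K] B} (hτ : s.s τ y ≠ y) {p : ℕ} [Fact p.Prime] (Φ : E →+* PadicAlgCl p) :
    Y p Φ * Y p (Φ.comp (rho E τ fun z hz => h.mem_of_mem hδ hE τ hz)) =
      Φ (algebraMap K E δ) :=
  hY.conj τ _ (fun _ => rfl) (fun c => rho_alg τ _ c) rfl
    ((h.eq_or (h.map (s := s) τ)).resolve_left hτ) (fun g => s_alg s g δ) Φ

/-- **Totally real fields.** -/
theorem main_zero (s : GalSec K F M B) (f : F) (e δ : K) (hδ : δ ≠ 0) (y : M)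
    (h : IsRoot f e δ y) (hroot : ∀ N : ℕ, 0 < N → ∃ w : M, w ≠ 0 ∧ w ^ N = y)
    (P : ∀ (p : ℕ) [Fact p.Prime] (φ : K →+* PadicAlgCl p), Pt K M φ)
    (hP : ∀ (p : ℕ) [Fact p.Prime] (φ : K →+* PadicAlgCl p), s.GivenBy (P p φ))
    (X : ∀ (p : ℕ) [Fact p.Prime], (K →+* PadicAlgCl p) → PadicAlgCl p)
    (hX : ∀ (p : ℕ) [Fact p.Prime] (φ : K →+* PadicAlgCl p),
      (P p φ).Val (algebraMap F M f) (X p φ)) (hfew : Few X)
    (hv : ∀ v : InfinitePlace K, Moves s y v) :
    ∃ ξ : K, ∀ (p : ℕ) [Fact p.Prime] (φ : K →+* PadicAlgCl p), X p φ = φ ξ := by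
  obtain ⟨E, hfd, hE⟩ := exists_field s y
  have : NumberField E := NumberField.of_module_finite K E
  obtain ⟨v0⟩ : Nonempty (InfinitePlace K) := inferInstance
  obtain ⟨-, τ, -, -, hτ⟩ := hv v0
  obtain ⟨Y, hY, hD, hrel⟩ := h.dat hδ hE hroot P hP X hX hfew
  have hG := isGalois_field h hδ hE
  set ρ := rho E τ fun z hz => h.mem_of_mem hδ hE τ hz with hρ
  obtain ⟨W, hW, hU⟩ := rel_units_zero (K := K) ρ (fun c => rho_alg τ _ c)
    (card_places_zero h hδ hE hτ hv)
  have hδE : algebraMap K E δ ≠ 0 := (map_ne_zero _).2 hδ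
  obtain ⟨η, hη⟩ := global_zero hD ρ (-1) (algebraMap K E δ) hδE two_pos (fun p _ Φ => by
    have h1 := conj_rel h hδ hE hY hτ Φ
    have h2 := hD.ne p (Φ.comp ρ)
    rw [RingHom.comp_id, map_zero, sub_zero] at h2
    rw [← hρ] at h1
    rw [← h1, zpow_neg_one]
    field_simp) W hW hU
  obtain ⟨β, hβ⟩ := value_of_root hrel hδ η hη
  exact descend_galois X β hβ

end zero

section indep

/-- Möbius transforms -/
lemma moebius_indep {k M : Type} [Field k] [Field M] [Algebra k M] {y : M}
    (hy : Transcendental k y) {α β : k} (hα : α ≠ 0) (hβ : β ≠ 0) (hαβ : α ≠ β) {a b : ℤ}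
    (hab : a ≠ 0 ∨ b ≠ 0) :
    Transcendental k (y ^ a * ((y - algebraMap k M α) / (y - algebraMap k M β)) ^ b) := by
  intro hc
  set c := y ^ a * ((y - algebraMap k M α) / (y - algebraMap k M β)) ^ b with hcdef
  have hne : ∀ γ : k, y - algebraMap k M γ ≠ 0 := by
    intro γ h0
    apply hy
    rw [sub_eq_zero.1 h0]
    exact isAlgebraic_algebraMap γ
  have hy0 : y ≠ 0 := by
    have := hne 0
    rwa [map_zero, sub_zero] at this
  have hc0 : c ≠ 0 := mul_ne_zero (zpow_ne_zero _ hy0)
    (zpow_ne_zero _ (div_ne_zero (hne α) (hne β)))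
  -- the algebraic closure
  let k' : IntermediateField k M := algebraicClosure k M
  have hck : c ∈ k' := mem_algebraicClosure_iff.2 hc
  have hyk : Transcendental k' y := by
    intro h1
    have h2 : Algebra.IsAlgebraic k k' := algebraicClosure.isAlgebraic k M
    exact hy (h1.restrictScalars k)
  let c' : k' := ⟨c, hck⟩
  have hc'0 : c' ≠ 0 := fun h => hc0 (congrArg Subtype.val h)
  let A : k' := algebraMap k k' α
  let A' : k' := algebraMap k k' β
  have hA : A ≠ 0 := (map_ne_zero _).2 hα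
  have hA' : A' ≠ 0 := (map_ne_zero _).2 hβ
  have hAA' : A ≠ A' := fun h => hαβ ((algebraMap k k').injective h)
  let Q : Polynomial k' := Polynomial.X ^ a.toNat * (Polynomial.X - Polynomial.C A) ^ b.toNat *
    (Polynomial.X - Polynomial.C A') ^ (-b).toNat -
    Polynomial.C c' * (Polynomial.X ^ (-a).toNat * (Polynomial.X - Polynomial.C A) ^ (-b).toNat *
      (Polynomial.X - Polynomial.C A') ^ b.toNat)
  have hQ : Q = 0 := by
    by_contra hQ0
    apply hyk
    refine ⟨Q, hQ0, ?_⟩
    simp only [Q, map_sub, map_mul, map_pow, Polynomial.aeval_X, Polynomial.aeval_C]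
    change y ^ a.toNat * (y - algebraMap k M α) ^ b.toNat * (y - algebraMap k M β) ^ (-b).toNat -
      c * (y ^ (-a).toNat * (y - algebraMap k M α) ^ (-b).toNat *
        (y - algebraMap k M β) ^ b.toNat) = 0
    have ha : a = a.toNat - (-a).toNat := by omega
    have hb : b = b.toNat - (-b).toNat := by omega
    have e1 : y ^ a * y ^ (-a).toNat = y ^ a.toNat := by
      rw [← zpow_natCast y (-a).toNat, ← zpow_natCast y a.toNat, ← zpow_add₀ hy0]
      congr 1
      omega
    have e2 : ∀ x : M, x ≠ 0 → x ^ b * x ^ (-b).toNat = x ^ b.toNat := by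
      intro x hx
      rw [← zpow_natCast x (-b).toNat, ← zpow_natCast x b.toNat, ← zpow_add₀ hx]
      congr 1
      omega
    have e3 := e2 _ (hne α)
    have e4 := e2 _ (hne β)
    have h5 : (y - algebraMap k M β) ^ b ≠ 0 := zpow_ne_zero _ (hne β)
    rw [hcdef, div_zpow, ← e1, ← e3, ← e4]
    field_simp
    ring
  have hev : ∀ x : k', x ^ a.toNat * (x - A) ^ b.toNat * (x - A') ^ (-b).toNat =
      c' * (x ^ (-a).toNat * (x - A) ^ (-b).toNat * (x - A') ^ b.toNat) := by
    intro x
    have h1 := congrArg (Polynomial.eval x) hQ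
    simp only [Q, Polynomial.eval_sub, Polynomial.eval_mul, Polynomial.eval_pow, Polynomial.eval_X,
      Polynomial.eval_C, Polynomial.eval_zero] at h1
    exact sub_eq_zero.1 h1
  have ha0 : a = 0 := by
    by_contra ha
    have h1 := hev 0
    have h2 : (0 : k') - A ≠ 0 := by rw [zero_sub]; exact neg_ne_zero.2 hA
    have h3 : (0 : k') - A' ≠ 0 := by rw [zero_sub]; exact neg_ne_zero.2 hA'
    rcases lt_or_gt_of_ne ha with h | h
    · have e1 : a.toNat = 0 := by omega
      have e2 : (-a).toNat ≠ 0 := by omega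
      rw [e1, pow_zero, one_mul, zero_pow e2, zero_mul, zero_mul, mul_zero] at h1
      exact mul_ne_zero (pow_ne_zero _ h2) (pow_ne_zero _ h3) h1
    · have e1 : (-a).toNat = 0 := by omega
      have e2 : a.toNat ≠ 0 := by omega
      rw [e1, pow_zero, one_mul, zero_pow e2, zero_mul, zero_mul] at h1
      exact mul_ne_zero hc'0 (mul_ne_zero (pow_ne_zero _ h2) (pow_ne_zero _ h3)) h1.symm
  have hb : b ≠ 0 := by
    rcases hab with h | h
    · exact absurd ha0 h
    · exact h
  have h1 := hev A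
  rw [ha0] at h1
  simp only [neg_zero, Int.toNat_zero, pow_zero, one_mul, sub_self] at h1
  have h3 : A - A' ≠ 0 := sub_ne_zero.2 hAA'
  rcases lt_or_gt_of_ne hb with h | h
  · have e1 : b.toNat = 0 := by omega
    have e2 : (-b).toNat ≠ 0 := by omega
    rw [e1, pow_zero, one_mul, zero_pow e2, zero_mul, mul_zero] at h1
    exact pow_ne_zero _ h3 h1
  · have e1 : (-b).toNat = 0 := by omega
    have e2 : b.toNat ≠ 0 := by omega
    rw [e1, pow_zero, pow_zero, one_mul, zero_pow e2, zero_mul] at h1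
    exact mul_ne_zero hc'0 (pow_ne_zero _ h3) h1.symm

/-- going up -/
lemma alg_up {K F E M : Type} [Field K] [Field F] [Field E] [Field M] [Algebra K F] [Algebra F M]
    [Algebra K M] [IsScalarTower K F M] [Algebra K E] [Algebra E M] [IsScalarTower K E M] {f : F}
    (hF : Algebra.IsAlgebraic (IntermediateField.adjoin K {f}) F) [Algebra.IsAlgebraic F M] :
    Algebra.IsAlgebraic (IntermediateField.adjoin E {algebraMap F M f}) M := by
  refine ⟨fun m => ?_⟩
  have h1 : IsAlgebraic (IntermediateField.adjoin K {f}) m :=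
    (Algebra.IsAlgebraic.isAlgebraic (R := F) m).restrictScalars _
  obtain ⟨q, hq0, hq⟩ := h1
  let g : F →ₐ[K] M := IsScalarTower.toAlgHom K F M
  have hle : (IntermediateField.adjoin K {f}).map g ≤
      (IntermediateField.adjoin E {algebraMap F M f}).restrictScalars K := by
    rw [IntermediateField.adjoin_map, Set.image_singleton, IntermediateField.adjoin_simple_le_iff]
    exact IntermediateField.mem_adjoin_simple_self E (algebraMap F M f)
  let i : IntermediateField.adjoin K {f} →+* IntermediateField.adjoin E {algebraMap F M f} :=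
    ((algebraMap F M).comp (algebraMap (IntermediateField.adjoin K {f}) F)).codRestrict
      (IntermediateField.adjoin E {algebraMap F M f}).toSubring
      (fun z => hle ⟨z, z.2, rfl⟩)
  refine ⟨q.map i, (Polynomial.map_ne_zero_iff i.injective).2 hq0, ?_⟩
  rw [Polynomial.aeval_def, Polynomial.eval₂_map]
  exact hq

end indep

section one

variable {K F M B : Type} [Field K] [NumberField K] [Field F] [Field M] [Field B] [Algebra K F]
  [Algebra F M] [Algebra K M] [IsScalarTower K F M] [Algebra K B] [IsAlgClosed B]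
  [Algebra.IsAlgebraic K B] [Algebra.IsAlgebraic F M]

/-- the transported point, over an extension -/
noncomputable def trPt (s : GalSec K F M B) (E : IntermediateField K B) [Algebra E M]
    (hEM : ∀ z : E, algebraMap E M z = s.j z) {p : ℕ} [Fact p.Prime] {φ : K →+* PadicAlgCl p}
    (P : Pt K M φ) (Φ : E →+* PadicAlgCl p) (g0 : B ≃ₐ[K] B) (hg0 : Adm s E P Φ g0) :
    Pt E M Φ where
  W := P.W.comap (s.s g0 : M →+* M)
  ρ := P.ρ.comp (((s.s g0 : M →+* M).comp (P.W.comap (s.s g0 : M →+* M)).subtype).codRestrict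
    P.W.toSubring (fun z => z.2))
  loc := by
    intro z hz
    have h1 := P.loc ⟨s.s g0 z, z.2⟩ hz
    change s.s g0 ((z : M)⁻¹) ∈ P.W
    rw [map_inv₀]
    exact h1
  comm := by
    intro c
    have h1 : P.Val (s.s g0 (algebraMap E M c)) (Φ c) := by
      rw [hEM, s.sec, ← hg0 c]
      exact P.val_emb s.j _
    obtain ⟨h2, h3⟩ := h1
    exact ⟨h2, h3⟩

lemma trPt_val {s : GalSec K F M B} {E : IntermediateField K B} [Algebra E M]
    {hEM : ∀ z : E, algebraMap E M z = s.j z} {p : ℕ} [Fact p.Prime] {φ : K →+* PadicAlgCl p}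
    {P : Pt K M φ} {Φ : E →+* PadicAlgCl p} {g0 : B ≃ₐ[K] B} {hg0 : Adm s E P Φ g0} {y : M}
    {c : PadicAlgCl p} (h : P.Val (s.s g0 y) c) : (trPt s E hEM P Φ g0 hg0).Val y c := by
  obtain ⟨h2, h3⟩ := h
  exact ⟨h2, h3⟩

lemma val_inv {p : ℕ} [Fact p.Prime] {φ : K →+* PadicAlgCl p} {P : Pt K M φ} {z : M}
    {c : PadicAlgCl p} (h : P.Val z c) (hc : c ≠ 0) : P.Val z⁻¹ c⁻¹ := by
  obtain ⟨h1, h2⟩ := h
  have h3 : z⁻¹ ∈ P.W := P.loc ⟨z, h1⟩ (by rw [h2]; exact hc)
  obtain ⟨d, hd⟩ := P.val_of_mem h3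
  have hz0 : z ≠ 0 := by
    rintro rfl
    apply hc
    rw [← h2]
    exact map_zero P.ρ
  have h4 : P.Val (z * z⁻¹) (c * d) := Pt.Val.mul ⟨h1, h2⟩ hd
  rw [mul_inv_cancel₀ hz0] at h4
  have h5 : P.Val (1 : M) 1 := ⟨one_mem _, map_one P.ρ⟩
  have h6 : c * d = 1 := h4.unique h5
  rw [inv_eq_of_mul_eq_one_right h6]
  exact hd

/-- the second function -/
lemma second_root {f : F} {α : K} (hα : α ≠ 0) {y : M} (h : IsRoot f (3 * α) (2 * α ^ 2) y)
    (hf0 : f ≠ 0) : y - algebraMap K M (2 * α) ≠ 0 ∧ y - algebraMap K M α ≠ 0 ∧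
      IsRoot (algebraMap K F α / (2 * f)) (3 / 2 : K) (1 / 2)
        ((y - algebraMap K M α) / (y - algebraMap K M (2 * α))) := by
  have hδ : (2 * α ^ 2 : K) ≠ 0 := mul_ne_zero two_ne_zero (pow_ne_zero _ hα)
  have hy0 := h.ne_zero hδ
  have hcM : CharZero M := charZero_of_injective_algebraMap (algebraMap K M).injective
  set F' := algebraMap F M f with hF'
  set a := algebraMap K M α with ha
  have hF0 : F' ≠ 0 := (map_ne_zero _).2 hf0
  have e1 : algebraMap K M (3 * α) = 3 * a := by rw [map_mul, map_ofNat]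
  have e2 : algebraMap K M (2 * α ^ 2) = 2 * a ^ 2 := by rw [map_mul, map_pow, map_ofNat]
  have e3 : algebraMap K M (2 * α) = 2 * a := by rw [map_mul, map_ofNat]
  unfold IsRoot at h
  rw [e1, e2] at h
  have h1 : (y - a) * (y - 2 * a) = F' * y := by linear_combination h
  have h2 : y - 2 * a ≠ 0 := by
    intro h0
    rw [h0, mul_zero] at h1
    exact mul_ne_zero hF0 hy0 h1.symm
  have h3 : y - a ≠ 0 := by
    intro h0
    rw [h0, zero_mul] at h1
    exact mul_ne_zero hF0 hy0 h1.symm
  rw [e3]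
  refine ⟨h2, h3, ?_⟩
  unfold IsRoot
  have e4 : algebraMap F M (algebraMap K F α / (2 * f)) = a / (2 * F') := by
    rw [map_div₀, map_mul, map_ofNat, ← IsScalarTower.algebraMap_apply]
  have e5 : algebraMap K M (3 / 2) = 3 / 2 := by rw [map_div₀, map_ofNat, map_ofNat]
  have e6 : algebraMap K M (1 / 2) = 1 / 2 := by rw [map_div₀, map_ofNat, map_one]
  rw [e4, e5, e6]
  have h4 : F' = (y - a) * (y - 2 * a) / y := by
    rw [h1]
    field_simp
  rw [h4]
  have ha0 : a ≠ 0 := (map_ne_zero _).2 hα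
  obtain ⟨z, hz⟩ : ∃ z, z = y - 2 * a := ⟨_, rfl⟩
  obtain ⟨w, hw⟩ : ∃ w, w = y - a := ⟨_, rfl⟩
  have hy : y = 2 * w - z := by rw [hz, hw]; ring
  have haz : a = w - z := by rw [hz, hw]; ring
  rw [← hz] at h2 ⊢
  rw [← hw] at h3 ⊢
  rw [hy] at hy0 ⊢
  rw [haz] at ha0 ⊢
  field_simp
  ring

/-- **One exceptional archimedean place.** -/
theorem main_one (s : GalSec K F M B) (f : F) (hf : Transcendental K f)
    (hF : Algebra.IsAlgebraic (IntermediateField.adjoin K {f}) F) (α : K) (hα : α ≠ 0) (y : M)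
    (h : IsRoot f (3 * α) (2 * α ^ 2) y) (hroot : ∀ N : ℕ, 0 < N → ∃ w : M, w ≠ 0 ∧ w ^ N = y)
    (hroot' : ∀ N : ℕ, 0 < N → ∃ w : M, w ≠ 0 ∧
      w ^ N = (y - algebraMap K M α) / (y - algebraMap K M (2 * α)))
    (P : ∀ (p : ℕ) [Fact p.Prime] (φ : K →+* PadicAlgCl p), Pt K M φ)
    (hP : ∀ (p : ℕ) [Fact p.Prime] (φ : K →+* PadicAlgCl p), s.GivenBy (P p φ))
    (X : ∀ (p : ℕ) [Fact p.Prime], (K →+* PadicAlgCl p) → PadicAlgCl p)
    (hX : ∀ (p : ℕ) [Fact p.Prime] (φ : K →+* PadicAlgCl p),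
      (P p φ).Val (algebraMap F M f) (X p φ))
    (hX0 : ∀ (p : ℕ) [Fact p.Prime] (φ : K →+* PadicAlgCl p), X p φ ≠ 0) (hfew : Few X)
    (hfew' : Few (fun p _ φ => (X p φ)⁻¹)) (v0 : InfinitePlace K)
    (hv : ∀ v : InfinitePlace K, v ≠ v0 → Moves s y v) :
    ∃ ξ : K, ∀ (p : ℕ) [Fact p.Prime] (φ : K →+* PadicAlgCl p), X p φ = φ ξ := by
  classical
  have hA : IsAlgClosure K B := ⟨inferInstance, inferInstance⟩
  have hNo : Normal K B := IsAlgClosure.normal K B
  have hG' : IsGalois K B := ⟨⟩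
  have hδ : (2 * α ^ 2 : K) ≠ 0 := mul_ne_zero two_ne_zero (pow_ne_zero _ hα)
  have hf0 : f ≠ 0 := by
    rintro rfl
    exact hf isAlgebraic_zero
  obtain ⟨hy2, hy1, h2⟩ := second_root hα h hf0
  set y2 := (y - algebraMap K M α) / (y - algebraMap K M (2 * α)) with hy2def
  obtain ⟨E, hfd, hE⟩ := exists_field s y
  have : NumberField E := NumberField.of_module_finite K E
  have hG := isGalois_field h hδ hE
  obtain ⟨Y, hY, hD, hrel⟩ := h.dat hδ hE hroot P hP X hX hfew
  by_cases hτ : ∃ τ, s.s τ y ≠ y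
  · obtain ⟨τ, hτ⟩ := hτ
    -- the second function
    have hE2 : ∀ g : B ≃ₐ[K] B, g ∈ E.fixingSubgroup ↔ s.s g y2 = y2 := by
      intro g
      rw [hE]
      have e1 : s.s g y2 = (s.s g y - algebraMap K M α) / (s.s g y - algebraMap K M (2 * α)) := by
        rw [hy2def, map_div₀, map_sub, map_sub, s_alg, s_alg]
      constructor
      · intro h1
        rw [e1, h1]
      · intro h1
        rw [e1, hy2def] at h1
        have h3 : s.s g y - algebraMap K M (2 * α) ≠ 0 := by
          rw [← s_alg s g (2 * α), ← map_sub]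
          exact (map_ne_zero _).2 hy2
        rw [div_eq_div_iff h3 hy2, map_mul, map_ofNat] at h1
        have h4 : algebraMap K M α ≠ 0 := (map_ne_zero _).2 hα
        have h5 : algebraMap K M α * (s.s g y - y) = 0 := by linear_combination -h1
        exact sub_eq_zero.1 ((mul_eq_zero.1 h5).resolve_left h4)
    have hα2 : α / 2 ≠ 0 := div_ne_zero hα two_ne_zero
    have hX2 : ∀ (p : ℕ) [Fact p.Prime] (φ : K →+* PadicAlgCl p),
        (P p φ).Val (algebraMap F M (algebraMap K F α / (2 * f))) (φ (α / 2) * (X p φ)⁻¹) := by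
      intro p _ φ
      have e1 : algebraMap F M (algebraMap K F α / (2 * f)) =
          algebraMap K M (α / 2) * (algebraMap F M f)⁻¹ := by
        rw [map_div₀, map_mul, map_ofNat, ← IsScalarTower.algebraMap_apply, map_div₀, map_ofNat]
        rw [div_mul_eq_div_div, div_eq_mul_inv]
      rw [e1]
      exact Pt.Val.mul ((P p φ).comm _) (val_inv (hX p φ) (hX0 p φ))
    have hfew2 : Few (fun p _ φ => φ (α / 2) * (X p φ)⁻¹) := by
      obtain ⟨N, hN, D, hD, H⟩ := hfew'
      have : Algebra.IsAlgebraic ℚ K := inferInstance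
      obtain ⟨D1, hD1, H1⟩ := units_ae ({α / 2} : Finset K) (by
        intro c hc
        rw [Finset.mem_singleton.1 hc]
        exact hα2)
      refine ⟨N, hN, D * D1, Nat.mul_pos hD hD1, fun p _ φ hp z hz => ?_⟩
      rw [norm_mul, H1 p (fun h => hp (h.mul_left _)) φ _ (Finset.mem_singleton_self _), one_mul]
      exact H p φ (fun h => hp (h.mul_right _)) z hz
    have hδ2 : (1 / 2 : K) ≠ 0 := by norm_num
    obtain ⟨Y2, hY2, hD2, hrel2⟩ := h2.dat hδ2 hE2 hroot' P hP _ hX2 hfew2
    set ρ := rho E τ fun z hz => h.mem_of_mem hδ hE τ hz with hρ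
    have hτ2 : s.s τ y2 ≠ y2 := fun h0 => hτ ((hE τ).1 ((hE2 τ).2 h0))
    have hcr1 : ∀ (p : ℕ) [Fact p.Prime] (Φ : E →+* PadicAlgCl p),
        Y p Φ * Y p (Φ.comp ρ) = Φ (algebraMap K E (2 * α ^ 2)) := fun p _ Φ =>
      conj_rel h hδ hE hY hτ Φ
    have hcr2 : ∀ (p : ℕ) [Fact p.Prime] (Φ : E →+* PadicAlgCl p),
        Y2 p Φ * Y2 p (Φ.comp ρ) = Φ (algebraMap K E (1 / 2)) := fun p _ Φ =>
      conj_rel h2 hδ2 hE2 hY2 hτ2 Φ
    obtain ⟨ε, hi, hi', hε0, W, hW, hU⟩ := rel_units (K := K) ρ (fun c => rho_alg τ _ c)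
      (card_places h hδ hE hτ v0 hv)
    let algEM : Algebra E M := ((s.j : B →+* M).comp (algebraMap E B)).toAlgebra
    have hEM : ∀ z : E, algebraMap E M z = s.j z := fun _ => rfl
    have hst : IsScalarTower K E M := IsScalarTower.of_algebraMap_eq fun c => by
      rw [hEM]
      exact (s.j.commutes c).symm
    have hfE : Transcendental E (algebraMap F M f) := by
      intro h0
      have h3 : IsAlgebraic K (algebraMap F M f) := h0.restrictScalars K
      exact hf ((isAlgebraic_algebraMap_iff (algebraMap F M).injective).1 h3)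
    have hyE : Transcendental E y := by
      intro h0
      apply hfE
      have hy0 := h.ne_zero hδ
      have e1 : algebraMap F M f = y + algebraMap E M (algebraMap K E (2 * α ^ 2)) * y⁻¹ -
          algebraMap E M (algebraMap K E (3 * α)) := by
        rw [← IsScalarTower.algebraMap_apply, ← IsScalarTower.algebraMap_apply]
        have e2 : ∀ F' d e : M, y ^ 2 - (F' + e) * y + d = 0 → F' = y + d * y⁻¹ - e := by
          intro F' d e h'
          field_simp
          linear_combination -h'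
        exact e2 _ _ _ h
      rw [e1]
      exact (h0.add ((isAlgebraic_algebraMap _).mul h0.inv)).sub (isAlgebraic_algebraMap _)
    have hαE : algebraMap K E α ≠ 0 := (map_ne_zero _).2 hα
    have hα2E : algebraMap K E (2 * α) ≠ 0 := (map_ne_zero _).2 (mul_ne_zero two_ne_zero hα)
    have hααE : algebraMap K E α ≠ algebraMap K E (2 * α) := by
      intro h0
      have h3 := (algebraMap K E).injective h0
      apply hα
      linear_combination -h3
    have hind : ∀ a b : ℤ, (a ≠ 0 ∨ b ≠ 0) → Transcendental E ((y ^ 2) ^ a * (y2 ^ 2) ^ b) := by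
      intro a b hab
      have h3 := moebius_indep hyE hαE hα2E hααE (a := 2 * a) (b := 2 * b) (by omega)
      have e1 : (y ^ 2) ^ a * (y2 ^ 2) ^ b = y ^ (2 * a) * ((y - algebraMap E M (algebraMap K E α)) /
          (y - algebraMap E M (algebraMap K E (2 * α)))) ^ (2 * b) := by
        have e2 : ∀ (x : M) (c : ℤ), (x ^ 2) ^ c = x ^ (2 * c) := fun x c => by
          rw [zpow_mul]
          norm_cast
        rw [← IsScalarTower.algebraMap_apply, ← IsScalarTower.algebraMap_apply, e2, e2, hy2def]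
      rw [e1]
      exact h3
    have hy2E : Transcendental E (y ^ 2) := by
      have := hind 1 0 (Or.inl one_ne_zero)
      simpa using this
    have hMalg := alg_exchange hfE (alg_up (K := K) (E := E) (M := M) hF) hy2E
    choose g0 hg0 using fun (p : ℕ) [Fact p.Prime] (Φ : E →+* PadicAlgCl p) =>
      exists_adm s E (P p (Φ.comp (algebraMap K E))) Φ rfl
    let YY : Fin 2 → ∀ (p : ℕ) [Fact p.Prime], (E →+* PadicAlgCl p) → PadicAlgCl p :=
      fun i p _ Φ => if i = 0 then Y p Φ else Y2 p Φ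
    let yy : Fin 2 → M := fun i => if i = 0 then y else y2
    obtain ⟨η, hη⟩ := global_one (Y := YY) (ρ := ρ) (b := -1) (m := 2)
      (κ := fun i => if i = 0 then algebraMap K E (2 * α ^ 2) else algebraMap K E (1 / 2))
      (fun i => by
        fin_cases i
        · exact hD
        · exact hD2)
      (fun i => by
        fin_cases i
        · exact (map_ne_zero _).2 hδ
        · exact (map_ne_zero _).2 hδ2) two_pos
      (fun i p _ Φ => by
        fin_cases i
        · change Y p Φ ^ 2 = Φ (algebraMap K E (2 * α ^ 2)) * (Y p Φ * (Y p (Φ.comp ρ)) ^ (-1 : ℤ))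
          have h3 := hD.ne p (Φ.comp ρ)
          rw [RingHom.comp_id, map_zero, sub_zero] at h3
          rw [← hcr1 p Φ, zpow_neg_one]
          field_simp
        · change Y2 p Φ ^ 2 = Φ (algebraMap K E (1 / 2)) * (Y2 p Φ * (Y2 p (Φ.comp ρ)) ^ (-1 : ℤ))
          have h3 := hD2.ne p (Φ.comp ρ)
          rw [RingHom.comp_id, map_zero, sub_zero] at h3
          rw [← hcr2 p Φ, zpow_neg_one]
          field_simp) hi hi' hε0 W hW hU yy
      (fun i => by
        fin_cases i
        · exact h.ne_zero hδ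
        · exact div_ne_zero hy1 hy2) 0 1 hind hMalg
      (fun p _ Φ => trPt s E hEM (P p (Φ.comp (algebraMap K E))) Φ (g0 p Φ) (hg0 p Φ))
      (fun i p _ Φ => by
        fin_cases i
        · exact trPt_val (hY p _ Φ rfl _ (hg0 p Φ))
        · exact trPt_val (hY2 p _ Φ rfl _ (hg0 p Φ)))
    obtain ⟨β, hβ⟩ := value_of_root hrel hδ (η 0) (fun p _ Φ => hη p Φ 0)
    exact descend_galois X β hβ
  · push Not at hτ
    have hall : ∀ v : InfinitePlace K, v = v0 := by
      intro v
      by_contra hne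
      obtain ⟨-, τ, -, -, h3⟩ := hv v hne
      exact h3 (hτ τ)
    have hcK : Fintype.card (InfinitePlace K) ≤ 1 := by
      rw [Fintype.card_le_one_iff]
      intro a b
      rw [hall a, hall b]
    have htop : E.fixingSubgroup = ⊤ := by
      rw [Subgroup.eq_top_iff']
      intro g
      rw [hE]
      exact hτ g
    have hfr : Module.finrank K E = 1 := by
      rw [IntermediateField.finrank_eq_fixingSubgroup_index, htop, Subgroup.index_top]
    have hcE : Fintype.card (InfinitePlace E) ≤ 1 := by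
      rw [InfinitePlace.card_eq_card_isUnramifiedIn K E, hfr]
      have h3 := Finset.card_le_univ ({w : InfinitePlace K | w.IsUnramifiedIn E} : Finset _)
      omega
    obtain ⟨W, hW, hU⟩ := units_zero (RingHom.id E) hcE
    obtain ⟨η, hη⟩ := global_zero hD (RingHom.id E) 0 1 one_ne_zero one_pos (fun p _ Φ => by
      rw [map_one, one_mul, zpow_zero, mul_one, pow_one]) W hW hU
    obtain ⟨β, hβ⟩ := value_of_root hrel hδ η hη
    exact descend_galois X β hβ

end one

end Pool.Agent.H886.SB
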