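import Pool.Agent.H886.SB.Main

/-!
# Two independent units on a double covering
-/

set_option autoImplicit false
set_option linter.unusedSectionVars false

namespace Pool.Agent.H886.SB

open NumberField IsDedekindDomain Pool.Agent.W518.TC Pool.Agent.Q33.SecL
open Pool.Agent.H886.Exp

section pair

variable {K F M B : Type} [Field K] [NumberField K] [Field F] [Field M] [Field B] [Algebra K F]
  [Algebra F M] [Algebra K M] [IsScalarTower K F M] [Algebra K B] [IsAlgClosed B]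
  [Algebra.IsAlgebraic K B] [Algebra.IsAlgebraic F M]

/-- **One exceptional archimedean place, two independent units.** -/
theorem main_pair (s : GalSec K F M B) (f f2 : F) (e δ e2 δ2 : K) (hδ : δ ≠ 0) (hδ2 : δ2 ≠ 0)
    (y y2 : M) (h : IsRoot f e δ y) (h2 : IsRoot f2 e2 δ2 y2)
    (hyy : ∀ g : B ≃ₐ[K] B, s.s g y2 = y2 ↔ s.s g y = y)
    (hind : ∀ a b : ℤ, (a ≠ 0 ∨ b ≠ 0) → Transcendental K (y ^ a * y2 ^ b))
    (hF : ∃ t : F, Transcendental K t ∧ Algebra.IsAlgebraic (IntermediateField.adjoin K {t}) F)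
    (hroot : ∀ N : ℕ, 0 < N → ∃ w : M, w ≠ 0 ∧ w ^ N = y)
    (hroot' : ∀ N : ℕ, 0 < N → ∃ w : M, w ≠ 0 ∧ w ^ N = y2)
    (P : ∀ (p : ℕ) [Fact p.Prime] (φ : K →+* PadicAlgCl p), Pt K M φ)
    (hP : ∀ (p : ℕ) [Fact p.Prime] (φ : K →+* PadicAlgCl p), s.GivenBy (P p φ))
    (X X2 : ∀ (p : ℕ) [Fact p.Prime], (K →+* PadicAlgCl p) → PadicAlgCl p)
    (hX : ∀ (p : ℕ) [Fact p.Prime] (φ : K →+* PadicAlgCl p),
      (P p φ).Val (algebraMap F M f) (X p φ))
    (hX2 : ∀ (p : ℕ) [Fact p.Prime] (φ : K →+* PadicAlgCl p),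
      (P p φ).Val (algebraMap F M f2) (X2 p φ)) (hfew : Few X) (hfew2 : Few X2)
    (v0 : InfinitePlace K) (hv : ∀ v : InfinitePlace K, v ≠ v0 → Moves s y v) :
    ∃ ξ ξ2 : K, ∀ (p : ℕ) [Fact p.Prime] (φ : K →+* PadicAlgCl p),
      X p φ = φ ξ ∧ X2 p φ = φ ξ2 := by
  classical
  have hA : IsAlgClosure K B := ⟨inferInstance, inferInstance⟩
  have hNo : Normal K B := IsAlgClosure.normal K B
  have hG' : IsGalois K B := ⟨⟩
  obtain ⟨E, hfd, hE⟩ := exists_field s y
  have : NumberField E := NumberField.of_module_finite K E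
  have hG := isGalois_field h hδ hE
  obtain ⟨Y, hY, hD, hrel⟩ := h.dat hδ hE hroot P hP X hX hfew
  have hE2 : ∀ g : B ≃ₐ[K] B, g ∈ E.fixingSubgroup ↔ s.s g y2 = y2 := fun g => by
    rw [hE, hyy]
  obtain ⟨Y2, hY2, hD2, hrel2⟩ := h2.dat hδ2 hE2 hroot' P hP _ hX2 hfew2
  by_cases hτ : ∃ τ, s.s τ y ≠ y
  · obtain ⟨τ, hτ⟩ := hτ
    set ρ := rho E τ fun z hz => h.mem_of_mem hδ hE τ hz with hρ
    have hτ2 : s.s τ y2 ≠ y2 := fun h0 => hτ ((hyy τ).1 h0)
    have hcr1 : ∀ (p : ℕ) [Fact p.Prime] (Φ : E →+* PadicAlgCl p),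
        Y p Φ * Y p (Φ.comp ρ) = Φ (algebraMap K E δ) := fun p _ Φ =>
      conj_rel h hδ hE hY hτ Φ
    have hcr2 : ∀ (p : ℕ) [Fact p.Prime] (Φ : E →+* PadicAlgCl p),
        Y2 p Φ * Y2 p (Φ.comp ρ) = Φ (algebraMap K E δ2) := fun p _ Φ =>
      conj_rel h2 hδ2 hE2 hY2 hτ2 Φ
    obtain ⟨ε, hi, hi', hε0, W, hW, hU⟩ := rel_units (K := K) ρ (fun c => rho_alg τ _ c)
      (card_places h hδ hE hτ v0 hv)
    let algEM : Algebra E M := ((s.j : B →+* M).comp (algebraMap E B)).toAlgebra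
    have hEM : ∀ z : E, algebraMap E M z = s.j z := fun _ => rfl
    have hst : IsScalarTower K E M := IsScalarTower.of_algebraMap_eq fun c => by
      rw [hEM]
      exact (s.j.commutes c).symm
    have halgKE : Algebra.IsAlgebraic K E := inferInstance
    have hindE : ∀ a b : ℤ, (a ≠ 0 ∨ b ≠ 0) → Transcendental E ((y ^ 2) ^ a * (y2 ^ 2) ^ b) := by
      intro a b hab h0
      have e2 : ∀ (x : M) (c : ℤ), (x ^ 2) ^ c = x ^ (2 * c) := fun x c => by
        rw [zpow_mul]
        norm_cast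
      refine hind (2 * a) (2 * b) (by omega) ?_
      rw [← e2, ← e2]
      exact h0.restrictScalars K
    have hy2E : Transcendental E (y ^ 2) := by
      have := hindE 1 0 (Or.inl one_ne_zero)
      simpa using this
    obtain ⟨t, ht, hFt⟩ := hF
    have htE : Transcendental E (algebraMap F M t) := by
      intro h0
      have h3 : IsAlgebraic K (algebraMap F M t) := h0.restrictScalars K
      exact ht ((isAlgebraic_algebraMap_iff (algebraMap F M).injective).1 h3)
    have hMalg := alg_exchange htE (alg_up (K := K) (E := E) (M := M) hFt) hy2E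
    choose g0 hg0 using fun (p : ℕ) [Fact p.Prime] (Φ : E →+* PadicAlgCl p) =>
      exists_adm s E (P p (Φ.comp (algebraMap K E))) Φ rfl
    let YY : Fin 2 → ∀ (p : ℕ) [Fact p.Prime], (E →+* PadicAlgCl p) → PadicAlgCl p :=
      fun i p _ Φ => if i = 0 then Y p Φ else Y2 p Φ
    let yy : Fin 2 → M := fun i => if i = 0 then y else y2
    obtain ⟨η, hη⟩ := global_one (Y := YY) (ρ := ρ) (b := -1) (m := 2)
      (κ := fun i => if i = 0 then algebraMap K E δ else algebraMap K E δ2)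
      (fun i => by
        fin_cases i
        · exact hD
        · exact hD2)
      (fun i => by
        fin_cases i
        · exact (map_ne_zero _).2 hδ
        · exact (map_ne_zero _).2 hδ2) two_pos
      (fun i p _ Φ => by
        fin_cases i
        · change Y p Φ ^ 2 = Φ (algebraMap K E δ) * (Y p Φ * (Y p (Φ.comp ρ)) ^ (-1 : ℤ))
          have h3 := hD.ne p (Φ.comp ρ)
          rw [RingHom.comp_id, map_zero, sub_zero] at h3
          rw [← hcr1 p Φ, zpow_neg_one]
          field_simp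
        · change Y2 p Φ ^ 2 = Φ (algebraMap K E δ2) * (Y2 p Φ * (Y2 p (Φ.comp ρ)) ^ (-1 : ℤ))
          have h3 := hD2.ne p (Φ.comp ρ)
          rw [RingHom.comp_id, map_zero, sub_zero] at h3
          rw [← hcr2 p Φ, zpow_neg_one]
          field_simp) hi hi' hε0 W hW hU yy
      (fun i => by
        fin_cases i
        · exact h.ne_zero hδ
        · exact h2.ne_zero hδ2) 0 1 hindE hMalg
      (fun p _ Φ => trPt s E hEM (P p (Φ.comp (algebraMap K E))) Φ (g0 p Φ) (hg0 p Φ))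
      (fun i p _ Φ => by
        fin_cases i
        · exact trPt_val (hY p _ Φ rfl _ (hg0 p Φ))
        · exact trPt_val (hY2 p _ Φ rfl _ (hg0 p Φ)))
    obtain ⟨β, hβ⟩ := value_of_root hrel hδ (η 0) (fun p _ Φ => hη p Φ 0)
    obtain ⟨β2, hβ2⟩ := value_of_root hrel2 hδ2 (η 1) (fun p _ Φ => hη p Φ 1)
    obtain ⟨ξ, hξ⟩ := descend_galois X β hβ
    obtain ⟨ξ2, hξ2⟩ := descend_galois X2 β2 hβ2
    exact ⟨ξ, ξ2, fun p _ φ => ⟨hξ p φ, hξ2 p φ⟩⟩
  · push Not at hτ
    have hall : ∀ v : InfinitePlace K, v = v0 := by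
      intro v
      by_contra hne
      obtain ⟨-, τ, -, -, h3⟩ := hv v hne
      exact h3 (hτ τ)
    have hcK : Fintype.card (InfinitePlace K) ≤ 1 := by
      rw [Fintype.card_le_one_iff]
      intro a b
      rw [hall a, hall b]
    have htop : E.fixingSubgroup = ⊤ := by
      rw [Subgroup.eq_top_iff']
      intro g
      rw [hE]
      exact hτ g
    have hfr : Module.finrank K E = 1 := by
      rw [IntermediateField.finrank_eq_fixingSubgroup_index, htop, Subgroup.index_top]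
    have hcE : Fintype.card (InfinitePlace E) ≤ 1 := by
      rw [InfinitePlace.card_eq_card_isUnramifiedIn K E, hfr]
      have h3 := Finset.card_le_univ ({w : InfinitePlace K | w.IsUnramifiedIn E} : Finset _)
      omega
    obtain ⟨W, hW, hU⟩ := units_zero (RingHom.id E) hcE
    obtain ⟨η, hη⟩ := global_zero hD (RingHom.id E) 0 1 one_ne_zero one_pos (fun p _ Φ => by
      rw [map_one, one_mul, zpow_zero, mul_one, pow_one]) W hW hU
    obtain ⟨η2, hη2⟩ := global_zero hD2 (RingHom.id E) 0 1 one_ne_zero one_pos (fun p _ Φ => by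
      rw [map_one, one_mul, zpow_zero, mul_one, pow_one]) W hW hU
    obtain ⟨β, hβ⟩ := value_of_root hrel hδ η hη
    obtain ⟨β2, hβ2⟩ := value_of_root hrel2 hδ2 η2 hη2
    obtain ⟨ξ, hξ⟩ := descend_galois X β hβ
    obtain ⟨ξ2, hξ2⟩ := descend_galois X2 β2 hβ2
    exact ⟨ξ, ξ2, fun p _ φ => ⟨hξ p φ, hξ2 p φ⟩⟩

end pair

end Pool.Agent.H886.SB
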