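import Pool.Agent.H886.SB.Quad

/-!
# Adelic numbers given by units on double coverings
-/

set_option autoImplicit false
set_option linter.unusedSectionVars false

namespace Pool.Agent.H886.SB

open NumberField IsDedekindDomain Pool.Agent.W518.TC Pool.Agent.Q33.SecL
open Pool.Agent.H886.Exp

section norms

variable {p : ℕ} [Fact p.Prime]

/-- the norms of the roots of a quadratic equation -/
lemma norm_root {X e δ Y : PadicAlgCl p} (h : Y ^ 2 - (X + e) * Y + δ = 0) (he : ‖e‖ ≤ 1)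
    (hδ : ‖δ‖ = 1) : ‖Y‖ = 1 ∨ (1 < ‖Y‖ ∧ ‖X‖ = ‖Y‖) ∨ (‖Y‖ < 1 ∧ ‖X‖ = ‖Y‖⁻¹) := by
  have hY0 : Y ≠ 0 := by
    rintro rfl
    rw [zero_pow two_ne_zero, mul_zero, sub_zero, zero_add] at h
    rw [h, norm_zero] at hδ
    exact zero_ne_one hδ
  have hYp : 0 < ‖Y‖ := norm_pos_iff.2 hY0
  have h1 : X = Y + (δ / Y - e) := by
    field_simp
    linear_combination -h
  have h2 : ‖δ / Y‖ = ‖Y‖⁻¹ := by rw [norm_div, hδ, one_div]
  rcases lt_trichotomy ‖Y‖ 1 with h3 | h3 | h3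
  · right; right
    refine ⟨h3, ?_⟩
    have h4 : 1 < ‖Y‖⁻¹ := (one_lt_inv₀ hYp).2 h3
    have h5 : ‖Y - e‖ < ‖δ / Y‖ := by
      rw [h2, sub_eq_add_neg]
      refine lt_of_le_of_lt (IsUltrametricDist.norm_add_le_max _ _) (max_lt (h3.trans h4) ?_)
      rw [norm_neg]
      exact he.trans_lt h4
    have h6 : X = δ / Y + (Y - e) := by rw [h1]; ring
    rw [h6, IsUltrametricDist.norm_add_eq_max_of_norm_ne_norm h5.ne', max_eq_left h5.le, h2]
  · exact Or.inl h3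
  · right; left
    refine ⟨h3, ?_⟩
    have h4 : ‖Y‖⁻¹ < 1 := inv_lt_one_of_one_lt₀ h3
    have h5 : ‖δ / Y - e‖ < ‖Y‖ := by
      rw [sub_eq_add_neg]
      refine lt_of_le_of_lt (IsUltrametricDist.norm_add_le_max _ _) (max_lt ?_ ?_)
      · rw [h2]
        exact h4.trans h3
      · rw [norm_neg]
        exact he.trans_lt h3
    rw [h1, IsUltrametricDist.norm_add_eq_max_of_norm_ne_norm h5.ne', max_eq_left h5.le]

end norms

section loc

variable {K F M B : Type} [Field K] [NumberField K] [Field F] [Field M] [Field B] [Algebra K F]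
  [Algebra F M] [Algebra K M] [IsScalarTower K F M] [Algebra K B] [IsAlgClosed B]
  [Algebra.IsAlgebraic K B] [Algebra.IsAlgebraic F M]

/-- few poles: almost everywhere the order of the pole is not a positive multiple of `N` -/
def Few (X : ∀ (p : ℕ) [Fact p.Prime], (K →+* PadicAlgCl p) → PadicAlgCl p) : Prop :=
  ∃ N : ℕ, 0 < N ∧ ∃ D : ℕ, 0 < D ∧ ∀ (p : ℕ) [Fact p.Prime] (φ : K →+* PadicAlgCl p), ¬ p ∣ D →
    ∀ z : ℤ, 0 < z → ‖X p φ‖ ≠ (p : ℝ) ^ ((N : ℤ) * z)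

variable {s : GalSec K F M B} {f : F} {e δ : K} {y : M} {E : IntermediateField K B}

lemma IsRoot.mem {p : ℕ} [Fact p.Prime] {φ : K →+* PadicAlgCl p} {P : Pt K M φ}
    (h : IsRoot f e δ y) (hf : algebraMap F M f ∈ P.W) : y ∈ P.W := by
  by_contra hy
  have h1 : y⁻¹ ∈ P.W := (P.W.mem_or_inv_mem y).resolve_left hy
  have hy0 : y ≠ 0 := by
    rintro rfl
    exact hy (zero_mem _)
  apply hy
  have h2 : y = (algebraMap F M f + algebraMap K M e) - algebraMap K M δ * y⁻¹ := by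
    unfold IsRoot at h
    field_simp
    linear_combination h
  rw [h2]
  exact sub_mem (add_mem hf (P.comm e).1) (mul_mem (P.comm δ).1 h1)

lemma IsRoot.val {p : ℕ} [Fact p.Prime] {φ : K →+* PadicAlgCl p} {P : Pt K M φ}
    (h : IsRoot f e δ y) {X Y : PadicAlgCl p} (hf : P.Val (algebraMap F M f) X) (hy : P.Val y Y) :
    Y ^ 2 - (X + φ e) * Y + φ δ = 0 := by
  have h1 := val_add ((hy.pow 2).sub ((val_add hf (P.comm e)).mul hy)) (P.comm δ)
  unfold IsRoot at h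
  rw [h] at h1
  exact h1.unique val_zero

/-- **The adelic number given by a unit on a double covering.** -/
theorem IsRoot.dat [NumberField E] (h : IsRoot f e δ y) (hδ : δ ≠ 0)
    (hE : ∀ g : B ≃ₐ[K] B, g ∈ E.fixingSubgroup ↔ s.s g y = y)
    (hroot : ∀ N : ℕ, 0 < N → ∃ w : M, w ≠ 0 ∧ w ^ N = y)
    (P : ∀ (p : ℕ) [Fact p.Prime] (φ : K →+* PadicAlgCl p), Pt K M φ)
    (hP : ∀ (p : ℕ) [Fact p.Prime] (φ : K →+* PadicAlgCl p), s.GivenBy (P p φ))
    (X : ∀ (p : ℕ) [Fact p.Prime], (K →+* PadicAlgCl p) → PadicAlgCl p)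
    (hX : ∀ (p : ℕ) [Fact p.Prime] (φ : K →+* PadicAlgCl p),
      (P p φ).Val (algebraMap F M f) (X p φ)) (hfew : Few X) :
    ∃ Y : ∀ (p : ℕ) [Fact p.Prime], (E →+* PadicAlgCl p) → PadicAlgCl p, HasVal s E P y Y ∧
      Dat Y E (RingHom.id E) 0 ∧ ∀ (p : ℕ) [Fact p.Prime] (Φ : E →+* PadicAlgCl p),
        Y p Φ ^ 2 - (X p (Φ.comp (algebraMap K E)) + Φ (algebraMap K E e)) * Y p Φ +
          Φ (algebraMap K E δ) = 0 := by
  classical
  have hfix : ∀ σ ∈ E.fixingSubgroup, s.s σ y = y := fun σ hσ => (hE σ).1 hσ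
  obtain ⟨Y, hY⟩ := exists_hasVal (s := s) (E := E) (P := P) y hfix
    (fun p _ φ g => (h.map (s := s) g).mem (hX p φ).1)
  have hrel : ∀ (p : ℕ) [Fact p.Prime] (Φ : E →+* PadicAlgCl p),
      Y p Φ ^ 2 - (X p (Φ.comp (algebraMap K E)) + Φ (algebraMap K E e)) * Y p Φ +
        Φ (algebraMap K E δ) = 0 := by
    intro p _ Φ
    obtain ⟨g0, hg0⟩ := exists_adm s E (P p (Φ.comp (algebraMap K E))) Φ rfl
    exact (h.map (s := s) g0).val (hX p _) (hY p _ Φ rfl g0 hg0)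
  have hne : ∀ (p : ℕ) [Fact p.Prime] (Φ : E →+* PadicAlgCl p), Y p Φ ≠ 0 := by
    intro p _ Φ h0
    have h1 := hrel p Φ
    rw [h0, zero_pow two_ne_zero, mul_zero, sub_zero, zero_add, map_eq_zero, map_eq_zero] at h1
    exact hδ h1
  obtain ⟨N, hN, D, hD, hfewX⟩ := hfew
  obtain ⟨D1, hD1, h1⟩ := hY.sparse hP hfix hroot hne N hN
  have : Algebra.IsAlgebraic ℚ K := inferInstance
  obtain ⟨D2, hD2, h2⟩ := units_ae (({e, δ} : Finset K).filter (· ≠ 0)) (by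
    intro c hc
    exact (Finset.mem_filter.1 hc).2)
  refine ⟨Y, hY, hY.dat hP hfix hroot hne ⟨D * D1 * D2, by positivity, fun p _ Φ hp => ?_⟩, hrel⟩
  have hpD : ¬ p ∣ D := fun h => hp ((h.mul_right _).mul_right _)
  have hpD1 : ¬ p ∣ D1 := fun h => hp ((h.mul_left _).mul_right _)
  have hpD2 : ¬ p ∣ D2 := fun h => hp (h.mul_left _)
  have hp1 : (1 : ℝ) < p := by exact_mod_cast (Fact.out : p.Prime).one_lt
  have hN0 : (0 : ℤ) < N := by exact_mod_cast hN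
  set φ := Φ.comp (algebraMap K E) with hφ
  have hδ1 : ‖φ δ‖ = 1 := h2 p hpD2 φ δ (Finset.mem_filter.2 ⟨by simp, hδ⟩)
  have he1 : ‖φ e‖ ≤ 1 := by
    by_cases he : e = 0
    · rw [he, map_zero, norm_zero]
      exact zero_le_one
    · exact (h2 p hpD2 φ e (Finset.mem_filter.2 ⟨by simp, he⟩)).le
  obtain ⟨z, hz⟩ := h1 p Φ hpD1
  rcases norm_root (hrel p Φ) he1 hδ1 with h3 | ⟨h3, h4⟩ | ⟨h3, h4⟩
  · exact h3
  · exfalso
    refine hfewX p φ hpD z ?_ (by rw [h4, hz])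
    by_contra hz0
    push Not at hz0
    rw [hz] at h3
    have h5 : (p : ℝ) ^ ((N : ℤ) * z) ≤ 1 := zpow_le_one_of_nonpos₀ hp1.le (by nlinarith)
    linarith
  · exfalso
    refine hfewX p φ hpD (-z) ?_ (by rw [h4, hz, mul_neg, zpow_neg])
    by_contra hz0
    push Not at hz0
    rw [hz] at h3
    have h5 : 1 ≤ (p : ℝ) ^ ((N : ℤ) * z) := one_le_zpow₀ hp1.le (by nlinarith)
    linarith

/-- the value of the function -/
lemma value_of_root [NumberField E] {X : ∀ (p : ℕ) [Fact p.Prime], (K →+* PadicAlgCl p) → PadicAlgCl p}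
    {Y : ∀ (p : ℕ) [Fact p.Prime], (E →+* PadicAlgCl p) → PadicAlgCl p}
    (hrel : ∀ (p : ℕ) [Fact p.Prime] (Φ : E →+* PadicAlgCl p),
        Y p Φ ^ 2 - (X p (Φ.comp (algebraMap K E)) + Φ (algebraMap K E e)) * Y p Φ +
          Φ (algebraMap K E δ) = 0) (hδ : δ ≠ 0) (η : E)
    (hη : ∀ (p : ℕ) [Fact p.Prime] (Φ : E →+* PadicAlgCl p), Y p Φ = Φ η) :
    ∃ β : E, ∀ (p : ℕ) [Fact p.Prime] (Φ : E →+* PadicAlgCl p),
      X p (Φ.comp (algebraMap K E)) = Φ β := by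
  refine ⟨η + algebraMap K E δ / η - algebraMap K E e, fun p _ Φ => ?_⟩
  have h1 := hrel p Φ
  rw [hη] at h1
  have h0 : Φ η ≠ 0 := by
    intro h0
    rw [h0, zero_pow two_ne_zero, mul_zero, sub_zero, zero_add, map_eq_zero, map_eq_zero] at h1
    exact hδ h1
  rw [map_sub, map_add, map_div₀]
  field_simp
  linear_combination -h1

end loc

end Pool.Agent.H886.SB
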