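import Pool.Agent.H886.SB.Glob

/-!
# The quadratic extension given by a section and a double covering
-/

set_option autoImplicit false
set_option linter.unusedSectionVars false

namespace Pool.Agent.H886.SB

open NumberField IsDedekindDomain Pool.Agent.W518.TC Pool.Agent.Q33.SecL
open Pool.Agent.H886.Exp
open Pool.Agent.W620.SC (mem_of_fixed)

section stab

variable {K F M B : Type} [Field K] [CharZero K] [Field F] [Field M] [Field B] [Algebra F M]
  [Algebra K M] [Algebra K B] [IsAlgClosed B] [Algebra.IsAlgebraic K B] [Algebra.IsAlgebraic F M]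

lemma isOpen_stab (s : GalSec K F M B) (y : M) :
    IsOpen (((MulAction.stabilizer (M ≃ₐ[F] M) y).comap s.s : Subgroup (B ≃ₐ[K] B)) :
      Set (B ≃ₐ[K] B)) := by
  refine Subgroup.isOpen_of_mem_nhds _ (g := 1) ?_
  have h2 := s.cont.continuousAt (x := 1)
  have h3 : {g : M ≃ₐ[F] M | g y = y} ∈ nhds (s.s 1) := by
    rw [map_one]
    exact Pool.Agent.Q33.SecL.fix_nhds y
  exact h2 h3

/-- the field of definition of `y` along the section -/
lemma exists_field (s : GalSec K F M B) (y : M) : ∃ E : IntermediateField K B,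
    FiniteDimensional K E ∧ ∀ g : B ≃ₐ[K] B, g ∈ E.fixingSubgroup ↔ s.s g y = y := by
  have hA : IsAlgClosure K B := ⟨inferInstance, inferInstance⟩
  have hNo : Normal K B := IsAlgClosure.normal K B
  have hG : IsGalois K B := ⟨⟩
  set H : Subgroup (B ≃ₐ[K] B) := (MulAction.stabilizer (M ≃ₐ[F] M) y).comap s.s with hH
  have ho := isOpen_stab s y
  have hc : IsClosed (H : Set (B ≃ₐ[K] B)) := H.isClosed_of_isOpen ho
  have h1 := InfiniteGalois.fixingSubgroup_fixedField (⟨H, hc⟩ : ClosedSubgroup (B ≃ₐ[K] B))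
  have h2 : (IntermediateField.fixedField H).fixingSubgroup = H := h1
  refine ⟨IntermediateField.fixedField H, ?_, ?_⟩
  · rw [← InfiniteGalois.isOpen_iff_finite]
    change IsOpen ((IntermediateField.fixedField H).fixingSubgroup : Set (B ≃ₐ[K] B))
    rw [h2]
    exact ho
  · intro g
    rw [h2]
    rfl

end stab

section quad

variable {K F M B : Type} [Field K] [NumberField K] [Field F] [Field M] [Field B] [Algebra K F]
  [Algebra F M] [Algebra K M] [IsScalarTower K F M] [Algebra K B] [IsAlgClosed B]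
  [Algebra.IsAlgebraic K B] [Algebra.IsAlgebraic F M]

/-- `y` is a root of the polynomial `Y² - (f + e) Y + δ` -/
def IsRoot (f : F) (e δ : K) (y : M) : Prop :=
  y ^ 2 - (algebraMap F M f + algebraMap K M e) * y + algebraMap K M δ = 0

variable {s : GalSec K F M B} {f : F} {e δ : K} {y : M}

lemma s_alg (s : GalSec K F M B) (g : B ≃ₐ[K] B) (c : K) :
    s.s g (algebraMap K M c) = algebraMap K M c := by
  rw [IsScalarTower.algebraMap_apply K F M, AlgEquiv.commutes]

lemma IsRoot.ne_zero (h : IsRoot f e δ y) (hδ : δ ≠ 0) : y ≠ 0 := by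
  rintro rfl
  unfold IsRoot at h
  rw [zero_pow two_ne_zero, mul_zero, sub_zero, zero_add] at h
  exact hδ ((map_eq_zero _).1 h)

lemma IsRoot.map (h : IsRoot f e δ y) (g : B ≃ₐ[K] B) : IsRoot f e δ (s.s g y) := by
  unfold IsRoot at h ⊢
  have h1 := congrArg (s.s g) h
  rw [map_add, map_sub, map_pow, map_mul, map_add, AlgEquiv.commutes, s_alg, s_alg, map_zero] at h1
  exact h1

lemma IsRoot.eq_or (h : IsRoot f e δ y) {z : M} (hz : IsRoot f e δ z) :
    z = y ∨ y * z = algebraMap K M δ := by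
  unfold IsRoot at h hz
  by_cases hzy : z = y
  · exact Or.inl hzy
  · right
    have h1 : (z - y) * (z + y - (algebraMap F M f + algebraMap K M e)) = 0 := by
      linear_combination hz - h
    have h2 := (mul_eq_zero.1 h1).resolve_left (sub_ne_zero.2 hzy)
    linear_combination y * h2 - h

/-- the automorphisms that fix `y` form a normal subgroup -/
lemma IsRoot.conj_fix (h : IsRoot f e δ y) (hδ : δ ≠ 0) {g τ : B ≃ₐ[K] B} (hg : s.s g y = y) :
    s.s (τ⁻¹ * g * τ) y = y := by
  have hy0 := h.ne_zero hδ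
  have h1 : s.s g (s.s τ y) = s.s τ y := by
    rcases h.eq_or (h.map (s := s) τ) with h2 | h2
    · rw [h2, hg]
    · have h3 : s.s τ y = algebraMap K M δ / y := by
        rw [eq_div_iff hy0, mul_comm]
        exact h2
      rw [h3, map_div₀, s_alg, hg]
  rw [map_mul, map_mul]
  change s.s τ⁻¹ (s.s g (s.s τ y)) = y
  rw [h1]
  change (s.s τ⁻¹ * s.s τ) y = y
  rw [← map_mul, inv_mul_cancel, map_one]
  rfl

variable {E : IntermediateField K B}

/-- the automorphisms preserve the quadratic extension -/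
lemma IsRoot.mem_of_mem (h : IsRoot f e δ y) (hδ : δ ≠ 0)
    (hE : ∀ g : B ≃ₐ[K] B, g ∈ E.fixingSubgroup ↔ s.s g y = y) (τ : B ≃ₐ[K] B) {z : B}
    (hz : z ∈ E) : τ z ∈ E := by
  have hA : IsAlgClosure K B := ⟨inferInstance, inferInstance⟩
  have hNo : Normal K B := IsAlgClosure.normal K B
  have hG : IsGalois K B := ⟨⟩
  apply mem_of_fixed
  intro g hg
  have h1 : τ⁻¹ * g * τ ∈ E.fixingSubgroup := (hE _).2 (h.conj_fix hδ ((hE g).1 hg))
  have h2 := (IntermediateField.mem_fixingSubgroup_iff _ _).1 h1 z hz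
  change τ.symm (g (τ z)) = z at h2
  rw [AlgEquiv.symm_apply_eq] at h2
  exact h2

/-- the conjugation on the quadratic extension -/
noncomputable def rho (E : IntermediateField K B) (τ : B ≃ₐ[K] B) (hτ : ∀ z ∈ E, τ z ∈ E) :
    E →+* E :=
  ((τ : B →+* B).comp (algebraMap E B)).codRestrict E.toSubring (fun z => hτ z z.2)

lemma rho_coe (τ : B ≃ₐ[K] B) (hτ : ∀ z ∈ E, τ z ∈ E) (z : E) : (rho E τ hτ z : B) = τ z := rfl

lemma rho_alg (τ : B ≃ₐ[K] B) (hτ : ∀ z ∈ E, τ z ∈ E) (c : K) :
    rho E τ hτ (algebraMap K E c) = algebraMap K E c := by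
  apply Subtype.ext
  rw [rho_coe]
  exact τ.commutes c

lemma finrank_two (h : IsRoot f e δ y) (hδ : δ ≠ 0)
    (hE : ∀ g : B ≃ₐ[K] B, g ∈ E.fixingSubgroup ↔ s.s g y = y) {τ : B ≃ₐ[K] B}
    (hτ : s.s τ y ≠ y) : Module.finrank K E = 2 := by
  have hA : IsAlgClosure K B := ⟨inferInstance, inferInstance⟩
  have hNo : Normal K B := IsAlgClosure.normal K B
  have hG : IsGalois K B := ⟨⟩
  have hy0 := h.ne_zero hδ
  have key : ∀ g : B ≃ₐ[K] B, s.s g y ≠ y → y * s.s g y = algebraMap K M δ := fun g hg =>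
    (h.eq_or (h.map (s := s) g)).resolve_left hg
  rw [IntermediateField.finrank_eq_fixingSubgroup_index, Subgroup.index_eq_two_iff']
  refine ⟨τ, fun g => ?_⟩
  rw [hE, hE]
  have hc : ∀ g : B ≃ₐ[K] B, s.s (τ * g) y = s.s τ (s.s g y) := fun g => by
    rw [map_mul]
    rfl
  by_cases hg : s.s g y = y
  · right
    refine ⟨hg, ?_⟩
    rw [hc, hg]
    exact hτ
  · left
    refine ⟨?_, hg⟩
    have h1 := key g hg
    have h2 := key τ hτ
    have h3 : s.s g y = algebraMap K M δ / y := by
      rw [eq_div_iff hy0, mul_comm]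
      exact h1
    have h4 : s.s τ y = algebraMap K M δ / y := by
      rw [eq_div_iff hy0, mul_comm]
      exact h2
    have h5 : algebraMap K M δ ≠ 0 := (map_ne_zero _).2 hδ
    rw [hc, h3, map_div₀, s_alg, h4, div_div_cancel₀ h5]

lemma isGalois_field (h : IsRoot f e δ y) (hδ : δ ≠ 0)
    (hE : ∀ g : B ≃ₐ[K] B, g ∈ E.fixingSubgroup ↔ s.s g y = y) : IsGalois K E := by
  have hA : IsAlgClosure K B := ⟨inferInstance, inferInstance⟩
  have hNo : Normal K B := IsAlgClosure.normal K B
  have hG : IsGalois K B := ⟨⟩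
  rw [← InfiniteGalois.normal_iff_isGalois]
  refine ⟨fun g hg τ => ?_⟩
  rw [hE] at hg ⊢
  have h1 := h.conj_fix hδ (τ := τ⁻¹) hg
  rwa [inv_inv] at h1

end quad

section arch

variable {K F M B : Type} [Field K] [NumberField K] [Field F] [Field M] [Field B] [Algebra K F]
  [Algebra F M] [Algebra K M] [IsScalarTower K F M] [Algebra K B] [IsAlgClosed B]
  [Algebra.IsAlgebraic K B] [Algebra.IsAlgebraic F M]

/-- the archimedean place `v` is real, and complex conjugation at `v` does not fix `y` -/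
def Moves (s : GalSec K F M B) (y : M) (v : InfinitePlace K) : Prop :=
  ∃ (ι : B →+* ℂ) (τ : B ≃ₐ[K] B), InfinitePlace.mk (ι.comp (algebraMap K B)) = v ∧
    (∀ z, ι (τ z) = (starRingEnd ℂ) (ι z)) ∧ s.s τ y ≠ y

variable {s : GalSec K F M B} {f : F} {e δ : K} {y : M} {E : IntermediateField K B}

lemma not_unramified [NumberField E] (h : IsRoot f e δ y) (hδ : δ ≠ 0)
    (hE : ∀ g : B ≃ₐ[K] B, g ∈ E.fixingSubgroup ↔ s.s g y = y) {v : InfinitePlace K}
    (hv : Moves s y v) : ¬ v.IsUnramifiedIn E := by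
  have hG := isGalois_field h hδ hE
  obtain ⟨ι, τ, rfl, hτ, hm⟩ := hv
  set w : InfinitePlace E := InfinitePlace.mk (ι.comp (algebraMap E B)) with hw
  have h1 : InfinitePlace.mk (ι.comp (algebraMap K B)) = w.comap (algebraMap K E) := by
    rw [hw, InfinitePlace.comap_mk, RingHom.comp_assoc]
    rfl
  rw [h1, InfinitePlace.isUnramifiedIn_comap, InfinitePlace.isUnramified_iff, not_or]
  constructor
  · rw [hw, InfinitePlace.isReal_mk_iff]
    intro hr
    apply hm
    rw [← hE, IntermediateField.mem_fixingSubgroup_iff]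
    intro z hz
    apply ι.injective
    rw [hτ]
    exact DFunLike.congr_fun hr (⟨z, hz⟩ : E)
  · rw [InfinitePlace.not_isComplex_iff_isReal, ← h1, InfinitePlace.isReal_mk_iff]
    ext c
    change (starRingEnd ℂ) (ι (algebraMap K B c)) = ι (algebraMap K B c)
    rw [← hτ, τ.commutes]

/-- the number of archimedean places of the quadratic extension -/
lemma card_places [NumberField E] (h : IsRoot f e δ y) (hδ : δ ≠ 0)
    (hE : ∀ g : B ≃ₐ[K] B, g ∈ E.fixingSubgroup ↔ s.s g y = y) {τ : B ≃ₐ[K] B}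
    (hτ : s.s τ y ≠ y) (v0 : InfinitePlace K) (hv : ∀ v, v ≠ v0 → Moves s y v) :
    Fintype.card (InfinitePlace E) ≤ Fintype.card (InfinitePlace K) + 1 := by
  classical
  have hG := isGalois_field h hδ hE
  rw [InfinitePlace.card_eq_card_isUnramifiedIn K E, finrank_two h hδ hE hτ]
  set A : Finset (InfinitePlace K) := {w : InfinitePlace K | w.IsUnramifiedIn E} with hA
  have h1 : A ⊆ {v0} := by
    intro v hvA
    rw [hA, Finset.mem_filter_univ] at hvA
    rw [Finset.mem_singleton]
    by_contra hne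
    exact not_unramified h hδ hE (hv v hne) hvA
  have h2 : A.card ≤ 1 := by
    have := Finset.card_le_card h1
    rwa [Finset.card_singleton] at this
  have h3 := A.card_add_card_compl
  omega

lemma card_places_zero [NumberField E] (h : IsRoot f e δ y) (hδ : δ ≠ 0)
    (hE : ∀ g : B ≃ₐ[K] B, g ∈ E.fixingSubgroup ↔ s.s g y = y) {τ : B ≃ₐ[K] B}
    (hτ : s.s τ y ≠ y) (hv : ∀ v, Moves s y v) :
    Fintype.card (InfinitePlace E) ≤ Fintype.card (InfinitePlace K) := by
  classical
  have hG := isGalois_field h hδ hE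
  rw [InfinitePlace.card_eq_card_isUnramifiedIn K E, finrank_two h hδ hE hτ]
  set A : Finset (InfinitePlace K) := {w : InfinitePlace K | w.IsUnramifiedIn E} with hA
  have h1 : A = ∅ := by
    rw [Finset.eq_empty_iff_forall_notMem]
    intro v hvA
    rw [hA, Finset.mem_filter_univ] at hvA
    exact not_unramified h hδ hE (hv v) hvA
  have h2 : A.card = 0 := by rw [h1, Finset.card_empty]
  have h3 := A.card_add_card_compl
  omega

end arch

end Pool.Agent.H886.SB
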