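import Pool.Agent.H886.SB.Main
import Pool.Graph.R_pool_sql_team_seeded_3997aac3.Q33.BSec.Gen

/-!
# Real points and complex conjugations
-/

set_option autoImplicit false
set_option linter.unusedSectionVars false

namespace Pool.Agent.H886.SB

open NumberField IsDedekindDomain
open Pool.Agent.TH942 Pool.Agent.TH954 Pool.Agent.TH841.NF
open Pool.Agent.Q33.SecL (GalSec Pt)
open Pool.Agent.Q33.BSec
open NumberField.InfinitePlace.Completion (extensionEmbedding extensionEmbeddingOfIsReal)

section emb

variable {K : Type} [Field K] (v : InfinitePlace K)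

/-- complex embeddings of the algebraic closure of an archimedean completion, and complex
conjugation -/
lemma exists_theta (hv : v.IsReal) : ∃ (θ : AlgebraicClosure v.Completion →+* ℂ)
    (σ : AlgebraicClosure v.Completion ≃ₐ[v.Completion] AlgebraicClosure v.Completion),
    (∀ y : v.Completion, θ (algebraMap _ _ y) = (extensionEmbeddingOfIsReal hv y : ℂ)) ∧
    ∀ c, θ (σ c) = (starRingEnd ℂ) (θ c) := by
  let alg : Algebra v.Completion ℂ := (extensionEmbedding v).toAlgebra
  let Ψ : AlgebraicClosure v.Completion →ₐ[v.Completion] ℂ := IsAlgClosed.lift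
  have hΨ : ∀ y : v.Completion, Ψ (algebraMap _ _ y) = (extensionEmbeddingOfIsReal hv y : ℂ) := by
    intro y
    rw [Ψ.commutes, InfinitePlace.Completion.extensionEmbeddingOfIsReal_apply]
    rfl
  have halg : ∀ y : v.Completion, (algebraMap v.Completion ℂ y) =
      (extensionEmbeddingOfIsReal hv y : ℂ) := by
    intro y
    rw [InfinitePlace.Completion.extensionEmbeddingOfIsReal_apply]
    rfl
  let c : ℂ ≃ₐ[v.Completion] ℂ := AlgEquiv.ofRingEquiv (f := starRingAut (R := ℂ)) (by
    intro y
    rw [halg]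
    exact Complex.conj_ofReal _)
  let alg2 : Algebra (AlgebraicClosure v.Completion) ℂ := Ψ.toRingHom.toAlgebra
  have : IsScalarTower v.Completion (AlgebraicClosure v.Completion) ℂ :=
    IsScalarTower.of_algebraMap_eq' Ψ.comp_algebraMap.symm
  have hN : Normal v.Completion (AlgebraicClosure v.Completion) := inferInstance
  refine ⟨Ψ, c.restrictNormal (AlgebraicClosure v.Completion), hΨ, fun z => ?_⟩
  exact AlgEquiv.restrictNormal_commutes c (AlgebraicClosure v.Completion) z

end emb

section compat

variable {K F M B : Type} [Field K] [Field F] [Field M] [Field B] [Algebra F M]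
  [Algebra K M] [Algebra K B] [IsAlgClosure K B]

/-- restriction of Galois elements -/
lemma exists_res {L A : Type} [Field L] [Field A] [Algebra K L] [Algebra L A] [Algebra K A]
    [IsScalarTower K L A] (κ : B →ₐ[K] A) (σ : A ≃ₐ[L] A) :
    ∃ τ : B ≃ₐ[K] B, ∀ z, κ (τ z) = σ (κ z) := by
  let : Algebra B A := κ.toRingHom.toAlgebra
  have : IsScalarTower K B A := IsScalarTower.of_algebraMap_eq' κ.comp_algebraMap.symm
  have hN : Normal K B := IsAlgClosure.normal K B
  refine ⟨(σ.restrictScalars K).restrictNormal B, fun z => ?_⟩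
  exact AlgEquiv.restrictNormal_commutes (σ.restrictScalars K) B z

/-- complex conjugation at a real point -/
theorem conj_at [NumberField K] (s : GalSection K F M B) {v : InfinitePlace K} (hv : v.IsReal)
    (pl : Plc K M (AlgebraicClosure v.Completion)) (hpl : Cmp (L := v.Completion) s pl) :
    ∃ (θ : AlgebraicClosure v.Completion →+* ℂ) (ι : B →+* ℂ) (τ : B ≃ₐ[K] B),
      (∀ y : v.Completion, θ (algebraMap _ _ y) = (extensionEmbeddingOfIsReal hv y : ℂ)) ∧
      InfinitePlace.mk (ι.comp (algebraMap K B)) = v ∧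
      (∀ z, ι (τ z) = (starRingEnd ℂ) (ι z)) ∧
      ∀ y c, pl.val y c → ∃ c', pl.val (s.s τ y) c' ∧ θ c' = (starRingEnd ℂ) (θ c) := by
  have hB : Algebra.IsAlgebraic K B := IsAlgClosure.isAlgebraic
  obtain ⟨θ, σ, h1, h2⟩ := exists_theta v hv
  obtain ⟨τ, hτ⟩ := exists_res (pl.iot s.j) σ
  refine ⟨θ, θ.comp (pl.iot s.j : B →+* AlgebraicClosure v.Completion), τ, h1, ?_, ?_, ?_⟩
  · have h3 : (θ.comp (pl.iot s.j : B →+* AlgebraicClosure v.Completion)).comp (algebraMap K B) =
        v.embedding := by
      ext c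
      change θ (pl.iot s.j (algebraMap K B c)) = v.embedding c
      rw [AlgHom.commutes, IsScalarTower.algebraMap_apply K v.Completion, h1]
      rw [InfinitePlace.Completion.extensionEmbeddingOfIsReal_apply]
      exact InfinitePlace.Completion.extensionEmbedding_coe v _
    rw [h3, InfinitePlace.mk_embedding]
  · intro z
    change θ (pl.iot s.j (τ z)) = _
    rw [hτ, h2]
    rfl
  · intro y c hy
    refine ⟨σ c, hpl σ τ ?_ y c hy, h2 c⟩
    intro z c' hc'
    have e1 : pl.val (s.j z) (pl.iot s.j z) := pl.iot_spec s.j z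
    have e2 : pl.val (s.j (τ z)) (pl.iot s.j (τ z)) := pl.iot_spec s.j (τ z)
    rw [← e1.unique hc', ← hτ]
    exact e2

end compat

section moves

variable {K F M B : Type} [Field K] [NumberField K] [Field F] [Field M] [Field B] [Algebra K F]
  [Algebra F M] [Algebra K M] [IsScalarTower K F M] [Algebra K B] [IsAlgClosure K B]
  [Algebra.IsAlgebraic F M]

/-- the value of a root at a point -/
lemma IsRoot.exists_val {f : F} {e δ : K} {y : M} (h : IsRoot f e δ y) {C : Type} [Field C]
    [Algebra K C] {pl : Plc K M C} {r : C} (hr : pl.val (algebraMap F M f) r) :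
    ∃ c, pl.val y c ∧ c ^ 2 - (r + algebraMap K C e) * c + algebraMap K C δ = 0 := by
  have hy : y ∈ pl.W := by
    by_contra hy
    have h1 : y⁻¹ ∈ pl.W := (pl.W.mem_or_inv_mem y).resolve_left hy
    have hy0 : y ≠ 0 := by
      rintro rfl
      exact hy (zero_mem _)
    apply hy
    have h2 : y = (algebraMap F M f + algebraMap K M e) - algebraMap K M δ * y⁻¹ := by
      unfold IsRoot at h
      field_simp
      linear_combination h
    rw [h2]
    exact sub_mem (add_mem hr.1 (pl.comm e).1) (mul_mem (pl.comm δ).1 h1)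
  obtain ⟨c, hc⟩ := Plc.val_of_mem hy
  refine ⟨c, hc, ?_⟩
  have h1 := ((hc.pow 2).sub ((hr.add (Plc.val_alg e)).mul hc)).add (Plc.val_alg (pl := pl) δ)
  unfold IsRoot at h
  rw [h] at h1
  exact h1.unique Plc.val_zero

/-- **negative discriminant** -/
theorem moves_of_disc (s : GalSection K F M B) {v : InfinitePlace K} (hv : v.IsReal)
    (pl : Plc K M (AlgebraicClosure v.Completion)) (hpl : Cmp (L := v.Completion) s pl)
    {f : F} {e δ : K} {y : M} (h : IsRoot f e δ y) (r : v.Completion)
    (hr : pl.val (algebraMap F M f) (algebraMap _ _ r))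
    (hneg : (extensionEmbeddingOfIsReal hv r + InfinitePlace.embedding_of_isReal hv e) ^ 2 <
      4 * InfinitePlace.embedding_of_isReal hv δ) : Moves (toSec s) y v := by
  obtain ⟨θ, ι, τ, h1, h2, h3, h4⟩ := conj_at s hv pl hpl
  refine ⟨ι, τ, h2, h3, fun h0 => ?_⟩
  obtain ⟨c, hc, hce⟩ := h.exists_val hr
  obtain ⟨c', hc', hcc⟩ := h4 y c hc
  have h5 : pl.val y c' := by
    have h6 : s.s τ y = y := h0
    rwa [h6] at hc'
  rw [h5.unique hc] at hcc
  have h6 := congrArg θ hce
  have h7 : ∀ a : K, θ (algebraMap K _ a) = ((InfinitePlace.embedding_of_isReal hv a : ℝ) : ℂ) := by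
    intro a
    rw [IsScalarTower.algebraMap_apply K v.Completion, h1]
    congr 1
    exact InfinitePlace.Completion.extensionEmbeddingOfIsReal_coe hv _
  rw [map_add, map_sub, map_mul, map_pow, map_add, h1, h7, h7, map_zero] at h6
  obtain ⟨x, hx⟩ : ∃ x : ℝ, θ c = x := ⟨(θ c).re, (Complex.conj_eq_iff_re.1 hcc.symm).symm⟩
  rw [hx] at h6
  have h8 : x ^ 2 - (extensionEmbeddingOfIsReal hv r + InfinitePlace.embedding_of_isReal hv e) * x +
      InfinitePlace.embedding_of_isReal hv δ = 0 := by exact_mod_cast h6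
  nlinarith [sq_nonneg (2 * x - (extensionEmbeddingOfIsReal hv r +
    InfinitePlace.embedding_of_isReal hv e))]

end moves

end Pool.Agent.H886.SB
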