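import Pool.Agent.H886.SB.Real

/-!
# Real points of birational sections
-/

set_option autoImplicit false
set_option linter.unusedSectionVars false

namespace Pool.Agent.H886.SB

open ArchimedeanClass

section abs

variable {R Ω : Type} [Field R] [LinearOrder R] [IsStrictOrderedRing R] [Field Ω] [Algebra R Ω]

/-- coordinates with respect to `1, I` -/
structure Crd (R Ω : Type) [Field R] [Field Ω] [Algebra R Ω] where
  I : Ω
  hI : I ^ 2 = -1
  re : Ω → R
  im : Ω → R
  eq : ∀ z, z = algebraMap R Ω (re z) + I * algebraMap R Ω (im z)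
  ind : ∀ a b : R, algebraMap R Ω a + I * algebraMap R Ω b = 0 → a = 0 ∧ b = 0

variable (c : Crd R Ω)

namespace Crd

variable {c}

lemma unique {a b : R} {z : Ω} (h : z = algebraMap R Ω a + c.I * algebraMap R Ω b) :
    c.re z = a ∧ c.im z = b := by
  have h1 := c.ind (c.re z - a) (c.im z - b) (by
    rw [map_sub, map_sub]
    have h2 := c.eq z
    linear_combination h - h2)
  exact ⟨sub_eq_zero.1 h1.1, sub_eq_zero.1 h1.2⟩

lemma add (z w : Ω) : c.re (z + w) = c.re z + c.re w ∧ c.im (z + w) = c.im z + c.im w := by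
  apply unique
  rw [map_add, map_add]
  have h1 := c.eq z
  have h2 := c.eq w
  linear_combination h1 + h2

lemma neg (z : Ω) : c.re (-z) = -c.re z ∧ c.im (-z) = -c.im z := by
  apply unique
  rw [map_neg, map_neg]
  have h1 := c.eq z
  linear_combination -h1

lemma mul (z w : Ω) : c.re (z * w) = c.re z * c.re w - c.im z * c.im w ∧
    c.im (z * w) = c.re z * c.im w + c.im z * c.re w := by
  apply unique
  rw [map_sub, map_add, map_mul, map_mul, map_mul, map_mul]
  have h1 := c.eq z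
  have h2 := c.eq w
  have h3 := c.hI
  set a := algebraMap R Ω (c.re z)
  set b := algebraMap R Ω (c.im z)
  set a' := algebraMap R Ω (c.re w)
  set b' := algebraMap R Ω (c.im w)
  rw [h1, h2]
  linear_combination b * b' * h3

lemma of (a : R) : c.re (algebraMap R Ω a) = a ∧ c.im (algebraMap R Ω a) = 0 := by
  apply unique
  rw [map_zero, mul_zero, add_zero]

lemma one : c.re 1 = 1 ∧ c.im 1 = 0 := by
  have := of (c := c) 1
  rwa [map_one] at this

lemma zero : c.re 0 = 0 ∧ c.im 0 = 0 := by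
  have := of (c := c) 0
  rwa [map_zero] at this

/-- the norm -/
lemma norm_ne {z : Ω} (hz : z ≠ 0) : c.re z ^ 2 + c.im z ^ 2 ≠ 0 := by
  intro h
  apply hz
  have h1 : c.re z = 0 := by nlinarith [sq_nonneg (c.re z), sq_nonneg (c.im z)]
  have h2 : c.im z = 0 := by nlinarith [sq_nonneg (c.re z), sq_nonneg (c.im z)]
  rw [c.eq z, h1, h2, map_zero, mul_zero, add_zero]

lemma inv {z : Ω} (hz : z ≠ 0) : c.re z⁻¹ = c.re z * (c.re z ^ 2 + c.im z ^ 2)⁻¹ ∧
    c.im z⁻¹ = -(c.im z * (c.re z ^ 2 + c.im z ^ 2)⁻¹) := by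
  apply unique
  apply inv_eq_of_mul_eq_one_right
  rw [map_neg, map_mul, map_mul, map_inv₀, map_add, map_pow, map_pow]
  have h1 := c.eq z
  have h3 := c.hI
  have h4 : algebraMap R Ω (c.re z) ^ 2 + algebraMap R Ω (c.im z) ^ 2 ≠ 0 := by
    rw [← map_pow, ← map_pow, ← map_add]
    exact (map_ne_zero _).2 (norm_ne hz)
  set a := algebraMap R Ω (c.re z)
  set b := algebraMap R Ω (c.im z)
  rw [h1]
  field_simp
  linear_combination -b ^ 2 * h3

end Crd

lemma fin_of_sq {a b : R} (h : a ^ 2 ≤ b) (hb : 0 ≤ mk b) : 0 ≤ mk a := by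
  by_contra ha
  push Not at ha
  have h1 : mk b ≤ mk (a ^ 2) := by
    apply mk_le_mk_of_abs
    rw [abs_of_nonneg (sq_nonneg a), abs_of_nonneg ((sq_nonneg a).trans h)]
    exact h
  have h2 : mk (a ^ 2) < 0 := by
    rw [pow_two, mk_mul]
    calc mk a + mk a ≤ mk a + 0 := by gcongr
      _ = mk a := add_zero _
      _ < 0 := ha
  exact absurd (hb.trans h1) (not_le.2 h2)

/-- the valuation ring of finite elements -/
noncomputable def wRing (c : Crd R Ω) : ValuationSubring Ω where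
  carrier := {z | 0 ≤ mk (c.re z) ∧ 0 ≤ mk (c.im z)}
  mul_mem' := by
    rintro z w ⟨h1, h2⟩ ⟨h3, h4⟩
    obtain ⟨e1, e2⟩ := c.mul z w
    refine ⟨?_, ?_⟩
    · rw [e1]
      refine le_trans (le_min ?_ ?_) (min_le_mk_sub _ _)
      · rw [mk_mul]
        exact add_nonneg h1 h3
      · rw [mk_mul]
        exact add_nonneg h2 h4
    · rw [e2]
      refine le_trans (le_min ?_ ?_) (min_le_mk_add _ _)
      · rw [mk_mul]
        exact add_nonneg h1 h4
      · rw [mk_mul]
        exact add_nonneg h2 h3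
  one_mem' := by
    obtain ⟨e1, e2⟩ := c.one
    refine ⟨?_, ?_⟩
    · rw [e1]
      exact mk_natCast_nonneg (S := R) 1 |>.trans_eq (by rw [Nat.cast_one])
    · rw [e2]
      exact mk_natCast_nonneg (S := R) 0 |>.trans_eq (by rw [Nat.cast_zero])
  add_mem' := by
    rintro z w ⟨h1, h2⟩ ⟨h3, h4⟩
    obtain ⟨e1, e2⟩ := c.add z w
    refine ⟨?_, ?_⟩
    · rw [e1]
      exact le_trans (le_min h1 h3) (min_le_mk_add _ _)
    · rw [e2]
      exact le_trans (le_min h2 h4) (min_le_mk_add _ _)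
  zero_mem' := by
    obtain ⟨e1, e2⟩ := c.zero
    refine ⟨?_, ?_⟩
    · rw [e1]
      exact mk_natCast_nonneg (S := R) 0 |>.trans_eq (by rw [Nat.cast_zero])
    · rw [e2]
      exact mk_natCast_nonneg (S := R) 0 |>.trans_eq (by rw [Nat.cast_zero])
  neg_mem' := by
    rintro z ⟨h1, h2⟩
    obtain ⟨e1, e2⟩ := c.neg z
    refine ⟨?_, ?_⟩
    · rw [e1, mk_neg]
      exact h1
    · rw [e2, mk_neg]
      exact h2
  mem_or_inv_mem' := by
    intro z
    by_cases hz : z = 0
    · left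
      rw [hz]
      obtain ⟨e1, e2⟩ := c.zero
      refine ⟨?_, ?_⟩
      · rw [e1]
        exact mk_natCast_nonneg (S := R) 0 |>.trans_eq (by rw [Nat.cast_zero])
      · rw [e2]
        exact mk_natCast_nonneg (S := R) 0 |>.trans_eq (by rw [Nat.cast_zero])
    · have hN := c.norm_ne hz
      have hN0 : 0 < c.re z ^ 2 + c.im z ^ 2 := lt_of_le_of_ne (by positivity) hN.symm
      by_cases h : 0 ≤ mk (c.re z ^ 2 + c.im z ^ 2)
      · left
        exact ⟨fin_of_sq (le_add_of_nonneg_right (sq_nonneg _)) h,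
          fin_of_sq (le_add_of_nonneg_left (sq_nonneg _)) h⟩
      · right
        have h' : 0 ≤ mk (c.re z ^ 2 + c.im z ^ 2)⁻¹ := by
          rw [mk_inv]
          push Not at h
          by_contra h2
          push Not at h2
          rw [← mk_inv] at h2
          have h3 : mk (c.re z ^ 2 + c.im z ^ 2) + mk (c.re z ^ 2 + c.im z ^ 2)⁻¹ = 0 := by
            rw [← mk_mul, mul_inv_cancel₀ hN, mk_one]
          have h4 : mk (c.re z ^ 2 + c.im z ^ 2) + mk (c.re z ^ 2 + c.im z ^ 2)⁻¹ < 0 := by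
            calc _ ≤ mk (c.re z ^ 2 + c.im z ^ 2) + 0 := by gcongr
              _ = mk (c.re z ^ 2 + c.im z ^ 2) := add_zero _
              _ < 0 := h
          exact h4.ne h3
        obtain ⟨e1, e2⟩ := c.inv hz
        refine ⟨?_, ?_⟩
        · rw [e1]
          refine fin_of_sq ?_ h'
          rw [mul_pow, inv_pow, ← div_eq_mul_inv, div_le_iff₀ (by positivity), pow_two (_ + _),
            ← mul_assoc, inv_mul_cancel₀ hN, one_mul]
          exact le_add_of_nonneg_right (sq_nonneg _)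
        · rw [e2, mk_neg]
          refine fin_of_sq ?_ h'
          rw [mul_pow, inv_pow, ← div_eq_mul_inv, div_le_iff₀ (by positivity), pow_two (_ + _),
            ← mul_assoc, inv_mul_cancel₀ hN, one_mul]
          exact le_add_of_nonneg_left (sq_nonneg _)

/-- the place -/
noncomputable def wPlace (c : Crd R Ω) : wRing c →+* ℂ where
  toFun z := (stdPart (c.re z) : ℂ) + (stdPart (c.im z) : ℂ) * Complex.I
  map_one' := by
    obtain ⟨e1, e2⟩ := c.one
    change (stdPart (c.re 1) : ℂ) + (stdPart (c.im 1) : ℂ) * Complex.I = 1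
    rw [e1, e2, stdPart_one, stdPart_zero]
    simp
  map_mul' := by
    rintro ⟨z, h1, h2⟩ ⟨w, h3, h4⟩
    obtain ⟨e1, e2⟩ := c.mul z w
    change (stdPart (c.re (z * w)) : ℂ) + (stdPart (c.im (z * w)) : ℂ) * Complex.I =
      ((stdPart (c.re z) : ℂ) + (stdPart (c.im z) : ℂ) * Complex.I) *
      ((stdPart (c.re w) : ℂ) + (stdPart (c.im w) : ℂ) * Complex.I)
    have h5 : ∀ a b : R, 0 ≤ mk a → 0 ≤ mk b → 0 ≤ mk (a * b) := by
      intro a b ha hb
      rw [mk_mul]
      exact add_nonneg ha hb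
    rw [e1, e2, stdPart_sub (h5 _ _ h1 h3) (h5 _ _ h2 h4), stdPart_add (h5 _ _ h1 h4)
      (h5 _ _ h2 h3), stdPart_mul h1 h3, stdPart_mul h2 h4, stdPart_mul h1 h4, stdPart_mul h2 h3]
    push_cast
    linear_combination (stdPart (c.im z) : ℂ) * (stdPart (c.im w) : ℂ) * (-Complex.I_sq)
  map_zero' := by
    obtain ⟨e1, e2⟩ := c.zero
    change (stdPart (c.re 0) : ℂ) + (stdPart (c.im 0) : ℂ) * Complex.I = 0
    rw [e1, e2, stdPart_zero]
    simp
  map_add' := by
    rintro ⟨z, h1, h2⟩ ⟨w, h3, h4⟩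
    obtain ⟨e1, e2⟩ := c.add z w
    change (stdPart (c.re (z + w)) : ℂ) + (stdPart (c.im (z + w)) : ℂ) * Complex.I =
      ((stdPart (c.re z) : ℂ) + (stdPart (c.im z) : ℂ) * Complex.I) +
      ((stdPart (c.re w) : ℂ) + (stdPart (c.im w) : ℂ) * Complex.I)
    rw [e1, e2, stdPart_add h1 h3, stdPart_add h2 h4]
    push_cast
    ring

lemma wPlace_loc (c : Crd R Ω) (x : wRing c) (hx : wPlace c x ≠ 0) : (x : Ω)⁻¹ ∈ wRing c := by
  obtain ⟨z, h1, h2⟩ := x
  have hz : z ≠ 0 := by
    rintro rfl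
    exact hx (map_zero (wPlace c))
  have hne : ¬ (stdPart (c.re z) = 0 ∧ stdPart (c.im z) = 0) := by
    rintro ⟨h3, h4⟩
    apply hx
    change (stdPart (c.re z) : ℂ) + (stdPart (c.im z) : ℂ) * Complex.I = 0
    rw [h3, h4]
    simp
  have hN : mk (c.re z ^ 2 + c.im z ^ 2) = 0 := by
    by_contra h
    have h5 : ∀ a : R, 0 ≤ mk a → 0 ≤ mk (a ^ 2) := by
      intro a ha
      rw [pow_two, mk_mul]
      exact add_nonneg ha ha
    have h6 := stdPart_eq_zero.2 h
    rw [stdPart_add (h5 _ h1) (h5 _ h2), pow_two, pow_two, stdPart_mul h1 h1,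
      stdPart_mul h2 h2] at h6
    apply hne
    constructor
    · nlinarith [sq_nonneg (stdPart (c.re z)), sq_nonneg (stdPart (c.im z))]
    · nlinarith [sq_nonneg (stdPart (c.re z)), sq_nonneg (stdPart (c.im z))]
  obtain ⟨e1, e2⟩ := c.inv hz
  refine ⟨?_, ?_⟩
  · change 0 ≤ mk (c.re z⁻¹)
    rw [e1, mk_mul, mk_inv, hN, neg_zero, add_zero]
    exact h1
  · change 0 ≤ mk (c.im z⁻¹)
    rw [e2, mk_neg, mk_mul, mk_inv, hN, neg_zero, add_zero]
    exact h2

end abs

section fixed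

variable {Ω : Type} [Field Ω] [CharZero Ω] [IsAlgClosed Ω]

/-- an involution, with an element `I` -/
structure Inv (Ω : Type) [Field Ω] where
  T : Ω ≃+* Ω
  inv : ∀ x, T (T x) = x
  I : Ω
  hI : I ^ 2 = -1
  hTI : T I = -I

/-- the fixed field -/
def Inv.fx (t : Inv Ω) : Subfield Ω where
  carrier := {x | t.T x = x}
  mul_mem' {a b} ha hb := by
    change t.T (a * b) = a * b
    rw [map_mul, ha, hb]
  one_mem' := map_one t.T
  add_mem' {a b} ha hb := by
    change t.T (a + b) = a + b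
    rw [map_add, ha, hb]
  zero_mem' := map_zero t.T
  neg_mem' {a} ha := by
    change t.T (-a) = -a
    rw [map_neg, ha]
  inv_mem' a ha := by
    change t.T a⁻¹ = a⁻¹
    rw [map_inv₀, ha]

variable (t : Inv Ω)

lemma Inv.mem {x : Ω} : x ∈ t.fx ↔ t.T x = x := Iff.rfl

lemma Inv.sq_or (x : t.fx) : IsSquare x ∨ IsSquare (-x) := by
  obtain ⟨w, hw⟩ := IsAlgClosed.exists_pow_nat_eq (x : Ω) two_pos
  have h1 : (t.T w) ^ 2 = w ^ 2 := by
    rw [← map_pow, hw]
    exact x.2
  rcases sq_eq_sq_iff_eq_or_eq_neg.1 h1 with h | h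
  · left
    refine ⟨⟨w, h⟩, Subtype.ext ?_⟩
    change (x : Ω) = w * w
    rw [← hw, pow_two]
  · right
    refine ⟨⟨t.I * w, ?_⟩, Subtype.ext ?_⟩
    · rw [t.mem, map_mul, t.hTI, h]
      ring
    · change -(x : Ω) = t.I * w * (t.I * w)
      rw [← hw]
      linear_combination (-w ^ 2) * t.hI

lemma Inv.not_both (x : t.fx) (h1 : IsSquare x) (h2 : IsSquare (-x)) : x = 0 := by
  by_contra hx
  obtain ⟨a, ha⟩ := h1
  obtain ⟨b, hb⟩ := h2
  have ha0 : (a : Ω) ≠ 0 := by
    intro h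
    apply hx
    rw [ha]
    have : a = 0 := Subtype.ext h
    rw [this, mul_zero]
  have h3 : (x : Ω) = a * a := congrArg Subtype.val ha
  have h4 : -(x : Ω) = b * b := congrArg Subtype.val hb
  have h5 : (b / a : Ω) ^ 2 = t.I ^ 2 := by
    rw [t.hI, div_pow, div_eq_iff (pow_ne_zero _ ha0)]
    linear_combination -h4 - h3
  have h6 : t.T (b / a : Ω) = b / a := by
    rw [map_div₀, (t.mem).1 b.2, (t.mem).1 a.2]
  have hI0 : t.I ≠ 0 := by
    intro h
    have := t.hI
    rw [h, zero_pow two_ne_zero] at this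
    exact (neg_ne_zero.2 (one_ne_zero (α := Ω))) this.symm
  have h7 : (b / a : Ω) = 0 := by
    rcases sq_eq_sq_iff_eq_or_eq_neg.1 h5 with h | h
    · rw [h, t.hTI] at h6
      exact absurd (self_eq_neg.1 h6.symm) hI0
    · rw [h, map_neg, t.hTI, neg_neg] at h6
      exact absurd (self_eq_neg.1 h6) hI0
  rw [h7, zero_pow two_ne_zero, t.hI] at h5
  exact (neg_ne_zero.2 (one_ne_zero (α := Ω))) h5.symm

lemma Inv.add_sq (x y : t.fx) (h1 : IsSquare x) (h2 : IsSquare y) : IsSquare (x + y) := by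
  obtain ⟨a, rfl⟩ := h1
  obtain ⟨b, rfl⟩ := h2
  obtain ⟨u, hu⟩ := IsAlgClosed.exists_pow_nat_eq ((a : Ω) + t.I * b) two_pos
  have h3 : (t.T u) ^ 2 = (a : Ω) - t.I * b := by
    rw [← map_pow, hu, map_add, map_mul, t.hTI, (t.mem).1 b.2, (t.mem).1 a.2]
    ring
  refine ⟨⟨u * t.T u, ?_⟩, Subtype.ext ?_⟩
  · rw [t.mem, map_mul, t.inv, mul_comm]
  · change (a : Ω) * a + b * b = u * t.T u * (u * t.T u)
    linear_combination (-(t.T u) ^ 2) * hu - ((a : Ω) + t.I * b) * h3 + (b : Ω) ^ 2 * t.hI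

/-- the cone of squares -/
def Inv.cone : RingCone t.fx where
  carrier := {x | IsSquare x}
  mul_mem' {a b} ha hb := IsSquare.mul ha hb
  one_mem' := IsSquare.one
  add_mem' {a b} ha hb := t.add_sq a b ha hb
  zero_mem' := IsSquare.zero
  eq_zero_of_mem_of_neg_mem' {a} ha hb := t.not_both a ha hb

instance Inv.instTot : HasMemOrNegMem t.cone := ⟨fun a => t.sq_or a⟩

open scoped Classical in
/-- the order -/
noncomputable instance Inv.instLin : LinearOrder t.fx := LinearOrder.mkOfAddGroupCone t.cone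

instance Inv.instOrd : IsOrderedRing t.fx := IsOrderedRing.mkOfCone t.cone

instance Inv.instStr : IsStrictOrderedRing t.fx := IsOrderedRing.toIsStrictOrderedRing _

lemma Inv.nonneg_iff (x : t.fx) : 0 ≤ x ↔ IsSquare x := by
  change x - 0 ∈ t.cone ↔ _
  rw [sub_zero]
  exact Iff.rfl

/-- the coordinates -/
noncomputable def Inv.crd : Crd t.fx Ω where
  I := t.I
  hI := t.hI
  re z := ⟨(z + t.T z) / 2, by
    rw [t.mem, map_div₀, map_add, t.inv, map_ofNat, add_comm]⟩
  im z := ⟨(z - t.T z) / (2 * t.I), by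
    rw [t.mem, map_div₀, map_sub, t.inv, map_mul, map_ofNat, t.hTI, mul_neg, div_neg, ← neg_div,
      neg_sub]⟩
  eq z := by
    have hI0 : t.I ≠ 0 := by
      intro h
      have := t.hI
      rw [h, zero_pow two_ne_zero] at this
      exact (neg_ne_zero.2 (one_ne_zero (α := Ω))) this.symm
    change z = (z + t.T z) / 2 + t.I * ((z - t.T z) / (2 * t.I))
    field_simp
    ring
  ind a b h := by
    have hI0 : t.I ≠ 0 := by
      intro h
      have := t.hI
      rw [h, zero_pow two_ne_zero] at this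
      exact (neg_ne_zero.2 (one_ne_zero (α := Ω))) this.symm
    have h1 : (a : Ω) + t.I * b = 0 := h
    have h2 := congrArg t.T h1
    rw [map_add, map_mul, t.hTI, (t.mem).1 b.2, (t.mem).1 a.2, map_zero] at h2
    have h3 : (a : Ω) = 0 := by linear_combination (h1 + h2) / 2
    have h4 : t.I * (b : Ω) = 0 := by linear_combination (h1 - h2) / 2
    exact ⟨Subtype.ext h3, Subtype.ext ((mul_eq_zero.1 h4).resolve_left hI0)⟩

lemma Inv.re_T (z : Ω) : t.crd.re (t.T z) = t.crd.re z := by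
  apply Subtype.ext
  change (t.T z + t.T (t.T z)) / 2 = (z + t.T z) / 2
  rw [t.inv, add_comm]

lemma Inv.im_T (z : Ω) : t.crd.im (t.T z) = -t.crd.im z := by
  apply Subtype.ext
  change (t.T z - t.T (t.T z)) / (2 * t.I) = -((z - t.T z) / (2 * t.I))
  rw [t.inv, ← neg_div, neg_sub]

end fixed

end Pool.Agent.H886.SB
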