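import Pool.Agent.H886.Exp.Rank

/-!
# Relative units
-/

set_option autoImplicit false
set_option linter.unusedSectionVars false

namespace Pool.Agent.H886.SB

open NumberField NumberField.Units IsDedekindDomain Pool.Agent.W518.TC Pool.Agent.Q33.SecL
open Pool.Agent.H886.Exp

variable {K E : Type} [Field K] [NumberField K] [Field E] [NumberField E] [Algebra K E]

/-- `u / ρ u` -/
noncomputable def quo (ρ : E →+* E) : (𝓞 E)ˣ →* (𝓞 E)ˣ :=
  (MonoidHom.id (𝓞 E)ˣ) / (Units.map (RingOfIntegers.mapRingHom ρ : 𝓞 E →* 𝓞 E))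

lemma quo_apply (ρ : E →+* E) (u : (𝓞 E)ˣ) :
    quo ρ u = u / (Units.map (RingOfIntegers.mapRingHom ρ : 𝓞 E →* 𝓞 E)) u := rfl

/-- the map `u ↦ u / ρ u` modulo torsion -/
noncomputable def relMap (ρ : E →+* E) :
    Additive (𝓞 E)ˣ →ₗ[ℤ] dirichletUnitTheorem.logSpace E :=
  ((logEmbedding E).comp (MonoidHom.toAdditive (quo ρ))).toIntLinearMap

lemma relMap_apply (ρ : E →+* E) (u : (𝓞 E)ˣ) :
    relMap ρ (Additive.ofMul u) = logEmbedding E (Additive.ofMul (quo ρ u)) := rfl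

/-- the inclusion of the units -/
noncomputable def incMap (K E : Type) [Field K] [NumberField K] [Field E] [NumberField E]
    [Algebra K E] : Additive (𝓞 K)ˣ →ₗ[ℤ] Additive (𝓞 E)ˣ :=
  (MonoidHom.toAdditive (Units.map (algebraMap (𝓞 K) (𝓞 E) : 𝓞 K →* 𝓞 E))).toIntLinearMap

lemma incMap_injective : Function.Injective (incMap K E) := by
  intro a b h
  have h1 : Units.map (algebraMap (𝓞 K) (𝓞 E) : 𝓞 K →* 𝓞 E) a.toMul =
    Units.map (algebraMap (𝓞 K) (𝓞 E) : 𝓞 K →* 𝓞 E) b.toMul := h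
  apply Additive.toMul.injective
  apply Units.ext
  apply RingOfIntegers.algebraMap.injective K E
  exact congrArg Units.val h1

lemma incMap_le_ker (ρ : E →+* E) (hρ : ∀ c : K, ρ (algebraMap K E c) = algebraMap K E c) :
    LinearMap.range (incMap K E) ≤ LinearMap.ker (relMap ρ) := by
  rintro _ ⟨a, rfl⟩
  rw [LinearMap.mem_ker]
  have h1 : (Units.map (RingOfIntegers.mapRingHom ρ : 𝓞 E →* 𝓞 E))
      (Units.map (algebraMap (𝓞 K) (𝓞 E) : 𝓞 K →* 𝓞 E) a.toMul) =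
      Units.map (algebraMap (𝓞 K) (𝓞 E) : 𝓞 K →* 𝓞 E) a.toMul := by
    apply Units.ext
    apply RingOfIntegers.ext
    exact hρ _
  have h2 : quo ρ (Units.map (algebraMap (𝓞 K) (𝓞 E) : 𝓞 K →* 𝓞 E) a.toMul) = 1 := by
    rw [quo_apply, h1, div_self']
  have h3 : relMap ρ (incMap K E a) = logEmbedding E (Additive.ofMul
      (quo ρ (Units.map (algebraMap (𝓞 K) (𝓞 E) : 𝓞 K →* 𝓞 E) a.toMul))) := rfl
  rw [h3, h2, ofMul_one, map_zero]

lemma finrank_range_relMap (ρ : E →+* E) (hρ : ∀ c : K, ρ (algebraMap K E c) = algebraMap K E c) :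
    Module.finrank ℤ (LinearMap.range (relMap ρ)) + Fintype.card (InfinitePlace K) ≤
      Fintype.card (InfinitePlace E) := by
  have h1 : Module.finrank ℤ (LinearMap.range (relMap ρ)) +
      Module.finrank ℤ (LinearMap.ker (relMap ρ)) = Module.finrank ℤ (Additive (𝓞 E)ˣ) := by
    rw [← (LinearMap.ker (relMap ρ)).finrank_quotient_add_finrank,
      LinearEquiv.finrank_eq (LinearMap.quotKerEquivRange (relMap ρ))]
  have h2 : Module.finrank ℤ (Additive (𝓞 K)ˣ) ≤ Module.finrank ℤ (LinearMap.ker (relMap ρ)) := by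
    rw [← LinearMap.finrank_range_of_inj (incMap_injective (K := K) (E := E))]
    exact Submodule.finrank_mono (incMap_le_ker ρ hρ)
  rw [Units.finrank_eq] at h1 h2
  unfold Units.rank at h1 h2
  have h3 : 0 < Fintype.card (InfinitePlace K) := Fintype.card_pos
  have h4 : 0 < Fintype.card (InfinitePlace E) := Fintype.card_pos
  omega

lemma rel_aux (ρ : E →+* E) (u : (𝓞 E)ˣ) :
    ((cu u : Eˣ) : E) * (ρ ((cu u : Eˣ) : E)) ^ (-1 : ℤ) = ((cu (quo ρ u) : Eˣ) : E) := by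
  rw [quo_apply, map_div, Units.val_div_eq_div_val, zpow_neg_one, div_eq_mul_inv]
  rfl

/-- **Relative units of rank at most one.** -/
theorem rel_units (ρ : E →+* E) (hρ : ∀ c : K, ρ (algebraMap K E c) = algebraMap K E c)
    (h : Fintype.card (InfinitePlace E) ≤ Fintype.card (InfinitePlace K) + 1) :
    ∃ ε : E, IsIntegral ℤ ε ∧ IsIntegral ℤ ε⁻¹ ∧ ε ≠ 0 ∧ ∃ W : Finset E, (∀ ζ ∈ W, ζ ≠ 0) ∧
      ∀ η : E, η ≠ 0 → (∀ v, ord v η = 0) →
        ∃ ζ ∈ W, ∃ n : ℤ, η * (ρ η) ^ (-1 : ℤ) = ζ * ε ^ n := by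
  classical
  have h1 := finrank_range_relMap ρ hρ
  have h2 : Module.finrank ℤ (LinearMap.range (relMap ρ)) ≤ 1 := by omega
  obtain ⟨⟨_, ⟨u0, rfl⟩⟩, hv⟩ := finrank_le_one_iff.1 h2
  have htf : Finite (torsion E) := inferInstance
  have := Fintype.ofFinite (torsion E)
  refine ⟨(cu (quo ρ u0.toMul) : Eˣ), cu_int _, cu_int' _, Units.ne_zero _,
    (Finset.univ : Finset (torsion E)).image (fun ζ : torsion E => ((cu (ζ : (𝓞 E)ˣ) : Eˣ) : E)),
    ?_, ?_⟩
  · intro ζ hζ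
    obtain ⟨z, -, rfl⟩ := Finset.mem_image.1 hζ
    exact Units.ne_zero _
  · intro η h0 hη
    obtain ⟨u, rfl⟩ := exists_cu h0 hη
    obtain ⟨n, hn⟩ := hv ⟨relMap ρ (Additive.ofMul u), ⟨_, rfl⟩⟩
    have hn' : n • relMap ρ u0 = relMap ρ (Additive.ofMul u) := congrArg Subtype.val hn
    have hn2 : quo ρ u / (quo ρ u0.toMul) ^ n ∈ torsion E := by
      rw [← dirichletUnitTheorem.logEmbedding_eq_zero_iff, ofMul_div, map_sub, ofMul_zpow,
        map_zsmul]
      rw [sub_eq_zero]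
      exact hn'.symm
    refine ⟨_, Finset.mem_image.2 ⟨⟨_, hn2⟩, Finset.mem_univ _, rfl⟩, n, ?_⟩
    have e1 : quo ρ u = (quo ρ u / (quo ρ u0.toMul) ^ n) * (quo ρ u0.toMul) ^ n :=
      (div_mul_cancel _ _).symm
    have e2 := congrArg (fun z => ((cu z : Eˣ) : E)) e1
    have e3 : ((cu ((quo ρ u0.toMul) ^ n) : Eˣ) : E) = ((cu (quo ρ u0.toMul) : Eˣ) : E) ^ n := by
      rw [map_zpow (cu (L := E)), Units.val_zpow_eq_zpow_val]
    simp only [map_mul, Units.val_mul, e3] at e2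
    rw [rel_aux]
    exact e2

/-- **Relative units of rank zero.** -/
theorem rel_units_zero (ρ : E →+* E) (hρ : ∀ c : K, ρ (algebraMap K E c) = algebraMap K E c)
    (h : Fintype.card (InfinitePlace E) ≤ Fintype.card (InfinitePlace K)) :
    ∃ W : Finset E, (∀ ζ ∈ W, ζ ≠ 0) ∧
      ∀ η : E, η ≠ 0 → (∀ v, ord v η = 0) →
        ∃ ζ ∈ W, ∃ n : ℤ, η * (ρ η) ^ (-1 : ℤ) = ζ * (1 : E) ^ n := by
  classical
  have h1 := finrank_range_relMap ρ hρ
  have h2 : Module.finrank ℤ (LinearMap.range (relMap ρ)) = 0 := by omega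
  have h3 : LinearMap.range (relMap ρ) = ⊥ := Submodule.finrank_eq_zero.1 h2
  have htf : Finite (torsion E) := inferInstance
  have := Fintype.ofFinite (torsion E)
  refine ⟨(Finset.univ : Finset (torsion E)).image
    (fun ζ : torsion E => ((cu (ζ : (𝓞 E)ˣ) : Eˣ) : E)), ?_, ?_⟩
  · intro ζ hζ
    obtain ⟨z, -, rfl⟩ := Finset.mem_image.1 hζ
    exact Units.ne_zero _
  · intro η h0 hη
    obtain ⟨u, rfl⟩ := exists_cu h0 hη
    have h4 : relMap ρ (Additive.ofMul u) ∈ LinearMap.range (relMap ρ) := ⟨_, rfl⟩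
    rw [h3, Submodule.mem_bot] at h4
    have hn2 : quo ρ u ∈ torsion E := by
      rw [← dirichletUnitTheorem.logEmbedding_eq_zero_iff]
      exact h4
    refine ⟨_, Finset.mem_image.2 ⟨⟨_, hn2⟩, Finset.mem_univ _, rfl⟩, 0, ?_⟩
    rw [rel_aux, zpow_zero, mul_one]

/-- the units, in the same form with exponent zero -/
theorem units_zero (ρ : E →+* E) (h : Fintype.card (InfinitePlace E) ≤ 1) :
    ∃ W : Finset E, (∀ ζ ∈ W, ζ ≠ 0) ∧
      ∀ η : E, η ≠ 0 → (∀ v, ord v η = 0) →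
        ∃ ζ ∈ W, ∃ n : ℤ, η * (ρ η) ^ (0 : ℤ) = ζ * (1 : E) ^ n := by
  classical
  have hr : Units.rank E = 0 := by
    unfold Units.rank
    omega
  have htf : Finite (torsion E) := inferInstance
  have := Fintype.ofFinite (torsion E)
  refine ⟨(Finset.univ : Finset (torsion E)).image
    (fun ζ : torsion E => ((cu (ζ : (𝓞 E)ˣ) : Eˣ) : E)), ?_, ?_⟩
  · intro ζ hζ
    obtain ⟨z, -, rfl⟩ := Finset.mem_image.1 hζ
    exact Units.ne_zero _
  · intro η h0 hη
    obtain ⟨u, rfl⟩ := exists_cu h0 hη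
    obtain ⟨⟨ζ, f⟩, hu, -⟩ := Units.exist_unique_eq_mul_prod E u
    refine ⟨((cu (ζ : (𝓞 E)ˣ) : Eˣ) : E), Finset.mem_image.2 ⟨ζ, Finset.mem_univ _, rfl⟩, 0, ?_⟩
    simp only at hu
    have hI : IsEmpty (Fin (Units.rank E)) := by
      rw [hr]
      infer_instance
    rw [Finset.univ_eq_empty, Finset.prod_empty, mul_one] at hu
    rw [zpow_zero, zpow_zero, mul_one, mul_one, ← hu]

end Pool.Agent.H886.SB
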