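import Pool.Agent.H886.SB.Fin

/-!
# Values of algebraic functions at the points with a given coordinate
-/

set_option autoImplicit false
set_option linter.unusedSectionVars false

open IsDedekindDomain NumberField Polynomial

namespace Pool.Agent.H886.SB

open Pool.Agent.TH942 Pool.Agent.TH954
open Pool.Agent.Q33.BSec Pool.Agent.H886.Exp
open Pool.Agent.W620.SC (mem_of_fixed)

section special

variable {E M : Type} [Field E] [Field M] [Algebra E M]

/-- an equation that does not degenerate at `t = η` -/
lemma exists_special {t f : M} (ht : Transcendental E t)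
    (hf : IsAlgebraic (IntermediateField.adjoin E {t}) f) (η : E) :
    ∃ G : E[X][X], G.map (evalRingHom η) ≠ 0 ∧
      eval₂ (aeval t : E[X] →ₐ[E] M).toRingHom f G = 0 := by
  classical
  -- an equation
  obtain ⟨G0, hG0, hG0'⟩ : ∃ G : E[X][X], G ≠ 0 ∧
      eval₂ (aeval t : E[X] →ₐ[E] M).toRingHom f G = 0 := by
    rw [IntermediateField.isAlgebraic_adjoin_iff] at hf
    obtain ⟨q, hq0, hq⟩ := hf
    have hsurj : Function.Surjective ((aeval t : E[X] →ₐ[E] M).toRingHom.codRestrict
        (Algebra.adjoin E {t}).toSubring (fun p => by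
          change aeval t p ∈ Algebra.adjoin E {t}
          exact aeval_mem_adjoin_singleton E t)) := by
      rintro ⟨z, hz⟩
      have h1 : z ∈ Algebra.adjoin E {t} := hz
      rw [Algebra.adjoin_singleton_eq_range_aeval] at h1
      obtain ⟨p, hp⟩ := h1
      exact ⟨p, Subtype.ext hp⟩
    obtain ⟨G, hG⟩ := Polynomial.map_surjective _ hsurj q
    refine ⟨G, ?_, ?_⟩
    · rintro rfl
      rw [Polynomial.map_zero] at hG
      exact hq0 hG.symm
    · rw [← hG, aeval_def, eval₂_map] at hq
      exact hq
  -- the one with the smallest leading coefficient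
  have hS : ∃ n : ℕ, ∃ G : E[X][X], G ≠ 0 ∧
      eval₂ (aeval t : E[X] →ₐ[E] M).toRingHom f G = 0 ∧ G.leadingCoeff.natDegree = n :=
    ⟨_, G0, hG0, hG0', rfl⟩
  obtain ⟨G, hG, hG', hn⟩ := Nat.find_spec hS
  refine ⟨G, fun h0 => ?_, hG'⟩
  have h1 : C (X - C η) ∣ G := by
    rw [Polynomial.C_dvd_iff_dvd_coeff]
    intro k
    rw [dvd_iff_isRoot]
    have h2 := congrArg (fun q => Polynomial.coeff q k) h0
    simp only [coeff_map, coeff_zero, coe_evalRingHom] at h2
    exact h2
  obtain ⟨G', rfl⟩ := h1
  have hC0 : (C (X - C η) : E[X][X]) ≠ 0 := C_ne_zero.2 (X_sub_C_ne_zero η)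
  have hG'0 : G' ≠ 0 := by
    rintro rfl
    rw [mul_zero] at hG
    exact hG rfl
  refine Nat.find_min hS (m := G'.leadingCoeff.natDegree) ?_ ⟨G', hG'0, ?_, rfl⟩
  · rw [← hn, leadingCoeff_mul, leadingCoeff_C, natDegree_mul (X_sub_C_ne_zero η)
      (leadingCoeff_ne_zero.2 hG'0), natDegree_X_sub_C]
    omega
  · rw [eval₂_mul, eval₂_C] at hG'
    refine (mul_eq_zero.1 hG').resolve_left fun h2 => ?_
    change aeval t (X - C η) = 0 at h2
    rw [map_sub, aeval_X, aeval_C, sub_eq_zero] at h2
    apply ht
    rw [h2]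
    exact isAlgebraic_algebraMap η

end special

section plc

variable {K M C : Type} [Field K] [Field M] [Field C] [Algebra K M] [Algebra K C] {pl : Plc K M C}

/-- the values of polynomials -/
lemma val_eval₂ {A : Type} [CommRing A] {i : A →+* M} {i' : A →+* C}
    (hi : ∀ a, pl.val (i a) (i' a)) {z : M} {c : C} (hz : pl.val z c) (q : A[X]) :
    pl.val (eval₂ i z q) (eval₂ i' c q) := by
  induction q using Polynomial.induction_on' with
  | add p q hp hq =>
    rw [eval₂_add, eval₂_add]
    exact hp.add hq
  | monomial n a =>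
    rw [eval₂_monomial, eval₂_monomial]
    exact (hi a).mul (hz.pow n)

lemma val_mv_eval₂ {A ι : Type} [CommRing A] {i : A →+* M} {i' : A →+* C}
    (hi : ∀ a, pl.val (i a) (i' a)) {z : ι → M} {c : ι → C} (hz : ∀ k, pl.val (z k) (c k))
    (q : MvPolynomial ι A) : pl.val (MvPolynomial.eval₂ i z q) (MvPolynomial.eval₂ i' c q) := by
  induction q using MvPolynomial.induction_on with
  | C a =>
    rw [MvPolynomial.eval₂_C, MvPolynomial.eval₂_C]
    exact hi a
  | add p q hp hq =>
    rw [MvPolynomial.eval₂_add, MvPolynomial.eval₂_add]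
    exact hp.add hq
  | mul_X p k hp =>
    rw [MvPolynomial.eval₂_mul, MvPolynomial.eval₂_mul, MvPolynomial.eval₂_X, MvPolynomial.eval₂_X]
    exact hp.mul (hz k)

end plc

section places

open Pool.Agent.TH841.NF

lemma nonempty_places (K : Type) [Field K] [NumberField K] :
    Nonempty (HeightOneSpectrum (𝓞 K)) := by
  obtain ⟨φ⟩ : Nonempty (K →+* PadicAlgCl 2) := inferInstance
  exact ⟨pls φ⟩

end places

section main

variable {K : Type} [Field K] {F M B : Type} [Field F] [Field M] [Field B]
  [Algebra K F] [Algebra F M] [Algebra.IsAlgebraic F M] [Algebra K M] [IsScalarTower K F M]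
  [Algebra K B] [IsAlgClosure K B] {ι : Type}

/-- the constant fields along the section -/
noncomputable def jE (s : GalSection K F M B) (E : IntermediateField K B) (g : B ≃ₐ[K] B) :
    E →+* M := ((s.j : B →+* M).comp (g : B →+* B)).comp (algebraMap E B)

/-- **Functions in the ring generated by the units have rational values.** -/
theorem rational_value [CharZero K] (s : GalSection K F M B) (E : IntermediateField K B)
    {y : ι → M} {η : ι → E} {V : Type} (C : V → Type) [∀ v, Field (C v)] [∀ v, Algebra K (C v)]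
    (pl : ∀ v, Plc K M (C v)) [Nonempty V]
    (h : ∀ v (g : B ≃ₐ[K] B) i, (pl v).val (s.s g (y i) - s.j (g (η i : B))) 0) (f : F)
    (G : MvPolynomial ι E)
    (hG : MvPolynomial.eval₂ ((s.j : B →+* M).comp (algebraMap E B)) y G = algebraMap F M f) :
    ∃ ξ : K, algebraMap K E ξ = MvPolynomial.eval η G ∧
      ∀ v, (pl v).val (algebraMap F M f) (algebraMap K (C v) ξ) := by
  have hB1 : IsAlgClosed B := IsAlgClosure.isAlgClosed K
  have hB2 : Algebra.IsAlgebraic K B := IsAlgClosure.isAlgebraic
  have hNo : Normal K B := IsAlgClosure.normal K B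
  have hG' : IsGalois K B := ⟨⟩
  set β : E := MvPolynomial.eval η G with hβ
  have key : ∀ v (g : B ≃ₐ[K] B), (pl v).val (algebraMap F M f) ((pl v).iot s.j (g (β : B))) := by
    intro v g
    have h1 : algebraMap F M f = MvPolynomial.eval₂ (((s.j : B →+* M).comp (g : B →+* B)).comp
        (algebraMap E B)) (fun i => s.s g (y i)) G := by
      have h2 := congrArg (s.s g) hG
      rw [AlgEquiv.commutes] at h2
      rw [← h2]
      have h3 := MvPolynomial.eval₂_comp_left (s.s g : M →+* M)
        ((s.j : B →+* M).comp (algebraMap E B)) y G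
      have h4 : (s.s g : M →+* M).comp ((s.j : B →+* M).comp (algebraMap E B)) =
          ((s.j : B →+* M).comp (g : B →+* B)).comp (algebraMap E B) := by
        ext z
        exact s.sec g z
      rw [h4] at h3
      exact h3
    have h2 : (pl v).iot s.j (g (β : B)) = MvPolynomial.eval₂
        ((((pl v).iot s.j : B →+* C v).comp (g : B →+* B)).comp (algebraMap E B))
        (fun i => (pl v).iot s.j (g (η i : B))) G := by
      have h3 := MvPolynomial.eval₂_comp_left
        ((((pl v).iot s.j : B →+* C v).comp (g : B →+* B)).comp (algebraMap E B))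
        (RingHom.id E) η G
      rw [RingHom.comp_id] at h3
      exact h3
    rw [h1, h2]
    refine val_mv_eval₂ (i := ((s.j : B →+* M).comp (g : B →+* B)).comp (algebraMap E B))
      (i' := (((pl v).iot s.j : B →+* C v).comp (g : B →+* B)).comp (algebraMap E B))
      (fun a => (pl v).iot_spec s.j _) (fun i => ?_) G
    have h3 := (h v g i).add ((pl v).iot_spec s.j (g (η i : B)))
    rw [sub_add_cancel, zero_add] at h3
    exact h3
  obtain ⟨v0⟩ : Nonempty V := inferInstance
  have hfix : ∀ g : B ≃ₐ[K] B, g (β : B) = β := by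
    intro g
    exact ((pl v0).iot s.j).toRingHom.injective ((key v0 g).unique (key v0 1))
  have hmem : (β : B) ∈ (⊥ : IntermediateField K B) := by
    apply mem_of_fixed
    intro g _
    exact hfix g
  obtain ⟨ξ, hξ⟩ := IntermediateField.mem_bot.1 hmem
  refine ⟨ξ, Subtype.ext hξ, fun v => ?_⟩
  have h1 := key v 1
  have h2 : (pl v).iot s.j ((1 : B ≃ₐ[K] B) (β : B)) = algebraMap K (C v) ξ := by
    change (pl v).iot s.j (β : B) = _
    rw [← hξ, AlgHom.commutes]
  rwa [h2] at h1

/-- **All functions have finitely many values.** -/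
theorem finite_values [CharZero K] (s : GalSection K F M B) (E : IntermediateField K B)
    [FiniteDimensional K E]
    (hF : ∃ t : F, Transcendental K t ∧ Algebra.IsAlgebraic (IntermediateField.adjoin K {t}) F)
    {y : M} (hy : Transcendental K y) {η : E} {V : Type} (C : V → Type) [∀ v, Field (C v)]
    [∀ v, Algebra K (C v)] (pl : ∀ v, Plc K M (C v))
    (h : ∀ v, (pl v).val (y - s.j (η : B)) 0) (f : F) :
    ∃ q : K[X], q ≠ 0 ∧ ∀ v (x : C v), (pl v).val (algebraMap F M f) x → aeval x q = 0 := by
  classical
  have hB1 : IsAlgClosed B := IsAlgClosure.isAlgClosed K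
  have hB2 : Algebra.IsAlgebraic K B := IsAlgClosure.isAlgebraic
  let algEM : Algebra E M := ((s.j : B →+* M).comp (algebraMap E B)).toAlgebra
  have hEM : ∀ z : E, algebraMap E M z = s.j z := fun _ => rfl
  have hst : IsScalarTower K E M := IsScalarTower.of_algebraMap_eq fun c => by
    rw [hEM]
    exact (s.j.commutes c).symm
  have halgKE : Algebra.IsAlgebraic K E := inferInstance
  obtain ⟨t, ht, hFt⟩ := hF
  have htE : Transcendental E (algebraMap F M t) := by
    intro h0
    have h3 : IsAlgebraic K (algebraMap F M t) := h0.restrictScalars K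
    exact ht ((isAlgebraic_algebraMap_iff (algebraMap F M).injective).1 h3)
  have hyE : Transcendental E y := fun h0 => hy (h0.restrictScalars K)
  have hMalg := alg_exchange htE (alg_up (K := K) (E := E) (M := M) hFt) hyE
  obtain ⟨G, hG, hG'⟩ := exists_special hyE (hMalg.isAlgebraic (algebraMap F M f)) η
  set q1 : B[X] := (G.map (evalRingHom η)).map (algebraMap E B) with hq1
  have hq10 : q1 ≠ 0 := (Polynomial.map_ne_zero_iff (algebraMap E B).injective).2 hG
  refine ⟨∏ β ∈ q1.roots.toFinset, minpoly K β, ?_, ?_⟩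
  · refine Finset.prod_ne_zero_iff.2 fun β _ => minpoly.ne_zero (Algebra.IsIntegral.isIntegral β)
  · intro v x hx
    have h1 : (pl v).val y ((pl v).iot s.j (η : B)) := by
      have h3 := (h v).add ((pl v).iot_spec s.j (η : B))
      rw [sub_add_cancel, zero_add] at h3
      exact h3
    let κ : E →+* C v := ((pl v).iot s.j : B →+* C v).comp (algebraMap E B)
    have h2 := val_eval₂ (pl := pl v) (i := (aeval y : E[X] →ₐ[E] M).toRingHom)
      (i' := κ.comp (evalRingHom η)) (fun a => by
        have h3 := val_eval₂ (pl := pl v) (i := algebraMap E M) (i' := κ)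
          (fun z => (pl v).iot_spec s.j _) h1 a
        have h4 : (κ.comp (evalRingHom η)) a = eval₂ κ ((pl v).iot s.j (η : B)) a := by
          change κ (eval η a) = _
          rw [← eval₂_id, hom_eval₂, RingHom.comp_id]
          rfl
        rw [h4]
        exact h3) hx G
    rw [hG'] at h2
    have h3 := h2.unique Plc.val_zero
    have h5 : aeval x (∏ β ∈ q1.roots.toFinset, minpoly K β) =
        ∏ β ∈ q1.roots.toFinset, aeval x (minpoly K β) := map_prod _ _ _
    have h6 : eval₂ ((pl v).iot s.j : B →+* C v) x q1 = 0 := by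
      rw [hq1, eval₂_map, eval₂_map]
      exact h3
    have hsp : q1 = Polynomial.C q1.leadingCoeff *
        (q1.roots.map (fun a => X - Polynomial.C a)).prod :=
      (IsAlgClosed.splits q1).eq_prod_roots
    rw [hsp, eval₂_mul, eval₂_C, mul_eq_zero] at h6
    rcases h6 with h6 | h6
    · rw [_root_.map_eq_zero, leadingCoeff_eq_zero] at h6
      exact absurd h6 hq10
    · rw [eval₂_multiset_prod, Multiset.map_map, Multiset.prod_eq_zero_iff, Multiset.mem_map] at h6
      obtain ⟨β, hβ, h7⟩ := h6
      rw [Function.comp_apply, eval₂_sub, eval₂_X, eval₂_C, sub_eq_zero] at h7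
      rw [h5]
      refine Finset.prod_eq_zero (i := β) (Multiset.mem_toFinset.2 hβ) ?_
      rw [h7]
      have h8 := congrArg ((pl v).iot s.j) (minpoly.aeval K β)
      rw [map_zero] at h8
      rw [← h8]
      exact (aeval_algHom_apply ((pl v).iot s.j) β (minpoly K β))

end main

end Pool.Agent.H886.SB
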