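import Pool.Agent.H886.SB.Spec

/-!
# The values of all units on coverings at an adelic point on a finite subscheme
-/

set_option autoImplicit false
set_option linter.unusedSectionVars false

open IsDedekindDomain NumberField Polynomial

namespace Pool.Agent.H886.SB

open Pool.Agent.TH942 Pool.Agent.TH954 Pool.Agent.TH841.NF
open Pool.Agent.Q33.SecL (GalSec Pt Dat adelic_point)
open Pool.Agent.Q33.BSec Pool.Agent.H886.Exp
open Pool.Agent.W620.SC (mem_of_fixed)

section special

variable {E M : Type} [Field E] [Field M] [Algebra E M]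

/-- an equation that does not degenerate for any value of `t` -/
lemma exists_special_all {t f : M} (ht : Transcendental E t)
    (hf : IsAlgebraic (IntermediateField.adjoin E {t}) f) :
    ∃ G : E[X][X], (∀ η : E, G.map (evalRingHom η) ≠ 0) ∧
      eval₂ (aeval t : E[X] →ₐ[E] M).toRingHom f G = 0 := by
  classical
  obtain ⟨G0, hG0, hG0'⟩ : ∃ G : E[X][X], G ≠ 0 ∧
      eval₂ (aeval t : E[X] →ₐ[E] M).toRingHom f G = 0 := by
    obtain ⟨G, hG, hG'⟩ := exists_special ht hf 0
    refine ⟨G, ?_, hG'⟩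
    rintro rfl
    rw [Polynomial.map_zero] at hG
    exact hG rfl
  have hS : ∃ n : ℕ, ∃ G : E[X][X], G ≠ 0 ∧
      eval₂ (aeval t : E[X] →ₐ[E] M).toRingHom f G = 0 ∧ G.leadingCoeff.natDegree = n :=
    ⟨_, G0, hG0, hG0', rfl⟩
  obtain ⟨G, hG, hG', hn⟩ := Nat.find_spec hS
  refine ⟨G, fun η h0 => ?_, hG'⟩
  have h1 : C (X - C η) ∣ G := by
    rw [Polynomial.C_dvd_iff_dvd_coeff]
    intro k
    rw [dvd_iff_isRoot]
    have h2 := congrArg (fun q => Polynomial.coeff q k) h0
    simp only [coeff_map, coeff_zero, coe_evalRingHom] at h2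
    exact h2
  obtain ⟨G', rfl⟩ := h1
  have hG'0 : G' ≠ 0 := by
    rintro rfl
    rw [mul_zero] at hG
    exact hG rfl
  refine Nat.find_min hS (m := G'.leadingCoeff.natDegree) ?_ ⟨G', hG'0, ?_, rfl⟩
  · rw [← hn, leadingCoeff_mul, leadingCoeff_C, natDegree_mul (X_sub_C_ne_zero η)
      (leadingCoeff_ne_zero.2 hG'0), natDegree_X_sub_C]
    omega
  · rw [eval₂_mul, eval₂_C] at hG'
    refine (mul_eq_zero.1 hG').resolve_left fun h2 => ?_
    change aeval t (X - C η) = 0 at h2
    rw [map_sub, aeval_X, aeval_C, sub_eq_zero] at h2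
    apply ht
    rw [h2]
    exact isAlgebraic_algebraMap η

end special

section values

variable {K : Type} [Field K] {F M B : Type} [Field F] [Field M] [Field B]
  [Algebra K F] [Algebra F M] [Algebra.IsAlgebraic F M] [Algebra K M] [IsScalarTower K F M]
  [Algebra K B] [IsAlgClosure K B] {ι : Type}

/-- **All functions have finitely many values, if one does.** -/
theorem finite_M [CharZero K] (s : GalSection K F M B)
    (hF : ∃ t : F, Transcendental K t ∧ Algebra.IsAlgebraic (IntermediateField.adjoin K {t}) F)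
    {y : M} (hy : Transcendental K y) {V : Type} (C : V → Type) [∀ v, Field (C v)]
    [∀ v, Algebra K (C v)] (pl : ∀ v, Plc K M (C v)) (S : Finset B)
    (h : ∀ v, ∃ β ∈ S, (pl v).val (y - s.j β) 0) (z : M) :
    ∃ T : Finset B, ∀ v, z ∈ (pl v).W → ∃ β ∈ T, (pl v).val (z - s.j β) 0 := by
  classical
  have hB1 : IsAlgClosed B := IsAlgClosure.isAlgClosed K
  have hB2 : Algebra.IsAlgebraic K B := IsAlgClosure.isAlgebraic
  let algBM : Algebra B M := (s.j : B →+* M).toAlgebra
  have hBM : ∀ z : B, algebraMap B M z = s.j z := fun _ => rfl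
  have hst : IsScalarTower K B M := IsScalarTower.of_algebraMap_eq fun c => by
    rw [hBM]
    exact (s.j.commutes c).symm
  obtain ⟨t, ht, hFt⟩ := hF
  have htE : Transcendental B (algebraMap F M t) := by
    intro h0
    have h3 : IsAlgebraic K (algebraMap F M t) := h0.restrictScalars K
    exact ht ((isAlgebraic_algebraMap_iff (algebraMap F M).injective).1 h3)
  have hyE : Transcendental B y := fun h0 => hy (h0.restrictScalars K)
  have hMalg := alg_exchange htE (alg_up (K := K) (E := B) (M := M) hFt) hyE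
  obtain ⟨G, hG, hG'⟩ := exists_special_all hyE (hMalg.isAlgebraic z)
  refine ⟨S.biUnion fun β => (G.map (evalRingHom β)).roots.toFinset, fun v hz => ?_⟩
  obtain ⟨x, hx⟩ := Plc.val_of_mem hz
  obtain ⟨η, hη, hv⟩ := h v
  have h1 : (pl v).val y ((pl v).iot s.j η) := by
    have h3 := hv.add ((pl v).iot_spec s.j η)
    rw [sub_add_cancel, zero_add] at h3
    exact h3
  let κ : B →+* C v := ((pl v).iot s.j : B →+* C v)
  have h2 := val_eval₂ (pl := pl v) (i := (aeval y : B[X] →ₐ[B] M).toRingHom)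
    (i' := κ.comp (evalRingHom η)) (fun a => by
      have h3 := val_eval₂ (pl := pl v) (i := algebraMap B M) (i' := κ)
        (fun z => (pl v).iot_spec s.j _) h1 a
      have h4 : (κ.comp (evalRingHom η)) a = eval₂ κ ((pl v).iot s.j η) a := by
        change κ (eval η a) = _
        rw [← eval₂_id, hom_eval₂, RingHom.comp_id]
        rfl
      rw [h4]
      exact h3) hx G
  rw [hG'] at h2
  have h3 := h2.unique Plc.val_zero
  set q1 : B[X] := G.map (evalRingHom η) with hq1
  have h6 : eval₂ κ x q1 = 0 := by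
    rw [hq1, eval₂_map]
    exact h3
  have hsp : q1 = Polynomial.C q1.leadingCoeff *
      (q1.roots.map (fun a => X - Polynomial.C a)).prod :=
    (IsAlgClosed.splits q1).eq_prod_roots
  rw [hsp, eval₂_mul, eval₂_C, mul_eq_zero] at h6
  rcases h6 with h6 | h6
  · rw [_root_.map_eq_zero, leadingCoeff_eq_zero] at h6
    exact absurd h6 (hG η)
  · rw [eval₂_multiset_prod, Multiset.map_map, Multiset.prod_eq_zero_iff, Multiset.mem_map] at h6
    obtain ⟨β, hβ, h7⟩ := h6
    rw [Function.comp_apply, eval₂_sub, eval₂_X, eval₂_C, sub_eq_zero] at h7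
    refine ⟨β, Finset.mem_biUnion.2 ⟨η, hη, Multiset.mem_toFinset.2 hβ⟩, ?_⟩
    have h8 := hx.sub ((pl v).iot_spec s.j β)
    rw [h7] at h8
    have h9 : κ β - (pl v).iot s.j β = 0 := sub_self _
    rw [h9] at h8
    exact h8

/-- the values of a function as roots of a polynomial -/
theorem finite_poly [CharZero K] (s : GalSection K F M B)
    (hF : ∃ t : F, Transcendental K t ∧ Algebra.IsAlgebraic (IntermediateField.adjoin K {t}) F)
    {y : M} (hy : Transcendental K y) {V : Type} (C : V → Type) [∀ v, Field (C v)]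
    [∀ v, Algebra K (C v)] (pl : ∀ v, Plc K M (C v)) (S : Finset B)
    (h : ∀ v, ∃ β ∈ S, (pl v).val (y - s.j β) 0) (f : F) :
    ∃ q : K[X], q ≠ 0 ∧ ∀ v (x : C v), (pl v).val (algebraMap F M f) x → aeval x q = 0 := by
  classical
  have hB2 : Algebra.IsAlgebraic K B := IsAlgClosure.isAlgebraic
  obtain ⟨T, hT⟩ := finite_M s hF hy C pl S h (algebraMap F M f)
  refine ⟨∏ β ∈ T, minpoly K β, Finset.prod_ne_zero_iff.2 fun β _ =>
    minpoly.ne_zero (Algebra.IsIntegral.isIntegral β), fun v x hx => ?_⟩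
  obtain ⟨β, hβ, h1⟩ := hT v hx.1
  have h2 := h1.add ((pl v).iot_spec s.j β)
  rw [sub_add_cancel, zero_add] at h2
  rw [map_prod]
  refine Finset.prod_eq_zero hβ ?_
  rw [hx.unique h2]
  have h8 := congrArg ((pl v).iot s.j) (minpoly.aeval K β)
  rw [map_zero] at h8
  rw [← h8]
  exact (aeval_algHom_apply ((pl v).iot s.j) β (minpoly K β))

/-- a function that vanishes somewhere is not constant -/
theorem transcendental_of_vanish (s : GalSection K F M B) {V : Type} [Nonempty V] (C : V → Type)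
    [∀ v, Field (C v)] [∀ v, Algebra K (C v)] (pl : ∀ v, Plc K M (C v)) {z : M} (hz : z ≠ 0)
    (h : ∀ v, (pl v).val z 0) : Transcendental K z := by
  have hB1 : IsAlgClosed B := IsAlgClosure.isAlgClosed K
  have hB2 : Algebra.IsAlgebraic K B := IsAlgClosure.isAlgebraic
  intro halg
  obtain ⟨v⟩ : Nonempty V := inferInstance
  obtain ⟨b, hb⟩ : ∃ b : B, s.j b = z := by
    obtain ⟨q, hq0, hq⟩ := halg
    have h1 : aeval z q = 0 := hq
    have hsp := (IsAlgClosed.splits (q.map (algebraMap K B))).eq_prod_roots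
    have h2 : eval₂ (s.j : B →+* M) z (q.map (algebraMap K B)) = 0 := by
      rw [eval₂_map]
      have e1 : ((s.j : B →+* M).comp (algebraMap K B)) = algebraMap K M := by
        ext c
        exact s.j.commutes c
      rw [e1]
      exact h1
    have hq1 : q.map (algebraMap K B) ≠ 0 :=
      (Polynomial.map_ne_zero_iff (algebraMap K B).injective).2 hq0
    rw [hsp, eval₂_mul, eval₂_C, mul_eq_zero] at h2
    rcases h2 with h2 | h2
    · rw [_root_.map_eq_zero, leadingCoeff_eq_zero] at h2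
      exact absurd h2 hq1
    · rw [eval₂_multiset_prod, Multiset.map_map, Multiset.prod_eq_zero_iff,
        Multiset.mem_map] at h2
      obtain ⟨β, -, h7⟩ := h2
      rw [Function.comp_apply, eval₂_sub, eval₂_X, eval₂_C, sub_eq_zero] at h7
      exact ⟨β, h7.symm⟩
  have h3 := (h v).unique (by
    rw [← hb]
    exact (pl v).iot_spec s.j b)
  have h4 : b = 0 := ((pl v).iot s.j).toRingHom.injective (by
    rw [map_zero]
    exact h3.symm)
  apply hz
  rw [← hb, h4, map_zero]

/-- the number `b` is the value of `r` at all conjugate points -/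
def Gl (s : GalSection K F M B) {V : Type} {C : V → Type} [∀ v, Field (C v)]
    [∀ v, Algebra K (C v)] (pl : ∀ v, Plc K M (C v)) (r : M) (b : B) : Prop :=
  ∀ v (g : B ≃ₐ[K] B), (pl v).val (s.s g r - s.j (g b)) 0

variable {s : GalSection K F M B} {V : Type} {C : V → Type} [∀ v, Field (C v)]
    [∀ v, Algebra K (C v)] {pl : ∀ v, Plc K M (C v)}

lemma Gl.val {r : M} {b : B} (h : Gl s pl r b) [Algebra.IsAlgebraic K B] (v : V)
    (g : B ≃ₐ[K] B) : (pl v).val (s.s g r) ((pl v).iot s.j (g b)) := by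
  have h3 := (h v g).add ((pl v).iot_spec s.j (g b))
  rw [sub_add_cancel, zero_add] at h3
  exact h3

lemma Gl.of_val [Algebra.IsAlgebraic K B] {r : M} {b : B}
    (h : ∀ v (g : B ≃ₐ[K] B), (pl v).val (s.s g r) ((pl v).iot s.j (g b))) : Gl s pl r b := by
  intro v g
  have h3 := (h v g).sub ((pl v).iot_spec s.j (g b))
  rwa [sub_self] at h3

lemma Gl.add [Algebra.IsAlgebraic K B] {r r' : M} {b b' : B} (h : Gl s pl r b)
    (h' : Gl s pl r' b') : Gl s pl (r + r') (b + b') :=
  Gl.of_val fun v g => by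
    rw [map_add, map_add, map_add]
    exact (h.val v g).add (h'.val v g)

lemma Gl.mul [Algebra.IsAlgebraic K B] {r r' : M} {b b' : B} (h : Gl s pl r b)
    (h' : Gl s pl r' b') : Gl s pl (r * r') (b * b') :=
  Gl.of_val fun v g => by
    rw [map_mul, map_mul, map_mul]
    exact (h.val v g).mul (h'.val v g)

lemma Gl.neg [Algebra.IsAlgebraic K B] {r : M} {b : B} (h : Gl s pl r b) :
    Gl s pl (-r) (-b) :=
  Gl.of_val fun v g => by
    rw [map_neg, map_neg, map_neg]
    have h1 := (Plc.val_zero (pl := pl v)).sub (h.val v g)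
    rwa [zero_sub, zero_sub] at h1

lemma Gl.cst [Algebra.IsAlgebraic K B] (b : B) : Gl s pl (s.j b) b :=
  Gl.of_val fun v g => by
    rw [s.sec]
    exact (pl v).iot_spec s.j (g b)

lemma Gl.unique [Algebra.IsAlgebraic K B] [Nonempty V] {r : M} {b b' : B} (h : Gl s pl r b)
    (h' : Gl s pl r b') : b = b' := by
  obtain ⟨v⟩ : Nonempty V := inferInstance
  have h1 := (h.val v 1).unique (h'.val v 1)
  exact ((pl v).iot s.j).toRingHom.injective h1

lemma Gl.conj {r : M} {b : B} (h : Gl s pl r b) (g : B ≃ₐ[K] B) : Gl s pl (s.s g r) (g b) := by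
  intro v g'
  have h1 := h v (g' * g)
  rw [map_mul] at h1
  exact h1

/-- the ring homomorphism given by the values -/
theorem exists_hom [Nonempty V] (R' : Subring M) (hR : ∀ r ∈ R', ∃ b, Gl s pl r b) :
    ∃ θ : R' →+* B, ∀ r : R', Gl s pl (r : M) (θ r) := by
  classical
  have hB2 : Algebra.IsAlgebraic K B := IsAlgClosure.isAlgebraic
  choose b hb using fun r : R' => hR r r.2
  refine ⟨⟨⟨⟨b, ?_⟩, ?_⟩, ?_, ?_⟩, hb⟩
  · have h1 := Gl.cst (s := s) (pl := pl) (1 : B)
    rw [map_one] at h1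
    exact (hb 1).unique h1
  · intro x y
    exact (hb (x * y)).unique ((hb x).mul (hb y))
  · have h1 := Gl.cst (s := s) (pl := pl) (0 : B)
    rw [map_zero] at h1
    exact (hb 0).unique h1
  · intro x y
    exact (hb (x + y)).unique ((hb x).add (hb y))

/-- generators suffice -/
theorem gl_closure (S : Set M) (hS : ∀ r ∈ S, ∃ b, Gl s pl r b) (r : M)
    (hr : r ∈ Subring.closure S) : ∃ b, Gl s pl r b := by
  have hB2 : Algebra.IsAlgebraic K B := IsAlgClosure.isAlgebraic
  induction hr using Subring.closure_induction with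
  | mem x hx => exact hS x hx
  | zero =>
    refine ⟨0, ?_⟩
    have h1 := Gl.cst (s := s) (pl := pl) (0 : B)
    rwa [map_zero] at h1
  | one =>
    refine ⟨1, ?_⟩
    have h1 := Gl.cst (s := s) (pl := pl) (1 : B)
    rwa [map_one] at h1
  | add x y _ _ hx hy =>
    obtain ⟨b, hb⟩ := hx
    obtain ⟨b', hb'⟩ := hy
    exact ⟨_, hb.add hb'⟩
  | neg x _ hx =>
    obtain ⟨b, hb⟩ := hx
    exact ⟨_, hb.neg⟩
  | mul x y _ _ hx hy =>
    obtain ⟨b, hb⟩ := hx
    obtain ⟨b', hb'⟩ := hy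
    exact ⟨_, hb.mul hb'⟩

end values

section main

variable {K : Type} [Field K] [NumberField K] {F M B : Type} [Field F] [Field M] [Field B]
  [Algebra K F] [Algebra F M] [Algebra.IsAlgebraic F M] [Algebra K M] [IsScalarTower K F M]
  [Algebra K B] [IsAlgClosure K B] {R : Subring F} {s : GalSection K F M B}
    {pl : ∀ v : HeightOneSpectrum (𝓞 K), Plc K M (AlgebraicClosure (v.adicCompletion K))}

/-- the values of a unit with global adelic number -/
lemma gl_of_hasVal {E : IntermediateField K B} {y : M}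
    {Y : ∀ (p : ℕ) [Fact p.Prime], (E →+* PadicAlgCl p) → PadicAlgCl p}
    (hY : HasVal (toSec s) E (fun p _ φ => toPt φ (pl (pls φ))) y Y) {η : E}
    (hη : ∀ (p : ℕ) [Fact p.Prime] (Φ : E →+* PadicAlgCl p), Y p Φ = Φ η) :
    Gl s pl y (η : B) := by
  have hB1 : IsAlgClosed B := IsAlgClosure.isAlgClosed K
  have hB2 : Algebra.IsAlgebraic K B := IsAlgClosure.isAlgebraic
  intro v g
  obtain ⟨p, hp, φ, rfl⟩ := exists_pls v
  set P := toPt φ (pl (pls φ)) with hP
  let Φ : E →+* PadicAlgCl p :=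
    ((P.emb s.j : B →+* PadicAlgCl p).comp (g : B →+* B)).comp (algebraMap E B)
  have hΦ : Φ.comp (algebraMap K E) = φ := by
    ext c
    change P.emb s.j (g (algebraMap K B c)) = φ c
    rw [g.commutes, P.emb_alg]
  have h1 := hY p φ Φ hΦ g (fun z => rfl)
  have h2 : P.Val (s.j (g (η : B))) (Φ η) := P.val_emb s.j _
  rw [hη] at h1
  have h3 := Pt.Val.sub h1 h2
  rw [sub_self] at h3
  obtain ⟨c, hc, hc'⟩ := toPt_val' h3
  have h4 : c = 0 := (bx φ).injective (by rw [hc', map_zero])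
  rw [h4] at hc
  exact hc

/-- **The values of a unit at an adelic point on a finite subscheme.** -/
theorem gl_unit (h : AdPt R s pl)
    (hF : ∃ t : F, Transcendental K t ∧ Algebra.IsAlgebraic (IntermediateField.adjoin K {t}) F)
    {y0 : M} (hy0 : Transcendental K y0) (S : Finset B)
    (hS : ∀ v, ∃ β ∈ S, (pl v).val (y0 - s.j β) 0) (y : M) (hne : y ≠ 0) (hy : IntOver R y)
    (hy' : IntOver R y⁻¹) (hroot : ∀ N : ℕ, 0 < N → ∃ w : M, w ≠ 0 ∧ w ^ N = y) :
    ∃ b, Gl s pl y b ∧ ∀ N : ℕ, 0 < N → ∃ w : M, w ^ N = y / s.j b ∧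
      ∀ g : B ≃ₐ[K] B, s.s g y = y → s.s g w = w := by
  classical
  have hB1 : IsAlgClosed B := IsAlgClosure.isAlgClosed K
  have hB2 : Algebra.IsAlgebraic K B := IsAlgClosure.isAlgebraic
  have hcB : CharZero B := charZero_of_injective_algebraMap (algebraMap K B).injective
  obtain ⟨E, hE, hfx'⟩ := exists_field (toSec s) y
  have hfx : ∀ g ∈ E.fixingSubgroup, s.s g y = y := fun g hg => (hfx' g).1 hg
  have : NumberField E := NumberField.of_module_finite K E
  obtain ⟨Y, hY, hD⟩ := h.unit_dat E y hne hy hy' hfx hroot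
  -- the values of the conjugates
  choose T hT using fun z : M => finite_M s hF hy0
    (fun v : HeightOneSpectrum (𝓞 K) => AlgebraicClosure (v.adicCompletion K)) pl S hS z
  let cj : Finset M := (minpoly F y).aroots M |>.toFinset
  let Q : ℚ[X] := ∏ z ∈ cj, ∏ β ∈ T z, minpoly ℚ β
  have hQB : Algebra.IsAlgebraic ℚ B := Algebra.IsAlgebraic.trans ℚ K B
  have hQ0 : Q ≠ 0 := Finset.prod_ne_zero_iff.2 fun z _ => Finset.prod_ne_zero_iff.2 fun β _ =>
    minpoly.ne_zero (Algebra.IsIntegral.isIntegral β)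
  obtain ⟨η, hη⟩ := adelic_point hD Q hQ0 (by
    intro p _ Φ
    set φ := Φ.comp (algebraMap K E) with hφ
    obtain ⟨g, hg⟩ := exists_adm (toSec s) E (toPt φ (pl (pls φ))) Φ rfl
    have h1 := hY p _ Φ rfl g hg
    have h2 : s.s g y ∈ (pl (pls φ)).W := h1.1
    obtain ⟨β, hβ, h3⟩ := hT (s.s g y) (pls φ) h2
    have h4 : (pl (pls φ)).val (s.s g y) ((pl (pls φ)).iot s.j β) := by
      have h3 := h3.add ((pl (pls φ)).iot_spec s.j β)
      rw [sub_add_cancel, zero_add] at h3
      exact h3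
    have h5 : Y p Φ = bx φ ((pl (pls φ)).iot s.j β) := h1.unique (toPt_val h4)
    have hgy : s.s g y ∈ cj := by
      rw [Multiset.mem_toFinset, mem_aroots]
      refine ⟨minpoly.ne_zero (Algebra.IsIntegral.isIntegral y), ?_⟩
      have h6 := congrArg (s.s g) (minpoly.aeval F y)
      rw [map_zero] at h6
      rw [← h6]
      exact aeval_algHom_apply (s.s g : M →ₐ[F] M) y (minpoly F y)
    have e1 : aeval (Y p Φ) Q = ∏ z ∈ cj, ∏ β ∈ T z, aeval (Y p Φ) (minpoly ℚ β) := by
      change aeval (Y p Φ) (∏ z ∈ cj, ∏ β ∈ T z, minpoly ℚ β) = _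
      rw [map_prod]
      exact Finset.prod_congr rfl fun z _ => map_prod _ _ _
    rw [e1]
    refine Finset.prod_eq_zero hgy (Finset.prod_eq_zero hβ ?_)
    rw [h5]
    let ψ : B →+* PadicAlgCl p := (bx φ).comp ((pl (pls φ)).iot s.j : B →+* _)
    have h6 := congrArg ψ (minpoly.aeval ℚ β)
    rw [map_zero, aeval_def, hom_eval₂] at h6
    have e2 : ψ.comp (algebraMap ℚ B) = algebraMap ℚ (PadicAlgCl p) := Subsingleton.elim _ _
    rw [e2] at h6
    exact h6)
  have hη0 : η ≠ 0 := by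
    intro h0
    obtain ⟨Φ⟩ : Nonempty (E →+* PadicAlgCl 2) := inferInstance
    have h3 := hD.ne 2 Φ
    rw [RingHom.comp_id, map_zero, sub_zero, hη, h0, map_zero] at h3
    exact h3 rfl
  refine ⟨η, gl_of_hasVal hY (fun p _ Φ => hη p Φ), fun N hN => ?_⟩
  obtain ⟨w, hw, hw'⟩ := abelian_gen (toSec s) E y hfx hroot _
    (fun p _ φ => givenBy_of_cmp s φ _ (h.cmp _)) hY η hη0 (fun p _ Φ => hη p Φ) N hN
  exact ⟨w, hw, fun g hg => hw' g ((hfx' g).2 hg)⟩

/-- **The point of the spectrum of the ring generated by the units.** -/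
theorem unit_point (h : AdPt R s pl)
    (hF : ∃ t : F, Transcendental K t ∧ Algebra.IsAlgebraic (IntermediateField.adjoin K {t}) F)
    {y0 : M} (hy0 : Transcendental K y0) (S : Finset B)
    (hS : ∀ v, ∃ β ∈ S, (pl v).val (y0 - s.j β) 0) (U : Set M) (hU0 : ∀ y ∈ U, y ≠ 0)
    (hU1 : ∀ y ∈ U, IntOver R y) (hU2 : ∀ y ∈ U, IntOver R y⁻¹)
    (hU3 : ∀ y ∈ U, ∀ N : ℕ, 0 < N → ∃ w : M, w ≠ 0 ∧ w ^ N = y)
    (hU4 : ∀ y ∈ U, ∀ g : B ≃ₐ[K] B, s.s g y ∈ U) :
    ∃ θ : Subring.closure (Set.range s.j ∪ U) →+* B,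
      (∀ b : B, ∃ h : s.j b ∈ Subring.closure (Set.range s.j ∪ U), θ ⟨s.j b, h⟩ = b) ∧
      (∀ (g : B ≃ₐ[K] B) (r : Subring.closure (Set.range s.j ∪ U)),
        ∃ h : s.s g (r : M) ∈ Subring.closure (Set.range s.j ∪ U),
          θ ⟨s.s g (r : M), h⟩ = g (θ r)) ∧
      (∀ v (r : Subring.closure (Set.range s.j ∪ U)), (pl v).val ((r : M) - s.j (θ r)) 0) ∧
      (∀ (f : F) (h : algebraMap F M f ∈ Subring.closure (Set.range s.j ∪ U)), ∃ ξ : K,
        θ ⟨algebraMap F M f, h⟩ = algebraMap K B ξ ∧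
          ∀ v, (pl v).val (algebraMap F M f) (algebraMap K _ ξ)) ∧
      (∀ y ∈ U, ∃ h : y ∈ Subring.closure (Set.range s.j ∪ U), ∀ N : ℕ, 0 < N → ∃ w : M,
        w ^ N = y / s.j (θ ⟨y, h⟩) ∧ ∀ g : B ≃ₐ[K] B, s.s g y = y → s.s g w = w) := by
  have hB1 : IsAlgClosed B := IsAlgClosure.isAlgClosed K
  have hB2 : Algebra.IsAlgebraic K B := IsAlgClosure.isAlgebraic
  have hNo : Normal K B := IsAlgClosure.normal K B
  have hG' : IsGalois K B := ⟨⟩
  have hne : Nonempty (HeightOneSpectrum (𝓞 K)) := nonempty_places K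
  have key : ∀ r ∈ Subring.closure (Set.range s.j ∪ U), ∃ b, Gl s pl r b := by
    intro r hr
    refine gl_closure (Set.range s.j ∪ U) ?_ r hr
    rintro r (⟨b, rfl⟩ | hr)
    · exact ⟨b, Gl.cst b⟩
    · obtain ⟨b, hb, -⟩ := gl_unit h hF hy0 S hS r (hU0 r hr) (hU1 r hr) (hU2 r hr) (hU3 r hr)
      exact ⟨b, hb⟩
  obtain ⟨θ, hθ⟩ := exists_hom (s := s) (pl := pl) _ key
  have hstab : ∀ (g : B ≃ₐ[K] B) (r : M), r ∈ Subring.closure (Set.range s.j ∪ U) →
      s.s g r ∈ Subring.closure (Set.range s.j ∪ U) := by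
    intro g r hr
    have h1 : Subring.closure (Set.range s.j ∪ U) ≤
        (Subring.closure (Set.range s.j ∪ U)).comap (s.s g : M →+* M) := by
      rw [Subring.closure_le]
      rintro r (⟨b, rfl⟩ | hr)
      · change s.s g (s.j b) ∈ Subring.closure (Set.range s.j ∪ U)
        rw [s.sec]
        exact Subring.subset_closure (Or.inl ⟨_, rfl⟩)
      · exact Subring.subset_closure (Or.inr (hU4 r hr g))
    exact h1 hr
  refine ⟨θ, fun b => ?_, fun g r => ?_, fun v r => ?_, fun f hf => ?_, fun y hy => ?_⟩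
  · exact ⟨Subring.subset_closure (Or.inl ⟨b, rfl⟩), (hθ _).unique (Gl.cst b)⟩
  · exact ⟨hstab g r r.2, (hθ _).unique ((hθ r).conj g)⟩
  · have h1 := hθ r v 1
    rw [map_one] at h1
    exact h1
  · set β := θ ⟨algebraMap F M f, hf⟩ with hβ
    have hfix : ∀ g : B ≃ₐ[K] B, g β = β := by
      intro g
      have h1 := (hθ ⟨algebraMap F M f, hf⟩).conj g
      rw [AlgEquiv.commutes] at h1
      exact h1.unique (hθ ⟨algebraMap F M f, hf⟩)
    have hmem : β ∈ (⊥ : IntermediateField K B) := by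
      apply mem_of_fixed
      intro g _
      exact hfix g
    obtain ⟨ξ, hξ⟩ := IntermediateField.mem_bot.1 hmem
    refine ⟨ξ, hξ.symm, fun v => ?_⟩
    have h1 := (hθ ⟨algebraMap F M f, hf⟩).val v 1
    rw [map_one] at h1
    have h2 : (pl v).iot s.j ((1 : B ≃ₐ[K] B) β) = algebraMap K _ ξ := by
      change (pl v).iot s.j β = _
      rw [← hξ, AlgHom.commutes]
    rw [← hβ, h2] at h1
    exact h1
  · have hmem : y ∈ Subring.closure (Set.range s.j ∪ U) := Subring.subset_closure (Or.inr hy)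
    refine ⟨hmem, ?_⟩
    obtain ⟨b, hb, hk⟩ := gl_unit h hF hy0 S hS y (hU0 y hy) (hU1 y hy) (hU2 y hy) (hU3 y hy)
    have h1 : θ ⟨y, hmem⟩ = b := (hθ _).unique hb
    rw [h1]
    exact hk

end main

end Pool.Agent.H886.SB
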