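import Pool.Agent.H886.SB.Main

/-!
# Units on coverings
-/

set_option autoImplicit false
set_option linter.unusedSectionVars false

namespace Pool.Agent.H886.SB

open NumberField IsDedekindDomain Pool.Agent.W518.TC Pool.Agent.Q33.SecL
open Pool.Agent.H886.Exp
open Pool.Agent.W620.SC (root_mem mem_of_fixed)

section kummer

variable {K F M B : Type} [Field K] [NumberField K] [Field F] [Field M] [Field B] [Algebra F M]
  [Algebra K M] [Algebra K B] [IsAlgClosed B] [Algebra.IsAlgebraic K B]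
  [Algebra.IsAlgebraic F M]

/-- **The Kummer classes of a unit with global values.** -/
theorem abelian_gen (s : GalSec K F M B) (E : IntermediateField K B) [NumberField E] (y : M)
    (hfx : ∀ σ ∈ E.fixingSubgroup, s.s σ y = y)
    (hroot : ∀ N : ℕ, 0 < N → ∃ w : M, w ≠ 0 ∧ w ^ N = y)
    (P : ∀ (p : ℕ) [Fact p.Prime] (φ : K →+* PadicAlgCl p), Pt K M φ)
    (hP : ∀ (p : ℕ) [Fact p.Prime] (φ : K →+* PadicAlgCl p), s.GivenBy (P p φ))
    {Y : ∀ (p : ℕ) [Fact p.Prime], (E →+* PadicAlgCl p) → PadicAlgCl p}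
    (hY : HasVal s E P y Y) (η : E) (hη0 : η ≠ 0)
    (hη : ∀ (p : ℕ) [Fact p.Prime] (Φ : E →+* PadicAlgCl p), Y p Φ = Φ η) (N : ℕ) (hN : 0 < N) :
    ∃ w : M, w ^ N = y / s.j (η : B) ∧ ∀ g ∈ E.fixingSubgroup, s.s g w = w := by
  have hA : IsAlgClosure K B := ⟨inferInstance, inferInstance⟩
  have hNo : Normal K B := IsAlgClosure.normal K B
  have hG : IsGalois K B := ⟨⟩
  have hk : ∀ N : ℕ, ∃ (a : E) (g : M), 0 < N → (a ≠ 0 ∧ g ≠ 0 ∧
      y = s.j (a : B) * g ^ N ∧ ∀ σ ∈ E.fixingSubgroup, s.s σ g = g) := by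
    intro N
    by_cases hN : 0 < N
    · obtain ⟨w, hw0, hw⟩ := hroot N hN
      obtain ⟨a, ha, g, hg0, hg, hfix⟩ := kummer_gen s E y hfx hN w hw hw0
      exact ⟨a, g, fun _ => ⟨ha, hg0, hg, hfix⟩⟩
    · exact ⟨0, 0, fun h => absurd h hN⟩
  choose a g hag using hk
  have hj0 : ∀ {b : B}, b ≠ 0 → s.j b ≠ 0 := fun h => (map_ne_zero s.j).2 h
  have haB : ∀ N, 0 < N → (a N : B) ≠ 0 := fun N hN h => (hag N hN).1 (Subtype.ext h)
  obtain ⟨t, ht⟩ := powers (fun N => η / a N) (by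
      intro p _ Φ N hN
      obtain ⟨ha, -, hg, hfix⟩ := hag N hN
      obtain ⟨g0, hg0⟩ := exists_adm s E (P p (Φ.comp (algebraMap K E))) Φ rfl
      obtain ⟨u, hu, hu'⟩ := values_gen hN (a N) ha y (g N) hg hfix rfl (hP p _) hg0
        (hY p _ Φ rfl g0 hg0)
      refine ⟨u, hu, ?_⟩
      rw [hη] at hu'
      rw [map_div₀, hu', mul_div_cancel_left₀ _ ((map_ne_zero Φ).2 ha)])
    (fun N hN => div_ne_zero hη0 (hag N hN).1) (by
      intro N L hN hL
      obtain ⟨ha, hg0, hg, hfix⟩ := hag N hN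
      obtain ⟨ha', hg0', hg', hfix'⟩ := hag (N * L) (Nat.mul_pos hN hL)
      have h1 : (g (N * L) ^ L / g N) ^ N = (s.j : B →+* M) ((a N : B) / (a (N * L) : B)) := by
        have h2 := hj0 (haB N hN)
        have h3 := hj0 (haB (N * L) (Nat.mul_pos hN hL))
        change _ = s.j ((a N : B) / (a (N * L) : B))
        rw [map_div₀, div_pow, div_eq_div_iff (pow_ne_zero _ hg0) h3, ← pow_mul, mul_comm L N]
        linear_combination hg - hg'
      obtain ⟨b, hb⟩ := root_mem (s.j : B →+* M) hN h1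
      have hbK : b ∈ E := by
        apply mem_of_fixed
        intro σ hσ
        have h2 := congrArg (s.s σ) hb
        rw [map_div₀, map_pow, hfix' σ hσ, hfix σ hσ, ← hb] at h2
        change s.s σ (s.j b) = s.j b at h2
        rw [s.sec] at h2
        exact s.j.toRingHom.injective h2
      refine ⟨⟨b, hbK⟩, ?_⟩
      have h4 : b ^ N = (a N : B) / (a (N * L) : B) := by
        apply (s.j : B →+* M).injective
        rw [map_pow, hb, h1]
      apply Subtype.ext
      change (η : B) / (a (N * L) : B) = (η : B) / (a N : B) * b ^ N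
      rw [h4]
      have h2 := haB N hN
      have h3 := haB (N * L) (Nat.mul_pos hN hL)
      field_simp) N hN
  obtain ⟨ha, hg0, hg, hfix⟩ := hag N hN
  have ht0 : t ≠ 0 := by
    rintro rfl
    rw [zero_pow hN.ne'] at ht
    exact div_ne_zero hη0 ha ht
  refine ⟨g N / s.j t, ?_, ?_⟩
  · have h1 : (η : B) = (a N : B) * (t : B) ^ N := by
      have h2 := congrArg (Subtype.val : E → B) ht
      change (η : B) / (a N : B) = (t : B) ^ N at h2
      rw [← h2, mul_div_cancel₀ _ (haB N hN)]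
    rw [h1, map_mul, map_pow]
    conv_rhs => rw [hg]
    rw [div_pow, mul_div_mul_left _ _ (hj0 (haB N hN))]
  · intro σ hσ
    rw [map_div₀, hfix σ hσ, s.sec]
    congr 2
    exact (IntermediateField.mem_fixingSubgroup_iff _ _).1 hσ t t.2

end kummer

section core

variable {K F M B : Type} [Field K] [NumberField K] [Field F] [Field M] [Field B] [Algebra K F]
  [Algebra F M] [Algebra K M] [IsScalarTower K F M] [Algebra K B] [IsAlgClosed B]
  [Algebra.IsAlgebraic K B] [Algebra.IsAlgebraic F M]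

/-- **Global values of units on coverings.** -/
theorem uni_core (s : GalSec K F M B) (E : IntermediateField K B) [NumberField E] {ι : Type}
    [Fintype ι] (y : ι → M) (hy0 : ∀ i, y i ≠ 0)
    (P : ∀ (p : ℕ) [Fact p.Prime] (φ : K →+* PadicAlgCl p), Pt K M φ)
    (Y : ι → ∀ (p : ℕ) [Fact p.Prime], (E →+* PadicAlgCl p) → PadicAlgCl p)
    (hY : ∀ i, HasVal s E P (y i) (Y i)) (hD : ∀ i, Dat (Y i) E (RingHom.id E) 0)
    (ρ : E →+* E) (b : ℤ) (κ : ι → E) (hκ : ∀ i, κ i ≠ 0) {m : ℕ} (hm : 0 < m)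
    (hV : ∀ i (p : ℕ) [Fact p.Prime] (Φ : E →+* PadicAlgCl p),
      Y i p Φ ^ m = Φ (κ i) * (Y i p Φ * (Y i p (Φ.comp ρ)) ^ b)) {ε : E}
    (hi : IsIntegral ℤ ε) (hi' : IsIntegral ℤ ε⁻¹) (h0 : ε ≠ 0) (W : Finset E)
    (hW : ∀ ζ ∈ W, ζ ≠ 0) (hU : ∀ η : E, η ≠ 0 → (∀ v, ord v η = 0) →
      ∃ ζ ∈ W, ∃ n : ℤ, η * (ρ η) ^ b = ζ * ε ^ n)
    (hF : ∃ t : F, Transcendental K t ∧ Algebra.IsAlgebraic (IntermediateField.adjoin K {t}) F)
    (hind : ε = 1 ∨ ∃ i0 j0, ∀ a b : ℤ, (a ≠ 0 ∨ b ≠ 0) →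
      Transcendental K (y i0 ^ a * y j0 ^ b)) :
    ∃ η : ι → E, ∀ (p : ℕ) [Fact p.Prime] (Φ : E →+* PadicAlgCl p) (i : ι),
      Y i p Φ = Φ (η i) := by
  classical
  rcases hind with rfl | ⟨i0, j0, hind⟩
  · choose η hη using fun i => global_zero (hD i) ρ b (κ i) (hκ i) hm (fun p _ Φ => hV i p Φ) W hW hU
    exact ⟨η, fun p _ Φ i => hη i p Φ⟩
  · let algEM : Algebra E M := ((s.j : B →+* M).comp (algebraMap E B)).toAlgebra
    have hEM : ∀ z : E, algebraMap E M z = s.j z := fun _ => rfl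
    have hst : IsScalarTower K E M := IsScalarTower.of_algebraMap_eq fun c => by
      rw [hEM]
      exact (s.j.commutes c).symm
    have halgKE : Algebra.IsAlgebraic K E := inferInstance
    have hm0 : (m : ℤ) ≠ 0 := by exact_mod_cast hm.ne'
    have hindE : ∀ a b : ℤ, (a ≠ 0 ∨ b ≠ 0) →
        Transcendental E ((y i0 ^ m) ^ a * (y j0 ^ m) ^ b) := by
      intro a b hab h0
      have e2 : ∀ (x : M) (c : ℤ), (x ^ m) ^ c = x ^ ((m : ℤ) * c) := fun x c => by
        rw [zpow_mul, zpow_natCast]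
      refine hind (m * a) (m * b) ?_ ?_
      · rcases hab with h | h
        · exact Or.inl (mul_ne_zero hm0 h)
        · exact Or.inr (mul_ne_zero hm0 h)
      · rw [← e2, ← e2]
        exact h0.restrictScalars K
    have hy2E : Transcendental E (y i0 ^ m) := by
      have := hindE 1 0 (Or.inl one_ne_zero)
      simpa using this
    obtain ⟨t, ht, hFt⟩ := hF
    have htE : Transcendental E (algebraMap F M t) := by
      intro h0
      have h3 : IsAlgebraic K (algebraMap F M t) := h0.restrictScalars K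
      exact ht ((isAlgebraic_algebraMap_iff (algebraMap F M).injective).1 h3)
    have hMalg := alg_exchange htE (alg_up (K := K) (E := E) (M := M) hFt) hy2E
    choose g0 hg0 using fun (p : ℕ) [Fact p.Prime] (Φ : E →+* PadicAlgCl p) =>
      exists_adm s E (P p (Φ.comp (algebraMap K E))) Φ rfl
    exact global_one hD ρ b κ hκ hm hV hi hi' h0 W hW hU y hy0 i0 j0 hindE hMalg
      (fun p _ Φ => trPt s E hEM (P p (Φ.comp (algebraMap K E))) Φ (g0 p Φ) (hg0 p Φ))
      (fun i p _ Φ => trPt_val (hY i p _ Φ rfl _ (hg0 p Φ)))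

end core

end Pool.Agent.H886.SB
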